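import Pool.Agent.MP_2a1f0e_nt.SQ.Defs
import Pool.Agent.MP_2a1f0e_nt.GM2.Mom

set_option autoImplicit false

open Finset

namespace Pool.Agent.MP_2a1f0e_nt.SQ

open GM GM2

lemma cnt_mul_le_BSix (n T m : ℕ) (b : ℕ → ℂ) {V : ℝ} (hV : 0 < V) :
    (DH.cnt n b T V : ℝ) * V ^ m ≤ ∑ ρ ∈ Icc (-(T : ℤ)) T, ‖DP n b ρ‖ ^ m := by
  unfold DH.cnt
  rw [← nsmul_eq_mul]
  refine (card_nsmul_le_sum _ (fun ρ : ℤ => ‖DP n b ρ‖ ^ m) _ fun t ht =>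
    pow_le_pow_left₀ hV.le (mem_filter.1 ht).2 m).trans ?_
  refine sum_le_sum_of_subset_of_nonneg (fun t ht => ?_) fun t _ _ => by positivity
  have := mem_Icc.1 (mem_filter.1 ht).1
  exact mem_Icc.2 ⟨by omega, this.2⟩

lemma pow_six_BSix (c : ℝ) (a k n : ℕ) {ε : ℝ} :
    (c * ((a * n ^ k : ℕ) : ℝ) ^ ε) ^ 6 =
      c ^ 6 * (a : ℝ) ^ (6 * ε) * (n : ℝ) ^ (6 * k * ε) := by
  have h1 : (((a * n ^ k : ℕ) : ℝ) ^ ε) ^ 6 = ((a * n ^ k : ℕ) : ℝ) ^ (6 * ε) := by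
    rw [mul_comm (6 : ℝ) ε, Real.rpow_mul (Nat.cast_nonneg _)]
    exact (Real.rpow_natCast _ 6).symm
  have h2 : ((n : ℝ) ^ k) ^ (6 * ε) = (n : ℝ) ^ (6 * k * ε) := by
    rw [← Real.rpow_natCast, ← Real.rpow_mul (Nat.cast_nonneg _)]
    congr 1
    ring
  rw [mul_pow, h1]
  push_cast
  rw [Real.mul_rpow (Nat.cast_nonneg _) (by positivity), h2]
  ring

theorem mv_stmt (hM : GM2.MomStmt) : MvStmt := by
  obtain ⟨C, hC, h⟩ := hM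
  intro ε hε
  obtain ⟨c, hc, hD⟩ := DH.exists_DivB (ε := ε / 18) (by positivity)
  refine ⟨C * (c ^ 6 * ((8 : ℕ) : ℝ) ^ (6 * (ε / 18))) * 64, by positivity,
    fun n T V b hn hV hb => ?_⟩
  have key : ∀ k : ℕ, 1 ≤ k → k ≤ 3 → (DH.cnt n b T V : ℝ) ≤
      C * (c ^ 6 * ((8 : ℕ) : ℝ) ^ (6 * (ε / 18))) * 64 * (n : ℝ) ^ ε *
        (((T : ℝ) + (n : ℝ) ^ k) * (n : ℝ) ^ k / V ^ (2 * k)) := by
    intro k hk1 hk3
    have hX : (2 * n) ^ k ≤ 8 * n ^ 3 :=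
      (Nat.pow_le_pow_right (by omega) hk3).trans (le_of_eq (by ring))
    have h1 := h k (2 * n) T (8 * n ^ 3) _ (Icc n (2 * n)) b hk1 (by omega) (fun a _ => hb a)
      (fun a ha => by have := mem_Icc.1 ha; omega) hX
      (hD _ (Nat.mul_pos (by norm_num) (pow_pos hn 3)))
    rw [pow_six_BSix, show 6 * ((3 : ℕ) : ℝ) * (ε / 18) = ε by push_cast; ring] at h1
    have h2 := (cnt_mul_le_BSix n T (2 * k) b hV).trans h1
    have h3 : (((2 * n : ℕ) : ℝ)) ^ k ≤ 8 * (n : ℝ) ^ k := by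
      push_cast
      rw [mul_pow]
      refine mul_le_mul_of_nonneg_right ?_ (by positivity)
      exact (pow_le_pow_right₀ (by norm_num) hk3).trans (by norm_num)
    have h4 : ((T : ℝ) + ((2 * n : ℕ) : ℝ) ^ k) * ((2 * n : ℕ) : ℝ) ^ k ≤
        64 * (((T : ℝ) + (n : ℝ) ^ k) * (n : ℝ) ^ k) := by
      have hT : (0 : ℝ) ≤ T := Nat.cast_nonneg T
      calc ((T : ℝ) + ((2 * n : ℕ) : ℝ) ^ k) * ((2 * n : ℕ) : ℝ) ^ k
          ≤ (8 * T + 8 * (n : ℝ) ^ k) * (8 * (n : ℝ) ^ k) :=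
            mul_le_mul (by linarith) h3 (by positivity) (by positivity)
        _ = _ := by ring
    rw [← mul_div_assoc, le_div_iff₀ (by positivity)]
    refine h2.trans ((mul_le_mul_of_nonneg_left h4 (by positivity)).trans (le_of_eq ?_))
    ring
  refine ⟨?_, key 2 (by norm_num) (by norm_num), key 3 (by norm_num) (by norm_num)⟩
  simpa only [pow_one, mul_one] using key 1 le_rfl (by norm_num)

lemma cnt_le_BSix {n T : ℕ} (hT : 1 ≤ T) (b : ℕ → ℂ) {V U u Z : ℝ} (hV : 0 < V)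
    (hu : 2 * u < V ^ 2) (hZ : Big n T b U Z) :
    (DH.cnt n b T V : ℝ) ≤ Z / V ^ 4 + 2 * XX n T b U u / V ^ 6 := by
  have hsub : (Icc 0 (T : ℤ)).filter (fun t : ℤ => V ≤ ‖DP n b t‖) ⊆ Io (2 * T) := by
    intro t ht
    have := mem_Icc.1 (mem_filter.1 ht).1
    rw [Io_two, mem_Ioo]
    omega
  have h0 : ∀ t ∈ Io (2 * T), 0 ≤ (if U < ‖DP n b t‖ ^ 2 then ‖DP n b t‖ ^ 4 else 0) / V ^ 4 ∧
      0 ≤ 2 * (ww n T b U u t * ‖DP n b t‖ ^ 4) / V ^ 6 := fun t ht => by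
    have := ww_nonneg (n := n) b U u ht
    refine ⟨div_nonneg ?_ (by positivity), by positivity⟩
    split_ifs <;> positivity
  have h1 : ∀ t ∈ (Icc 0 (T : ℤ)).filter (fun t : ℤ => V ≤ ‖DP n b t‖), (1 : ℝ) ≤
      (if U < ‖DP n b t‖ ^ 2 then ‖DP n b t‖ ^ 4 else 0) / V ^ 4 +
        2 * (ww n T b U u t * ‖DP n b t‖ ^ 4) / V ^ 6 := by
    intro t ht
    obtain ⟨a1, a2⟩ := h0 t (hsub ht)
    obtain ⟨b1, b2⟩ := mem_filter.1 ht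
    have b3 := mem_Icc.1 b1
    have b4 : V ^ 4 ≤ ‖DP n b t‖ ^ 4 := pow_le_pow_left₀ hV.le b2 4
    by_cases e : U < ‖DP n b t‖ ^ 2
    · rw [if_pos e]
      have : 1 ≤ ‖DP n b t‖ ^ 4 / V ^ 4 := (one_le_div (by positivity)).2 b4
      linarith
    · have b5 : V ^ 2 ≤ ‖DP n b t‖ ^ 2 := pow_le_pow_left₀ hV.le b2 2
      have b6 : 1 / 2 ≤ tri (2 * T) t := half_le_tri (by omega) (by
        rw [abs_of_nonneg b3.1]
        push_cast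
        omega)
      have b7 : 1 / 2 * V ^ 2 ≤ nu n T b t :=
        mul_le_mul b6 b5 (by positivity) (by linarith)
      have b8 : ww n T b U u t = nu n T b t := if_pos ⟨not_lt.1 e, by linarith⟩
      have b9 : 1 ≤ 2 * (ww n T b U u t * ‖DP n b t‖ ^ 4) / V ^ 6 := by
        rw [one_le_div (by positivity), b8]
        have := mul_le_mul b7 b4 (by positivity) (le_trans (by positivity) b7)
        linarith
      linarith
  unfold DH.cnt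
  rw [← mul_one (((Icc 0 (T : ℤ)).filter (fun t : ℤ => V ≤ ‖DP n b t‖)).card : ℝ),
    ← nsmul_eq_mul]
  refine (card_nsmul_le_sum _ _ _ h1).trans ((sum_le_sum_of_subset_of_nonneg hsub
    fun t ht _ => add_nonneg (h0 t ht).1 (h0 t ht).2).trans ?_)
  rw [sum_add_distrib, ← sum_div, ← sum_div, ← mul_sum, ← sum_filter]
  exact add_le_add (div_le_div_of_nonneg_right hZ (by positivity)) le_rfl

theorem b6_stmt (hX : X6Stmt) (hB : BigStmt) (hM : MvStmt) : B6Stmt := by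
  intro ε hε
  obtain ⟨K1, hK1, h1⟩ := hX ε hε
  obtain ⟨K2, hK2, h2⟩ := hB (ε / 2) (by positivity)
  obtain ⟨K3, hK3, h3⟩ := hM ε hε
  obtain ⟨c, hc, hD⟩ := DH.exists_DivB (ε := ε / 24) (by positivity)
  obtain ⟨K4, hK4⟩ : ∃ K4 : ℝ, K4 = 2 * K2 * (c ^ 6 * ((2 : ℕ) : ℝ) ^ (6 * (ε / 24))) := ⟨_, rfl⟩
  have hK4' : 0 < K4 := by rw [hK4]; positivity
  refine ⟨K4 + 2 * K1 + 4 * K3, by positivity, fun n T V b hn hT hT3 hV hb => ?_⟩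
  have hT1 : 1 ≤ T := (Nat.one_le_pow _ _ hn).trans hT
  have hT0 : (0 : ℝ) < T := by exact_mod_cast hT1
  have hn0 : (0 : ℝ) < n := by exact_mod_cast hn
  obtain ⟨τ, hτ, hτ4, hτ3⟩ : ∃ τ : ℝ, 0 < τ ∧ τ ^ 4 = T ∧ τ ^ 3 = (T : ℝ) ^ (3 / 4 : ℝ) := by
    refine ⟨(T : ℝ) ^ (1 / 4 : ℝ), by positivity, ?_, ?_⟩
    · rw [← Real.rpow_natCast, ← Real.rpow_mul hT0.le]
      norm_num
    · rw [← Real.rpow_natCast, ← Real.rpow_mul hT0.le]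
      norm_num
  rw [← hτ3]
  have hP : 0 < (n : ℝ) ^ ε := by positivity
  have hA : 0 < (n : ℝ) ^ ε * ((n : ℝ) ^ 4 / V ^ 4) := by positivity
  have hB' : 0 < (n : ℝ) ^ ε * (τ ^ 3 * (n : ℝ) ^ 4 / V ^ 6) := by positivity
  have e0 : (K4 + 2 * K1 + 4 * K3) * (n : ℝ) ^ ε *
      ((n : ℝ) ^ 4 / V ^ 4 + τ ^ 3 * (n : ℝ) ^ 4 / V ^ 6) =
      (K4 + 2 * K1 + 4 * K3) * ((n : ℝ) ^ ε * ((n : ℝ) ^ 4 / V ^ 4)) +
        (K4 + 2 * K1 + 4 * K3) * ((n : ℝ) ^ ε * (τ ^ 3 * (n : ℝ) ^ 4 / V ^ 6)) := by ring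
  rw [e0]
  rcases le_or_gt (V ^ 2) (2 * ((n : ℝ) ^ 2 / τ)) with hs | hs
  · have a1 := (h3 n T V b hn hV hb.1).2.1
    have a2 : (n : ℝ) ^ 2 ≤ T := by exact_mod_cast hT
    have a3 : V ^ 2 * τ ≤ 2 * (n : ℝ) ^ 2 := by
      rw [← mul_div_assoc, le_div_iff₀ hτ] at hs
      exact hs
    have a4 : ((T : ℝ) + (n : ℝ) ^ 2) * (n : ℝ) ^ 2 / V ^ 4 ≤
        4 * (τ ^ 3 * (n : ℝ) ^ 4 / V ^ 6) := by
      rw [← mul_div_assoc, div_le_div_iff₀ (by positivity) (by positivity)]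
      calc ((T : ℝ) + (n : ℝ) ^ 2) * (n : ℝ) ^ 2 * V ^ 6
          ≤ (2 * τ ^ 4) * (n : ℝ) ^ 2 * V ^ 6 := by
            gcongr
            linarith
        _ = 2 * τ ^ 3 * (n : ℝ) ^ 2 * V ^ 4 * (V ^ 2 * τ) := by ring
        _ ≤ 2 * τ ^ 3 * (n : ℝ) ^ 2 * V ^ 4 * (2 * (n : ℝ) ^ 2) :=
            mul_le_mul_of_nonneg_left a3 (by positivity)
        _ = _ := by ring
    have a5 := a1.trans (mul_le_mul_of_nonneg_left a4 (by positivity))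
    have a6 : K3 * (n : ℝ) ^ ε * (4 * (τ ^ 3 * (n : ℝ) ^ 4 / V ^ 6)) =
        4 * K3 * ((n : ℝ) ^ ε * (τ ^ 3 * (n : ℝ) ^ 4 / V ^ 6)) := by ring
    rw [a6] at a5
    have a7 := mul_le_mul_of_nonneg_right
      (show 4 * K3 ≤ K4 + 2 * K1 + 4 * K3 by linarith) hB'.le
    have a8 : 0 ≤ (K4 + 2 * K1 + 4 * K3) * ((n : ℝ) ^ ε * ((n : ℝ) ^ 4 / V ^ 4)) := by positivity
    linarith
  · have hT4 : T ≤ n ^ 4 := by
      refine (Nat.pow_le_pow_iff_left (by norm_num : 3 ≠ 0)).1 (hT3.trans ?_)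
      rw [← pow_mul]
      exact Nat.pow_le_pow_right hn (by norm_num)
    have a1 := h1 n T τ b hn hT hT3 hτ hτ4 hb
    have a2 := h2 n T _ (τ * n) b hn hT hT4
      (hD (2 * n ^ 2) (Nat.mul_pos (by norm_num) (pow_pos hn 2))) (by positivity) hb
    have a3 : K2 * (n : ℝ) ^ (ε / 2) * (c * ((2 * n ^ 2 : ℕ) : ℝ) ^ (ε / 24)) ^ 6 *
        ((n : ℝ) ^ 4 + T * (n : ℝ) ^ 8 / (τ * n) ^ 4) = K4 * ((n : ℝ) ^ ε * (n : ℝ) ^ 4) := by
      have b1 : (T : ℝ) * (n : ℝ) ^ 8 / (τ * n) ^ 4 = (n : ℝ) ^ 4 := by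
        rw [mul_pow, hτ4]
        field_simp
      have b2 : (n : ℝ) ^ ε = (n : ℝ) ^ (ε / 2) * (n : ℝ) ^ (ε / 2) := by
        rw [← Real.rpow_add hn0]
        congr 1
        ring
      rw [pow_six_BSix, show 6 * ((2 : ℕ) : ℝ) * (ε / 24) = ε / 2 by push_cast; ring, b1, hK4, b2]
      ring
    rw [a3] at a2
    have a4 := cnt_le_BSix hT1 b hV hs a2
    have a5 : 2 * XX n T b (τ * n) ((n : ℝ) ^ 2 / τ) / V ^ 6 ≤
        2 * K1 * ((n : ℝ) ^ ε * (τ ^ 3 * (n : ℝ) ^ 4 / V ^ 6)) := by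
      refine (div_le_div_of_nonneg_right (mul_le_mul_of_nonneg_left a1 (by norm_num))
        (by positivity)).trans (le_of_eq ?_)
      ring
    have a6 : K4 * ((n : ℝ) ^ ε * (n : ℝ) ^ 4) / V ^ 4 =
        K4 * ((n : ℝ) ^ ε * ((n : ℝ) ^ 4 / V ^ 4)) := by ring
    rw [a6] at a4
    have a7 := mul_le_mul_of_nonneg_right
      (show 2 * K1 ≤ K4 + 2 * K1 + 4 * K3 by linarith) hB'.le
    have a8 := mul_le_mul_of_nonneg_right
      (show K4 ≤ K4 + 2 * K1 + 4 * K3 by linarith) hA.le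
    linarith

end Pool.Agent.MP_2a1f0e_nt.SQ
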