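import Pool.Agent.MP_2a1f0e_nt.SQ.Defs

set_option autoImplicit false

open Finset

namespace Pool.Agent.MP_2a1f0e_nt.SQ

open GM GM2

lemma alt1_Core6 {C C3 Δ n W X : ℝ} (hC : 8 * C3 ≤ C) (hW : 0 ≤ W)
    (h : X ^ 2 ≤ 4 * (2 * Δ ^ 2 * n ^ 2) * (C3 * W)) : X ^ 2 ≤ C * Δ ^ 2 * n ^ 2 * W := by
  have h0 : 0 ≤ Δ ^ 2 * n ^ 2 * W := by positivity
  have h1 := mul_le_mul_of_nonneg_right hC h0
  calc X ^ 2 ≤ 4 * (2 * Δ ^ 2 * n ^ 2) * (C3 * W) := h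
    _ = 8 * C3 * (Δ ^ 2 * n ^ 2 * W) := by ring
    _ ≤ C * (Δ ^ 2 * n ^ 2 * W) := h1
    _ = C * Δ ^ 2 * n ^ 2 * W := by ring

lemma alt2_Core6 {C Δ n g E a c d Z X : ℝ} (hC : 3072 ≤ C) (ha : 0 ≤ a) (hc : 0 ≤ c) (hd : 0 ≤ d)
    (hZ : 0 ≤ Z)
    (h : X ^ 4 ≤ 16 * (2 * Δ ^ 2 * n ^ 2) ^ 2 * E ^ 2 *
      (a * (3 * (a + c + d + (4 * n ^ 2 / g) ^ 2 * Z)))) :
    X ^ 4 ≤ C * Δ ^ 4 * n ^ 4 * E ^ 2 * (a * (a + c + d + (n ^ 2 / g) ^ 2 * Z)) := by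
  have e1 : (4 * n ^ 2 / g) ^ 2 * Z = 16 * ((n ^ 2 / g) ^ 2 * Z) := by ring
  have hz : 0 ≤ (n ^ 2 / g) ^ 2 * Z := by positivity
  rw [e1] at h
  generalize (n ^ 2 / g) ^ 2 * Z = z at h hz ⊢
  have h1 : a * (3 * (a + c + d + 16 * z)) ≤ 48 * (a * (a + c + d + z)) := by
    have : 3 * (a + c + d + 16 * z) ≤ 48 * (a + c + d + z) := by linarith
    calc a * (3 * (a + c + d + 16 * z)) ≤ a * (48 * (a + c + d + z)) :=
          mul_le_mul_of_nonneg_left this ha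
      _ = 48 * (a * (a + c + d + z)) := by ring
  have h2 : 0 ≤ a * (a + c + d + z) := by positivity
  generalize a * (a + c + d + z) = w at h1 h2 ⊢
  have h0 : 0 ≤ Δ ^ 4 * n ^ 4 * E ^ 2 * w := by positivity
  have h3 := mul_le_mul_of_nonneg_right hC h0
  calc X ^ 4 ≤ _ := h
    _ ≤ 16 * (2 * Δ ^ 2 * n ^ 2) ^ 2 * E ^ 2 * (48 * w) :=
        mul_le_mul_of_nonneg_left h1 (by positivity)
    _ = 3072 * (Δ ^ 4 * n ^ 4 * E ^ 2 * w) := by ring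
    _ ≤ C * (Δ ^ 4 * n ^ 4 * E ^ 2 * w) := h3
    _ = C * Δ ^ 4 * n ^ 4 * E ^ 2 * w := by ring

lemma alt3_Core6 {C CQ C2 Δ n M T E S Y p q r Q w X : ℝ} (hCQ : 0 < CQ) (hC2 : 0 < C2)
    (hC : 128 * (4 * CQ * (C2 + 4) + 4) ≤ C) (hΔ : 0 ≤ Δ) (hM : 0 ≤ M) (hT : 0 < T)
    (hE : 0 ≤ E) (hS : 0 ≤ S) (hY : 0 ≤ Y) (hp : 0 ≤ p) (hq : 0 ≤ q) (hr : 0 ≤ r) (hw : w ≤ r)
    (hQ : Q ≤ CQ * (n ^ 2) ^ 2 *
      (M ^ 2 * (4 * Y) * (C2 * p + 4 * Y / T) + M * Δ * (4 * Y) * (C2 * q + T)))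
    (h : X ^ 3 ≤ 16 * (2 * Δ ^ 2 * n ^ 2) ^ 3 * (Q + E * (4 * S) * w)) :
    X ^ 3 ≤ C * Δ ^ 6 * n ^ 6 *
      (n ^ 4 * (M ^ 2 * Y * (p + Y / T) + M * Δ * Y * (q + T)) + E * S * r) := by
  have hYT : 0 ≤ Y / T := by positivity
  have e1 : 4 * Y / T = 4 * (Y / T) := by ring
  rw [e1] at hQ
  generalize Y / T = y at hQ hYT ⊢
  have h1 : C2 * p + 4 * y ≤ (C2 + 4) * (p + y) := by nlinarith [mul_nonneg hC2.le hYT]
  have h2 : C2 * q + T ≤ (C2 + 4) * (q + T) := by nlinarith [mul_nonneg hC2.le hT.le]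
  have h3 : M ^ 2 * (4 * Y) * (C2 * p + 4 * y) + M * Δ * (4 * Y) * (C2 * q + T) ≤
      4 * (C2 + 4) * (M ^ 2 * Y * (p + y) + M * Δ * Y * (q + T)) := by
    calc _ ≤ M ^ 2 * (4 * Y) * ((C2 + 4) * (p + y)) + M * Δ * (4 * Y) * ((C2 + 4) * (q + T)) :=
          add_le_add (mul_le_mul_of_nonneg_left h1 (by positivity))
            (mul_le_mul_of_nonneg_left h2 (by positivity))
      _ = _ := by ring
  have h4 : 0 ≤ M ^ 2 * Y * (p + y) + M * Δ * Y * (q + T) := by positivity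
  generalize M ^ 2 * Y * (p + y) + M * Δ * Y * (q + T) = B at h3 h4 ⊢
  have h5 : Q ≤ 4 * CQ * (C2 + 4) * (n ^ 4 * B) := by
    calc Q ≤ _ := hQ
      _ ≤ CQ * (n ^ 2) ^ 2 * (4 * (C2 + 4) * B) := mul_le_mul_of_nonneg_left h3 (by positivity)
      _ = _ := by ring
  have h6 : E * (4 * S) * w ≤ 4 * (E * S * r) := by
    calc _ ≤ E * (4 * S) * r := mul_le_mul_of_nonneg_left hw (by positivity)
      _ = _ := by ring
  have h7 : 0 ≤ n ^ 4 * B := by positivity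
  have h8 : 0 ≤ E * S * r := by positivity
  have hK : 0 ≤ 4 * CQ * (C2 + 4) := by positivity
  generalize n ^ 4 * B = x at h5 h7 ⊢
  generalize E * S * r = z at h6 h8 ⊢
  generalize 4 * CQ * (C2 + 4) = K at hK h5 hC
  have h9 : Q + E * (4 * S) * w ≤ (K + 4) * (x + z) := by nlinarith [mul_nonneg hK h8]
  have h0 : 0 ≤ Δ ^ 6 * n ^ 6 * (x + z) := by positivity
  have h10 := mul_le_mul_of_nonneg_right hC h0
  calc X ^ 3 ≤ _ := h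
    _ ≤ 16 * (2 * Δ ^ 2 * n ^ 2) ^ 3 * ((K + 4) * (x + z)) :=
        mul_le_mul_of_nonneg_left h9 (by positivity)
    _ = 128 * (K + 4) * (Δ ^ 6 * n ^ 6 * (x + z)) := by ring
    _ ≤ C * (Δ ^ 6 * n ^ 6 * (x + z)) := h10
    _ = _ := by ring

theorem core6_stmt (hS : SosStmt) (hQ : QsStmt) (hq : SqcStmt) (h1 : D1Stmt) (h2 : D2Stmt)
    (h3 : D3Stmt) : Core6Stmt := by
  obtain ⟨CQ, hCQ, hQ⟩ := hQ
  obtain ⟨C2, hC2, h2⟩ := h2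
  obtain ⟨C3, hC3, h3⟩ := h3
  have hK : 0 ≤ 128 * (4 * CQ * (C2 + 4) + 4) := by positivity
  refine ⟨1 + 8 * C3 + 3072 + 128 * (4 * CQ * (C2 + 4) + 4), by linarith, ?_⟩
  intro n M T g b Δ E U u Y S Z hn hT hg hb hD6 hDM hE hHE hU hu hYS hBig
  have hn2 : 1 ≤ n ^ 2 := Nat.one_le_pow _ _ hn
  have hT1 : 1 ≤ T := hn2.trans hT
  have hTr : (0 : ℝ) < T := by exact_mod_cast hT1
  have hnr : (0 : ℝ) < n := by exact_mod_cast hn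
  have hΔ : 1 ≤ Δ := hD6.1
  have hD2 : DivB (2 * n ^ 2) Δ := GM2.DivB_mono hD6 (by nlinarith)
  obtain ⟨hsq, -, hH⟩ := hq n b Δ hn hb hD2
  have h0 : (0 : ℤ) ∈ Io (2 * T) := by
    rw [mem_Io]
    constructor <;> push_cast <;> omega
  have hY : 0 ≤ Y := (sum_nonneg fun _ _ => sq_nonneg _).trans (hYS ∅ (empty_subset _)).1
  have hS0 : 0 ≤ S :=
    (sum_nonneg fun _ _ => mul_nonneg (sq_nonneg _) (sq_nonneg _)).trans
      ((hYS ∅ (empty_subset _)).2 0 h0)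
  have hZ : 0 ≤ Z := (sum_nonneg fun _ _ => by positivity).trans hBig
  have hX := XX_nonneg n T b U u
  obtain ⟨d1, d2, d3, d4, d5, d6⟩ := h1 n M T g b U u Y S Z hn hT1 hg hb.1 hU hu hYS hBig
  obtain ⟨e1, e2⟩ := h2 n T g b U Z hn hT hb.1 hU hBig
  have f1 := h3 n M T g b Δ U u Y S hn hT hg hb hD6 hu hYS
  have hsq' : ∀ t : ℤ, ‖DP (n ^ 2) (sqc n b) t‖ ^ 2 = ‖DP n b t‖ ^ 4 := fun t => by
    rw [hsq, norm_pow]
    ring
  have key := hS (n ^ 2) M (sqc n b) (Io (2 * T)) (ww n T b U u) (mm n T g b U) E (4 * S)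
    (2 * Δ ^ 2 * (n : ℝ) ^ 2) _ (U * XX n T b U u)
    (3 * (U * XX n T b U u + u ^ 2 * Y + U ^ 2 * Y + (4 * (n : ℝ) ^ 2 / g) ^ 2 * Z))
    (XX n T b U u) hn2 hE (by linarith) (by positivity) hHE hH
    (fun _ ht => ww_nonneg b U u ht) (by simp only [hsq']; rfl) d4 f1
    (by simp only [hsq']; exact d5) (by simp only [hsq']; exact d6)
  rcases key with key | key | key
  · exact Or.inl (alt1_Core6 (by linarith) (by positivity) key)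
  · exact Or.inr (Or.inl (alt2_Core6 (by linarith) (by positivity) (by positivity)
      (by positivity) hZ key))
  · have hQ' := hQ (n ^ 2) M Δ (4 * Y) _ _ T (Io (2 * T)) (ww n T b U u) (mm n T g b U) hn2 hDM
      hTr (by linarith) d2 e1 e2
    rw [Nat.cast_pow] at hQ'
    exact Or.inr (Or.inr (alt3_Core6 hCQ hC2 (by linarith) (by linarith) (Nat.cast_nonneg M) hTr
      hE hS0 hY (by positivity) (by positivity) (by positivity) d3 hQ' key))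

end Pool.Agent.MP_2a1f0e_nt.SQ
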