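import Pool.Agent.MP_2a1f0e_nt.SQ.Defs

set_option autoImplicit false

open Finset

namespace Pool.Agent.MP_2a1f0e_nt.SQ

open GM GM2

lemma ww_DOne {n T : ℕ} (b : ℕ → ℂ) {U u : ℝ} (hU : 0 < U) (hu : 0 < u) (t : ℤ) :
    ww n T b U u t ≤ ‖DP n b t‖ ^ 2 ∧ ww n T b U u t ≤ U ∧
      ww n T b U u t ≤ (‖DP n b t‖ ^ 2) ^ 2 / u := by
  have h1 := nu_le n T b t
  unfold ww
  split_ifs with h
  · refine ⟨h1, h1.trans h.1, ?_⟩
    rw [le_div_iff₀ hu]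
    nlinarith [h.2]
  · exact ⟨sq_nonneg _, hU.le, by positivity⟩

lemma ll_DOne {n T : ℕ} (b : ℕ → ℂ) (U : ℝ) {u : ℝ} {t : ℤ} (ht : t ∈ Io (2 * T)) :
    ll n T b U u t ^ 2 ≤ u ^ 2 := by
  unfold ll
  split_ifs with h
  · exact pow_le_pow_left₀ (nu_nonneg b ht) h.2 2
  · simpa using sq_nonneg u

lemma la_DOne {n T : ℕ} (b : ℕ → ℂ) (U : ℝ) {t : ℤ} (ht : t ∈ Io (2 * T)) :
    la n T b U t ^ 2 ≤ (‖DP n b t‖ ^ 2) ^ 2 := by
  unfold la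
  split_ifs with h
  · exact pow_le_pow_left₀ (nu_nonneg b ht) (nu_le n T b t) 2
  · simp

lemma wP_DOne {L : ℕ} (P : Finset (ℕ × ℕ)) (b : ℕ → ℂ) {t : ℤ} (ht : t ∈ Io L) :
    wP L P b t ^ 2 ≤ ‖FP P b t‖ ^ 2 := by
  rw [← sq_abs]
  exact pow_le_pow_left₀ (abs_nonneg _) (abs_wP_le P b ht) 2

lemma mm_DOne {n T : ℕ} (hn : 1 ≤ n) (g : ℕ) (b : ℕ → ℂ) (U : ℝ) {t : ℤ} (ht : t ∈ Io (2 * T)) :
    mm n T g b U t ^ 2 ≤ 2 * ‖FP (Plo n g) b t‖ ^ 2 + 2 * ‖FP (Pr n) b t‖ ^ 2 := by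
  rw [norm_FP_Pr hn, mm]
  nlinarith [wP_DOne (Plo n g) b ht, la_DOne (n := n) b U ht,
    sq_nonneg (wP (2 * T) (Plo n g) b t + la n T b U t)]

lemma six_DOne {n T : ℕ} (hn : 1 ≤ n) (g : ℕ) {b : ℕ → ℂ} (hb : ∀ a, ‖b a‖ ≤ 1) {U u c : ℝ}
    (hU : 0 < U) (hu : 0 < u) (hc : ((Phi n g).card : ℝ) ≤ c) {t : ℤ} (ht : t ∈ Io (2 * T)) :
    mm n T g b U t ^ 2 * ‖DP n b t‖ ^ 4 ≤ 3 * (U * (ww n T b U u t * ‖DP n b t‖ ^ 4) +
      u ^ 2 * ‖FP (Pr n) b t‖ ^ 2 + U ^ 2 * ‖FP (Phi n g) b t‖ ^ 2 +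
      c ^ 2 * if U < ‖DP n b t‖ ^ 2 then ‖DP n b t‖ ^ 4 else 0) := by
  have e4 : ‖DP n b t‖ ^ 4 = (‖DP n b t‖ ^ 2) ^ 2 := by ring
  have h0 : 0 ≤ ‖DP n b t‖ ^ 2 := sq_nonneg _
  have h1 := mm_sub_ww hn T g b U u t
  have h2 := ww_nonneg (n := n) b U u ht
  have h3 := (ww_DOne (n := n) (T := T) b hU hu t).2.1
  have h4 := ll_DOne (n := n) b U (u := u) ht
  have h5 := wP_DOne (Phi n g) b ht
  have h6 : ‖FP (Phi n g) b t‖ ^ 2 ≤ c ^ 2 :=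
    pow_le_pow_left₀ (norm_nonneg _) ((norm_FP_le _ hb _).trans hc) 2
  have h7 : 0 ≤ ‖FP (Phi n g) b t‖ ^ 2 := sq_nonneg _
  rw [norm_FP_Pr hn, e4]
  generalize ‖DP n b t‖ ^ 2 = d at *
  generalize ‖FP (Phi n g) b t‖ ^ 2 = F at *
  generalize mm n T g b U t = m at *
  generalize ww n T b U u t = w at *
  generalize ll n T b U u t = l at *
  generalize wP (2 * T) (Phi n g) b t = G at *
  have k1 : m ^ 2 ≤ 3 * (U * w + u ^ 2 + F) := by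
    rw [show m = w + l - G by linarith]
    nlinarith [sq_nonneg (w - l), sq_nonneg (w + G), sq_nonneg (l + G),
      mul_le_mul_of_nonneg_right h3 h2]
  have k2 : F * d ^ 2 ≤ U ^ 2 * F + c ^ 2 * if U < d then d ^ 2 else 0 := by
    split_ifs with h
    · nlinarith [mul_le_mul_of_nonneg_right h6 (sq_nonneg d), mul_nonneg (sq_nonneg U) h7]
    · nlinarith [mul_le_mul_of_nonneg_left (pow_le_pow_left₀ h0 (not_lt.1 h) 2) h7]
  nlinarith [mul_le_mul_of_nonneg_right k1 (sq_nonneg d)]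

theorem d1_stmt (hC : CardStmt) : D1Stmt := by
  intro n M T g b U u Y S Z hn _ hg hb hU hu hY hZ
  obtain ⟨y1, s1⟩ := hY (Pr n) subset_rfl
  obtain ⟨y2, s2⟩ := hY (Plo n g) (Plo_sub n g)
  obtain ⟨y3, -⟩ := hY (Phi n g) (Phi_sub n g)
  refine ⟨le_trans (sum_le_sum fun t ht => ?_) y1, ?_, ?_, fun a ha => ?_, ?_, ?_⟩
  · rw [norm_FP_Pr hn]
    exact pow_le_pow_left₀ (ww_nonneg b U u ht) (ww_DOne b hU hu t).1 2
  · have h := sum_le_sum fun t (ht : t ∈ Io (2 * T)) => mm_DOne hn g b U ht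
    rw [sum_add_distrib, ← mul_sum, ← mul_sum] at h
    linarith
  · refine le_trans ?_ (div_le_div_of_nonneg_right y1 hu.le)
    rw [sum_div]
    refine sum_le_sum fun t _ => ?_
    rw [norm_FP_Pr hn]
    exact (ww_DOne b hU hu t).2.2
  · have h := sum_le_sum fun t (ht : t ∈ Io (2 * T)) =>
      mul_le_mul_of_nonneg_right (mm_DOne hn g b U ht) (sq_nonneg ‖Kb (n ^ 2) M ((a : ℝ) - t)‖)
    simp only [add_mul, mul_assoc] at h
    rw [sum_add_distrib, ← mul_sum, ← mul_sum] at h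
    linarith [s1 a ha, s2 a ha]
  · rw [XX, mul_sum]
    refine sum_le_sum fun t ht => ?_
    rw [← mul_assoc, sq]
    exact mul_le_mul_of_nonneg_right (mul_le_mul_of_nonneg_right (ww_DOne b hU hu t).2.1
      (ww_nonneg b U u ht)) (by positivity)
  · have h := sum_le_sum fun t (ht : t ∈ Io (2 * T)) => six_DOne hn g hb hU hu (hC n g hn hg) ht
    rw [← mul_sum, sum_add_distrib, sum_add_distrib, sum_add_distrib, ← mul_sum, ← mul_sum,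
      ← mul_sum, ← mul_sum, ← sum_filter] at h
    have k1 := mul_le_mul_of_nonneg_left y1 (sq_nonneg u)
    have k2 := mul_le_mul_of_nonneg_left y3 (sq_nonneg U)
    have k3 := mul_le_mul_of_nonneg_left hZ (sq_nonneg (4 * (n : ℝ) ^ 2 / g))
    unfold XX
    linarith

end Pool.Agent.MP_2a1f0e_nt.SQ
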