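import Pool.Agent.MP_2a1f0e_nt.SQ.Defs
import Pool.Agent.MP_2a1f0e_nt.GM.QSt
import Pool.Agent.MP_2a1f0e_nt.GM2.Err
set_option autoImplicit false
open Finset
namespace Pool.Agent.MP_2a1f0e_nt.SQ
open GM GM2

lemma la_abs_DTwo {n T : ℕ} {b : ℕ → ℂ} {U Z : ℝ} (hU : 0 < U) (hB : Big n T b U Z) :
    ∑ t ∈ Io (2 * T), |la n T b U t| ≤ Z / U := by
  rw [le_div_iff₀ hU, sum_mul]
  refine le_trans ?_ hB
  rw [sum_filter]
  refine sum_le_sum fun t ht => ?_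
  unfold la
  split_ifs with h
  · have h1 := nu_nonneg (n := n) b ht
    have h2 := nu_le n T b t
    rw [abs_of_nonneg h1, show ‖DP n b t‖ ^ 4 = ‖DP n b t‖ ^ 2 * ‖DP n b t‖ ^ 2 by ring]
    exact mul_le_mul h2 h.le hU.le (sq_nonneg _)
  · simp

lemma la_sq_DTwo {n T : ℕ} {b : ℕ → ℂ} {U Z : ℝ} (hB : Big n T b U Z) :
    ∑ t ∈ Io (2 * T), la n T b U t ^ 2 ≤ Z := by
  refine le_trans ?_ hB
  rw [sum_filter]
  refine sum_le_sum fun t ht => ?_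
  unfold la
  split_ifs with h
  · have h1 := nu_nonneg (n := n) b ht
    have h2 := nu_le n T b t
    rw [show ‖DP n b t‖ ^ 4 = (‖DP n b t‖ ^ 2) ^ 2 by ring]
    exact pow_le_pow_left₀ h1 h2 2
  · simp

lemma ratio_DTwo {n : ℕ} (hn : 1 ≤ n) {p : ℕ × ℕ} (hp : p ∈ Pr n) :
    1 / 2 ≤ (p.1 : ℝ) / p.2 ∧ (p.1 : ℝ) / p.2 ≤ 2 := by
  obtain ⟨⟨h1, h2⟩, h3, h4⟩ := mem_Pr.1 hp
  have a0 : (0 : ℝ) < p.2 := by exact_mod_cast (by omega : 0 < p.2)
  have a1 : (p.2 : ℝ) ≤ 2 * p.1 := by exact_mod_cast (by omega : p.2 ≤ 2 * p.1)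
  have a2 : (p.1 : ℝ) ≤ 2 * p.2 := by exact_mod_cast (by omega : p.1 ≤ 2 * p.2)
  rw [le_div_iff₀ a0, div_le_iff₀ a0]
  constructor <;> linarith

lemma contFe_DTwo (L : ℕ) {r : ℝ} (hr : 0 < r) :
    ContinuousOn (fun v => Fe L (v * r)) (Set.Icc (1 / 9 : ℝ) (82 / 9)) :=
  (continuousOn_Fe L).comp (continuousOn_id.mul continuousOn_const)
    fun _ hv => mul_pos (Icc_sub_Ioi hv) hr

theorem d2_stmt (hF : FtStmt) (hS : SupStmt) (hL : LoneStmt) (hPar : ParStmt) : D2Stmt := by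
  obtain ⟨CS, hCS, hS⟩ := hS
  obtain ⟨CL, hCL, hL⟩ := hL
  refine ⟨2 * CS + 4 * CL + 24, by positivity, fun n T g b U Z hn hT hb hU hB => ?_⟩
  have hT1 : 1 ≤ 2 * T := by
    have := Nat.one_le_pow 2 n hn
    omega
  have hZ : 0 ≤ Z := le_trans (sum_nonneg fun _ _ => by positivity) hB
  have key : ∀ v ∈ Set.Icc (1 / 9 : ℝ) (82 / 9), ‖FT (Io (2 * T)) (mm n T g b U) v‖ ≤
      1 * (∑ p ∈ Plo n g, Fe (2 * T) (v * ((p.1 : ℝ) / p.2))) +
        1 * ‖FT (Io (2 * T)) (la n T b U) v‖ := by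
    intro v hv
    have h1 : FT (Io (2 * T)) (mm n T g b U) v =
        FT (Io (2 * T)) (wP (2 * T) (Plo n g) b) v - FT (Io (2 * T)) (la n T b U) v :=
      FT_sub_Err _ _ _ v
    have h2 := hF (2 * T) (Plo n g) b v hT1 swap_Plo (pos_Pr hn (Plo_sub n g)) hb (Icc_sub_Ioi hv)
    rw [h1]
    linarith [norm_sub_le (FT (Io (2 * T)) (wP (2 * T) (Plo n g) b) v)
      (FT (Io (2 * T)) (la n T b U) v)]
  constructor
  · intro v hv
    have h1 := key v hv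
    have h2 := hS n g (2 * T) hn (by omega) v hv
    have h3 := (norm_FT_le (Io (2 * T)) (la n T b U) v).trans (la_abs_DTwo hU hB)
    have h4 : 0 ≤ Z / U := by positivity
    have h5 : 0 ≤ (T : ℝ) * g := by positivity
    push_cast at h2
    have h6 : 0 ≤ (4 * CL + 24) * ((T : ℝ) * g) := by positivity
    have h7 : 0 ≤ (2 * CS + 4 * CL + 23) * (Z / U) := by positivity
    nlinarith
  · have c1 : ∀ p ∈ Plo n g, ContinuousOn (fun v => Fe (2 * T) (v * ((p.1 : ℝ) / p.2)))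
        (Set.Icc (1 / 9 : ℝ) (82 / 9)) := fun p hp =>
      contFe_DTwo _ (lt_of_lt_of_le (by norm_num) (ratio_DTwo hn (Plo_sub n g hp)).1)
    have c2 : ContinuousOn (fun v => ∑ p ∈ Plo n g, Fe (2 * T) (v * ((p.1 : ℝ) / p.2)))
        (Set.Icc (1 / 9 : ℝ) (82 / 9)) := continuousOn_finsetSum _ c1
    have c3 := ((continuousOn_FT (Io (2 * T)) (la n T b U)).mono Icc_sub_Ioi).norm
    have c4 := ((continuousOn_FT (Io (2 * T)) (mm n T g b U)).mono Icc_sub_Ioi).norm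
    have h1 := (II_mono c4 ((continuousOn_const.mul c2).add (continuousOn_const.mul c3))
      key).trans (II_lin_QSt c2 c3 1 1).le
    have h2 : II (fun v => ∑ p ∈ Plo n g, Fe (2 * T) (v * ((p.1 : ℝ) / p.2))) =
        ∑ p ∈ Plo n g, II (fun v => Fe (2 * T) (v * ((p.1 : ℝ) / p.2))) :=
      intervalIntegral.integral_finsetSum fun p hp =>
        (c1 p hp).intervalIntegrable_of_Icc (by norm_num)
    have h3 : ∑ p ∈ Plo n g, II (fun v => Fe (2 * T) (v * ((p.1 : ℝ) / p.2))) ≤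
        ((Plo n g).card : ℝ) * CL := by
      rw [← nsmul_eq_mul]
      exact sum_le_card_nsmul _ _ _ fun p hp =>
        hL _ _ hT1 (ratio_DTwo hn (Plo_sub n g hp)).1 (ratio_DTwo hn (Plo_sub n g hp)).2
    have h4 : ((Plo n g).card : ℝ) ≤ 4 * (n : ℝ) ^ 2 :=
      le_trans (by exact_mod_cast card_le_card (Plo_sub n g)) (card_Pr hn)
    have h5 := mul_le_mul_of_nonneg_right h4 hCL.le
    have h6 := II_cs_QSt c3
    have h7 := hPar (Io (2 * T)) (la n T b U)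
    have h8 := la_sq_DTwo hB
    have h9 : II (fun v => ‖FT (Io (2 * T)) (la n T b U) v‖) ≤ 24 * √Z := by
      refine le_of_sq_le_sq ?_ (by positivity)
      rw [mul_pow, Real.sq_sqrt hZ]
      linarith
    have h10 : 0 ≤ (2 * CS + 24) * (n : ℝ) ^ 2 := by positivity
    have h11 : 0 ≤ (2 * CS + 4 * CL) * √Z := by positivity
    nlinarith

lemma al_sub_DTwo (N : ℕ) (β : ℕ → ℂ) (s : Finset ℤ) (f g : ℤ → ℝ) :
    (al N β s fun t => f t - g t) = fun k => al N β s f k - al N β s g k := by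
  funext k
  unfold al
  rw [← sum_sub_distrib]
  refine sum_congr rfl fun t _ => ?_
  push_cast
  ring

lemma ll_sq_DTwo {n T : ℕ} (b : ℕ → ℂ) (U : ℝ) {u : ℝ} {t : ℤ} (ht : t ∈ Io (2 * T)) :
    ll n T b U u t ^ 2 ≤ u ^ 2 := by
  unfold ll
  split_ifs with h
  · exact pow_le_pow_left₀ (nu_nonneg b ht) h.2 2
  · simpa using sq_nonneg u

theorem d3_stmt (hF : FtStmt) (hR : RowStmt) (hS : SchStmt) (hD : DualStmt) (hQ : SqcStmt) :
    D3Stmt := by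
  obtain ⟨CR, hCR, hR⟩ := hR
  obtain ⟨CD, hCD, hD⟩ := hD
  refine ⟨4 * CD + 16 * CR ^ 2, by positivity,
    fun n M T g b Δ U u Y S hn hT hg hb hΔ hu hY => ?_⟩
  have hn2 : 1 ≤ n ^ 2 := Nat.one_le_pow 2 n hn
  have hT1 : 1 ≤ 2 * T := by omega
  have h23 : 2 * n ^ 2 ≤ 6 * n ^ 3 := by
    have : n ^ 2 ≤ n ^ 3 := Nat.pow_le_pow_right hn (by norm_num)
    omega
  obtain ⟨q1, -, q3⟩ := hQ n b Δ hn hb (GM2.DivB_mono hΔ h23)
  have hY1 := (hY (Pr n) Subset.rfl).1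
  have hY0 : 0 ≤ Y := le_trans (sum_nonneg fun _ _ => by positivity) hY1
  have e : (fun t => mm n T g b U t - ww n T b U u t) =
      fun t => ll n T b U u t - wP (2 * T) (Phi n g) b t := funext (mm_sub_ww hn T g b U u)
  rw [e, al_sub_DTwo]
  refine (NW_sub_le _ _ _).trans ?_
  have h1 : NW (n ^ 2) (al (n ^ 2) (sqc n b) (Io (2 * T)) (ll n T b U u)) ≤
      CD * ((2 * T : ℕ) : ℝ) *
        ∑ t ∈ Io (2 * T), ‖(ll n T b U u t : ℂ) * DP (n ^ 2) (sqc n b) t‖ ^ 2 :=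
    hD (n ^ 2) (2 * T) (fun t => (ll n T b U u t : ℂ) * DP (n ^ 2) (sqc n b) t) hn2 (by omega)
  have h2 : ∑ t ∈ Io (2 * T), ‖(ll n T b U u t : ℂ) * DP (n ^ 2) (sqc n b) t‖ ^ 2 ≤
      u ^ 2 * Y := by
    refine le_trans ?_ (mul_le_mul_of_nonneg_left hY1 (sq_nonneg u))
    rw [mul_sum]
    refine sum_le_sum fun t ht => ?_
    rw [q1, norm_mul, norm_pow, norm_FP_Pr hn, mul_pow, Complex.norm_real, Real.norm_eq_abs,
      sq_abs]
    exact mul_le_mul_of_nonneg_right (ll_sq_DTwo b U ht) (by positivity)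
  have h3 := hS (n ^ 2) (sqc n b) (Io (2 * T)) (wP (2 * T) (Phi n g) b)
    (CR * Δ ^ 2 * (((2 * T : ℕ) : ℝ) * n + (n : ℝ) ^ 4 / g)) hn2 fun k hk => by
      refine le_trans (sum_le_sum fun j hj => ?_) (hR n g (2 * T) Δ hn hg hT1 hΔ k hk)
      refine hF (2 * T) (Phi n g) b _ hT1 swap_Phi (pos_Pr hn (Phi_sub n g)) hb.1 ?_
      have a1 : (0 : ℝ) < j := by exact_mod_cast (mem_Rg.1 hj).1.1
      have a2 : (0 : ℝ) < k := by exact_mod_cast (mem_Rg.1 hk).1.1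
      positivity
  have h4 := h3.trans (mul_le_mul_of_nonneg_left q3 (sq_nonneg _))
  have h5 := h1.trans (mul_le_mul_of_nonneg_left h2 (by positivity))
  push_cast at h4 h5
  have hT0 : (0 : ℝ) ≤ T := Nat.cast_nonneg T
  have hn0 : (0 : ℝ) ≤ n := Nat.cast_nonneg n
  have hq : (0 : ℝ) ≤ (n : ℝ) ^ 4 / g := by positivity
  generalize (n : ℝ) ^ 4 / g = q at *
  have h6 : (2 * T * n + q) ^ 2 ≤ (2 * ((T : ℝ) * n + q)) ^ 2 :=
    pow_le_pow_left₀ (by positivity) (by linarith) 2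
  have h7 := mul_le_mul_of_nonneg_left h6
    (by positivity : (0 : ℝ) ≤ 2 * CR ^ 2 * Δ ^ 6 * (n : ℝ) ^ 2)
  have h8 : 0 ≤ 16 * CR ^ 2 * (T * u ^ 2 * Y) := by positivity
  have h9 : 0 ≤ 4 * CD * (Δ ^ 6 * (n : ℝ) ^ 2 * (T * n + q) ^ 2) := by positivity
  nlinarith

end Pool.Agent.MP_2a1f0e_nt.SQ
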