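import Pool.Agent.MP_2a1f0e_nt.SQ.Defs
import Pool.Agent.MP_2a1f0e_nt.GM.Pt

set_option autoImplicit false

open Finset

namespace Pool.Agent.MP_2a1f0e_nt.SQ

open GM GM2

lemma log_le_Fe {x y : ℝ} (hx : 0 < x) (hy : 0 < y) (h : x ≤ 20 * y) :
    Real.log x - Real.log y ≤ 3 := by
  rw [← Real.log_div hx.ne' hy.ne', Real.log_le_iff_le_exp (by positivity), div_le_iff₀ hy]
  have h1 : Real.exp 3 = Real.exp 1 ^ 3 := by
    rw [← Real.exp_nat_mul]
    norm_num
  have h2 : (2.7182818283 : ℝ) ^ 3 ≤ Real.exp 1 ^ 3 :=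
    pow_le_pow_left₀ (by norm_num) Real.exp_one_gt_d9.le 3
  have h3 : (20 : ℝ) ≤ Real.exp 3 := by
    rw [h1]
    exact le_trans (by norm_num) h2
  nlinarith

theorem fe_stmt : FeStmt := by
  intro L x y Z hL hx hy hxZ hyZ h1 h2
  have hL' : (0 : ℝ) < L := by exact_mod_cast hL
  have hZ : 0 < Z := hx.trans_le hxZ
  have hpi := Real.pi_pos
  have a1 := log_le_Fe hx hy h1
  have a2 := log_le_Fe hy hx h2
  have a3 : |Real.log x - Real.log y| ≤ 3 := abs_le.2 ⟨by linarith, a1⟩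
  have a4 : |(Real.log x - Real.log y) / (2 * Real.pi)| ≤ 1 / 2 := by
    rw [abs_div, abs_of_pos (by positivity : (0 : ℝ) < 2 * Real.pi), div_le_iff₀ (by positivity)]
    linarith [Real.pi_gt_three]
  have a5 := gs_sq_le L a4
  have e : 2 * (L : ℝ) * ((Real.log x - Real.log y) / (2 * Real.pi)) =
      Real.pi⁻¹ * (L * (Real.log x - Real.log y)) := by
    field_simp
  have a6 := kp_mul_le (c := Real.pi⁻¹) (A := Real.pi) (by linarith [Real.pi_gt_three])
    (by rw [abs_of_pos (by positivity), mul_inv_cancel₀ hpi.ne']) (L * (Real.log x - Real.log y))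
  have a7 : kp (L * (Real.log x - Real.log y)) ≤ kp (L * (x - y) / Z) := by
    apply kp_anti
    rw [← sq_abs, ← sq_abs (_ * (Real.log x - _))]
    apply pow_le_pow_left₀ (abs_nonneg _)
    rw [mul_div_assoc, abs_mul, abs_mul, abs_div, abs_of_pos hZ]
    exact mul_le_mul_of_nonneg_left (abs_sub_div_le_log hx hy hxZ hyZ) (abs_nonneg _)
  have a8 : Real.pi ^ 2 ≤ 10 := by nlinarith [Real.pi_lt_d2]
  have a9 := mul_le_mul a8 a7 (kp_pos _).le (by norm_num)
  rw [e] at a5
  rw [Fe, Real.log_div hx.ne' hy.ne', div_le_iff₀ hL']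
  have a10 := mul_le_mul_of_nonneg_left (a6.trans a9) (by positivity : (0 : ℝ) ≤ 2 * (L : ℝ) ^ 2)
  linarith

lemma conj_FP_Fe {P : Finset (ℕ × ℕ)} (hP : ∀ p ∈ P, p.swap ∈ P) (b : ℕ → ℂ) (t : ℝ) :
    (starRingEnd ℂ) (FP P b t) = FP P b t := by
  unfold FP
  rw [map_sum]
  refine sum_nbij' Prod.swap Prod.swap hP hP (fun p _ => Prod.swap_swap p)
    (fun p _ => Prod.swap_swap p) fun p _ => ?_
  rw [map_mul, map_mul, conj_pw, ← pw_inv, inv_div, Complex.conj_conj, Prod.fst_swap,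
    Prod.snd_swap]
  ring

theorem ft_stmt (hT : TriangStmt) : FtStmt := by
  intro L P b v _ hP h1 hb hv
  have e : FT (Io L) (wP L P b) v =
      ∑ p ∈ P, b p.1 * (starRingEnd ℂ) (b p.2) * (Fe L (v * ((p.1 : ℝ) / p.2)) : ℂ) := by
    simp only [← FT_tri hT]
    unfold FT wP
    simp only [Complex.ofReal_mul, Complex.conj_eq_iff_re.1 (conj_FP_Fe hP b _)]
    unfold FP
    simp only [mul_sum, sum_mul]
    rw [sum_comm]
    refine sum_congr rfl fun p hp => sum_congr rfl fun t _ => ?_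
    have q1 : (0 : ℝ) < p.1 := by exact_mod_cast (h1 p hp).1
    have q2 : (0 : ℝ) < p.2 := by exact_mod_cast (h1 p hp).2
    rw [pw_mul hv.ne' (div_pos q1 q2).ne']
    ring
  rw [e]
  refine (norm_sum_le _ _).trans (sum_le_sum fun p _ => ?_)
  rw [norm_mul, norm_mul, Complex.norm_conj, Complex.norm_real,
    Real.norm_of_nonneg (Fe_nonneg _ _)]
  exact mul_le_of_le_one_left (Fe_nonneg _ _) (mul_le_one₀ (hb _) (norm_nonneg _) (hb _))

lemma int_kp_Fe {a b : ℝ} (hab : a ≤ b) : ∫ x in a..b, kp x ≤ Real.pi := by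
  rw [intervalIntegral.integral_of_le hab, ← DH.integral_kp]
  exact MeasureTheory.setIntegral_le_integral DH.integrable_kp
    (MeasureTheory.ae_of_all _ fun x => (kp_pos x).le)

theorem lone_stmt (hF : FeStmt) : LoneStmt := by
  refine ⟨200 * Real.pi, by have := Real.pi_pos; positivity, fun L r hL h1 h2 => ?_⟩
  have hL' : (0 : ℝ) < L := by exact_mod_cast hL
  have hr : 0 < r := by linarith
  have b1 : r⁻¹ ≤ 2 := by
    rw [inv_le_comm₀ hr (by norm_num)]
    linarith
  have b2 : 1 / 2 ≤ r⁻¹ := by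
    rw [le_inv_comm₀ (by norm_num) hr]
    linarith
  have hc : (0 : ℝ) < L / 10 := by positivity
  have c1 : ContinuousOn (fun v => Fe L (v * r)) (Set.Icc (1 / 9 : ℝ) (82 / 9)) :=
    (continuousOn_Fe L).comp (continuousOn_id.mul continuousOn_const) fun v hv =>
      mul_pos (Icc_sub_Ioi hv) hr
  have c2 : Continuous fun v : ℝ => 20 * (L : ℝ) * kp (L / 10 * v + -(L / 10 * r⁻¹)) :=
    continuous_const.mul (continuous_kp.comp (by fun_prop))
  refine (II_mono c1 c2.continuousOn fun v hv => ?_).trans ?_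
  · have := hF L v r⁻¹ 10 hL (Icc_sub_Ioi hv) (inv_pos.2 hr) (by linarith [hv.2]) (by linarith)
      (by linarith [hv.2]) (by linarith [hv.1])
    rw [div_inv_eq_mul] at this
    refine this.trans_eq ?_
    congr 2
    ring
  · unfold II
    rw [intervalIntegral.integral_const_mul,
      intervalIntegral.integral_comp_mul_add kp hc.ne', smul_eq_mul]
    have := int_kp_Fe (a := L / 10 * (1 / 9) + -(L / 10 * r⁻¹))
      (b := L / 10 * (82 / 9) + -(L / 10 * r⁻¹)) (by linarith)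
    calc _ ≤ 20 * (L : ℝ) * (((L : ℝ) / 10)⁻¹ * Real.pi) := by gcongr
      _ = _ := by
        field_simp
        norm_num

end Pool.Agent.MP_2a1f0e_nt.SQ
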