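import Pool.Agent.MP_2a1f0e_nt.SQ.Defs
import Pool.Agent.MP_2a1f0e_nt.DH.Pow

set_option autoImplicit false

open Finset

namespace Pool.Agent.MP_2a1f0e_nt.SQ

open GM GM2

lemma pc_Hi9 (k j N : ℕ) (hj : j ≤ k) {δ : ℝ} (hδ : 0 < δ) :
    ((2 ^ j * N ^ k : ℕ) : ℝ) ^ δ ≤ ((2 : ℝ) ^ δ) ^ k * ((N : ℝ) ^ δ) ^ k := by
  have h1 : ((2 ^ j * N ^ k : ℕ) : ℝ) ≤ 2 ^ k * (N : ℝ) ^ k := by
    push_cast
    exact mul_le_mul_of_nonneg_right (pow_le_pow_right₀ one_le_two hj) (by positivity)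
  refine (Real.rpow_le_rpow (Nat.cast_nonneg _) h1 hδ.le).trans_eq ?_
  rw [Real.mul_rpow (by positivity) (by positivity), Real.rpow_pow_comm (by positivity),
    Real.rpow_pow_comm (by positivity)]

lemma split_Hi9 (k : ℕ) {δ : ℝ} (hδ : 0 < δ) : ∃ C : ℝ, 1 ≤ C ∧ ∀ N : ℕ, 1 ≤ N → ∀ V : ℝ, 0 < V →
    ∀ b : ℕ → ℂ, (∀ n, ‖b n‖ ≤ 1) → ∃ c : ℕ → ℕ → ℂ, (∀ j n, ‖c j n‖ ≤ 1) ∧ ∀ T,
      DH.cnt N b T V ≤ ∑ j ∈ range (k + 1), DH.cnt (2 ^ j * N ^ k) (c j) T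
        (V ^ k / ((k + 1) * (C * ((N : ℝ) ^ δ) ^ (k * k)))) := by
  obtain ⟨c0, hc0, hdiv⟩ := DH.exists_DivB hδ
  have h2 : (1 : ℝ) ≤ (2 : ℝ) ^ δ := Real.one_le_rpow one_le_two hδ.le
  have hC : 1 ≤ (c0 * ((2 : ℝ) ^ δ) ^ k) ^ k :=
    one_le_pow₀ (one_le_mul_of_one_le_of_one_le hc0 (one_le_pow₀ h2))
  refine ⟨(c0 * ((2 : ℝ) ^ δ) ^ k) ^ k, hC, fun N hN V hV b hb => ?_⟩
  have hN0 : (0 : ℝ) < N := by exact_mod_cast hN
  obtain ⟨d1, d2⟩ := hdiv (2 ^ k * N ^ k) (Nat.succ_le_of_lt (by positivity))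
  refine DH.split_Pow hN b k (by positivity) hV fun n => ?_
  by_cases hn : n ≤ 2 ^ k * N ^ k
  · refine (tr_pow_norm N b k n).trans ((tr_pow_le N b hb d1 d2 k n hn).trans ?_)
    refine (pow_le_pow_left₀ (by linarith) (mul_le_mul_of_nonneg_left (pc_Hi9 k k N le_rfl hδ)
      (by linarith)) k).trans_eq ?_
    rw [← mul_assoc, mul_pow _ (((N : ℝ) ^ δ) ^ k), ← pow_mul]
  · rw [tr_pow_supp N b k n fun h => hn ((mem_Icc.1 h).2.trans_eq (mul_pow 2 N k)), norm_zero]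
    positivity

lemma sum_Hi9 {k a : ℕ} {f : ℕ → ℕ} {B : ℝ} (h : a ≤ ∑ j ∈ range (k + 1), f j)
    (hf : ∀ j ≤ k, (f j : ℝ) ≤ B) : (a : ℝ) ≤ (k + 1) * B := by
  refine le_trans (Nat.cast_le.2 h) ?_
  rw [Nat.cast_sum]
  refine (sum_le_card_nsmul _ _ B fun j hj => hf j (Nat.lt_succ_iff.1 (mem_range.1 hj))).trans_eq ?_
  rw [card_range, nsmul_eq_mul, Nat.cast_succ]

lemma main_Hi9 {k N T : ℕ} (hN : 1 ≤ N) (h : N ^ (8 * k) ≤ T ^ 9) {σ lam V : ℝ} (hσ : σ ≤ 1)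
    (hNV : (N : ℝ) ^ σ ≤ lam * V) :
    (N : ℝ) ^ (2 * k) ≤ lam ^ (2 * k) * V ^ (2 * k) * (T : ℝ) ^ (9 / 4 * (1 - σ)) := by
  have hN0 : (0 : ℝ) < N := by exact_mod_cast hN
  have hT0 : (0 : ℝ) ≤ T := Nat.cast_nonneg T
  have h1 : (N : ℝ) ^ (2 * k) ≤ (T : ℝ) ^ (9 / 4 : ℝ) := by
    refine le_of_pow_le_pow_left₀ (n := 4) (by norm_num) (by positivity) ?_
    rw [← pow_mul, ← Real.rpow_mul_natCast hT0,
      show (9 / 4 : ℝ) * ((4 : ℕ) : ℝ) = ((9 : ℕ) : ℝ) by norm_num, Real.rpow_natCast,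
      show 2 * k * 4 = 8 * k by ring]
    exact_mod_cast h
  have h2 : ((N : ℝ) ^ (2 * k)) ^ (1 - σ) ≤ (T : ℝ) ^ (9 / 4 * (1 - σ)) := by
    rw [Real.rpow_mul hT0]
    exact Real.rpow_le_rpow (by positivity) h1 (by linarith)
  have h3 : ((N : ℝ) ^ (2 * k)) ^ σ ≤ lam ^ (2 * k) * V ^ (2 * k) := by
    rw [← Real.rpow_pow_comm hN0.le, ← mul_pow]
    exact pow_le_pow_left₀ (by positivity) hNV _
  have h4 : (N : ℝ) ^ (2 * k) = ((N : ℝ) ^ (2 * k)) ^ σ * ((N : ℝ) ^ (2 * k)) ^ (1 - σ) := by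
    rw [← Real.rpow_add (by positivity), add_sub_cancel, Real.rpow_one]
  rw [h4]
  exact mul_le_mul h3 h2 (by positivity) (le_trans (by positivity) h3)

theorem mvk9_stmt (hM : MvStmt) : Mvk9Stmt := by
  intro k ε hk hε
  have hk0 : (0 : ℝ) < k := by exact_mod_cast hk
  obtain ⟨δ, hδ, hδε⟩ : ∃ δ : ℝ, 0 < δ ∧ δ * ((k + k * k * 2 : ℕ) : ℝ) = ε :=
    ⟨ε / ((k + k * k * 2 : ℕ) : ℝ), by positivity, by
      have : (0 : ℝ) < ((k + k * k * 2 : ℕ) : ℝ) := by push_cast; positivity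
      field_simp⟩
  obtain ⟨K, hK, hM⟩ := hM δ hδ
  obtain ⟨C, hC, hsp⟩ := split_Hi9 k hδ
  refine ⟨(k + 1) * (K * ((2 : ℝ) ^ δ) ^ k * (2 * (2 ^ k) ^ 2 * ((k + 1) * C) ^ 2)),
    by positivity, ?_⟩
  intro N T hN hT1 hT2 σ lam V hσ hlam hV hNV b hb
  obtain ⟨c, hc, hcnt⟩ := hsp N hN V hV b hb
  have hN0 : (0 : ℝ) < N := by exact_mod_cast hN
  have hm := main_Hi9 hN hT2 hσ hNV
  have hε' : (N : ℝ) ^ ε = ((N : ℝ) ^ δ) ^ (k + k * k * 2) := by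
    rw [← hδε, Real.rpow_mul_natCast hN0.le]
  obtain ⟨u, hu⟩ : ∃ u : ℝ, u = (N : ℝ) ^ δ := ⟨_, rfl⟩
  have hu0 : 0 < u := by rw [hu]; positivity
  obtain ⟨P, hP⟩ : ∃ P : ℝ, P = (T : ℝ) ^ (9 / 4 * (1 - σ)) := ⟨_, rfl⟩
  have hP0 : 0 ≤ P := by rw [hP]; positivity
  rw [hε', ← hu, ← hP]
  rw [← hu] at hcnt
  rw [← hP] at hm
  refine (sum_Hi9 (B := K * (((2 : ℝ) ^ δ) ^ k * u ^ k) * (2 * (2 ^ k) ^ 2 *
    (lam ^ (2 * k) * P) * ((k + 1) * (C * u ^ (k * k))) ^ 2)) (hcnt T)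
    fun j hj => ?_).trans_eq (by ring)
  have hM1 : 1 ≤ 2 ^ j * N ^ k := Nat.succ_le_of_lt (by positivity)
  refine (hM _ T _ (c j) hM1 (by positivity) (hc j)).1.trans ?_
  have a1 := pc_Hi9 k j N hj hδ
  rw [← hu] at a1
  have a2 : ((2 ^ j * N ^ k : ℕ) : ℝ) ≤ 2 ^ k * (N : ℝ) ^ k := by
    push_cast
    exact mul_le_mul_of_nonneg_right (pow_le_pow_right₀ one_le_two hj) (by positivity)
  have a3 : (T : ℝ) ≤ 2 ^ k * (N : ℝ) ^ k :=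
    le_trans (by exact_mod_cast hT1) (le_mul_of_one_le_left (by positivity)
      (one_le_pow₀ one_le_two))
  have a4 : ((T : ℝ) + ((2 ^ j * N ^ k : ℕ) : ℝ)) * ((2 ^ j * N ^ k : ℕ) : ℝ) ≤
      2 * (2 ^ k) ^ 2 * (lam ^ (2 * k) * V ^ (2 * k) * P) := by
    calc _ ≤ (2 ^ k * (N : ℝ) ^ k + 2 ^ k * (N : ℝ) ^ k) * (2 ^ k * (N : ℝ) ^ k) := by gcongr
      _ = 2 * (2 ^ k) ^ 2 * (N : ℝ) ^ (2 * k) := by ring
      _ ≤ _ := by gcongr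
  refine mul_le_mul (mul_le_mul_of_nonneg_left a1 hK.le) ?_ (by positivity) (by positivity)
  rw [div_le_iff₀ (by positivity)]
  refine a4.trans_eq ?_
  field_simp
  ring

theorem hi9_stmt (h1 : One9Stmt) : Hi9Stmt := by
  intro k ε hk hε
  have hk0 : (0 : ℝ) < k := by exact_mod_cast hk
  obtain ⟨δ, hδ, hδε⟩ : ∃ δ : ℝ, 0 < δ ∧ δ * ((k + k * k * 4 : ℕ) : ℝ) = ε :=
    ⟨ε / ((k + k * k * 4 : ℕ) : ℝ), by positivity, by
      have : (0 : ℝ) < ((k + k * k * 4 : ℕ) : ℝ) := by push_cast; positivity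
      field_simp⟩
  obtain ⟨K, hK, h1⟩ := h1 δ hδ
  obtain ⟨C, hC, hsp⟩ := split_Hi9 k hδ
  refine ⟨(k + 1) * (K * ((2 : ℝ) ^ δ) ^ k * (2 ^ k * (k + 1) * C) ^ 4 * (2 ^ k) ^ 2),
    by positivity, ?_⟩
  intro N T hN hT1 hT2 σ lam V hσ hσ1 hlam hV hNV b hb
  obtain ⟨c, hc, hcnt⟩ := hsp N hN V hV b hb
  have hN0 : (0 : ℝ) < N := by exact_mod_cast hN
  have hε' : (N : ℝ) ^ ε = ((N : ℝ) ^ δ) ^ (k + k * k * 4) := by
    rw [← hδε, Real.rpow_mul_natCast hN0.le]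
  obtain ⟨u, hu⟩ : ∃ u : ℝ, u = (N : ℝ) ^ δ := ⟨_, rfl⟩
  have hu1 : 1 ≤ u := by
    rw [hu]
    exact Real.one_le_rpow (by exact_mod_cast hN) hδ.le
  have hu0 : 0 < u := by linarith
  rw [hε', ← hu]
  rw [← hu] at hcnt
  obtain ⟨D, hD⟩ : ∃ D : ℝ, D = C * u ^ (k * k) := ⟨_, rfl⟩
  have hD1 : 1 ≤ D := hD ▸ one_le_mul_of_one_le_of_one_le hC (one_le_pow₀ hu1)
  rw [← hD] at hcnt
  have hlam' : 1 ≤ 2 ^ k * (k + 1) * D * lam ^ k :=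
    one_le_mul_of_one_le_of_one_le (one_le_mul_of_one_le_of_one_le
      (one_le_mul_of_one_le_of_one_le (one_le_pow₀ one_le_two)
        (le_add_of_nonneg_left (Nat.cast_nonneg k))) hD1) (one_le_pow₀ hlam)
  refine (sum_Hi9 (B := K * (((2 : ℝ) ^ δ) ^ k * u ^ k) * (2 ^ k * (k + 1) * D * lam ^ k) ^ 4 *
    ((2 ^ k) ^ 2 * (T : ℝ) ^ (9 / 4 * (1 - σ)))) (hcnt T) fun j hj => ?_).trans_eq
    (by rw [hD]; ring)
  have hM : 1 ≤ 2 ^ j * N ^ k := Nat.succ_le_of_lt (by positivity)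
  have b1 : max T (2 ^ j * N ^ k) ^ 5 ≤ (2 ^ j * N ^ k) ^ 6 := by
    rcases le_total T (2 ^ j * N ^ k) with h | h
    · rw [max_eq_right h]
      exact Nat.pow_le_pow_right hM (by norm_num)
    · rw [max_eq_left h]
      refine hT2.trans (le_trans ?_
        (Nat.pow_le_pow_left (Nat.le_mul_of_pos_left (N ^ k) (by positivity)) 6))
      rw [← pow_mul, mul_comm]
  have b2 : ((2 ^ j * N ^ k : ℕ) : ℝ) ^ σ ≤
      2 ^ k * (k + 1) * D * lam ^ k * (V ^ k / ((k + 1) * D)) := by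
    have a1 : ((2 : ℝ) ^ j) ^ σ ≤ 2 ^ k := by
      refine (Real.rpow_le_rpow_of_exponent_le (one_le_pow₀ one_le_two) hσ1).trans ?_
      rw [Real.rpow_one]
      exact pow_le_pow_right₀ one_le_two hj
    have a2 : ((N : ℝ) ^ k) ^ σ ≤ lam ^ k * V ^ k := by
      rw [← Real.rpow_pow_comm hN0.le, ← mul_pow]
      exact pow_le_pow_left₀ (by positivity) hNV k
    push_cast
    rw [Real.mul_rpow (by positivity) (by positivity)]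
    refine (mul_le_mul a1 a2 (by positivity) (by positivity)).trans_eq ?_
    field_simp
  refine le_trans (Nat.cast_le.2 (DH.cnt_mono _ _ (le_max_left T _) le_rfl))
    ((h1 _ _ hM (le_max_right _ _) b1 σ _ _ hσ hσ1 hlam' (by positivity) b2 _ (hc j)).trans ?_)
  have a1 := pc_Hi9 k j N hj hδ
  rw [← hu] at a1
  have a2 : ((max T (2 ^ j * N ^ k) : ℕ) : ℝ) ≤ 2 ^ k * (T : ℝ) := by
    have : max T (2 ^ j * N ^ k) ≤ 2 ^ k * T :=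
      max_le (Nat.le_mul_of_pos_left T (by positivity))
        (Nat.mul_le_mul (Nat.pow_le_pow_right two_pos hj) hT1)
    exact_mod_cast this
  have a3 : ((max T (2 ^ j * N ^ k) : ℕ) : ℝ) ^ (9 / 4 * (1 - σ)) ≤
      (2 ^ k) ^ 2 * (T : ℝ) ^ (9 / 4 * (1 - σ)) := by
    refine (Real.rpow_le_rpow (Nat.cast_nonneg _) a2 (by linarith)).trans ?_
    rw [Real.mul_rpow (by positivity) (Nat.cast_nonneg T)]
    refine mul_le_mul_of_nonneg_right ?_ (by positivity)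
    refine (Real.rpow_le_rpow_of_exponent_le (one_le_pow₀ one_le_two)
      (z := ((2 : ℕ) : ℝ)) (by push_cast; linarith)).trans_eq (Real.rpow_natCast _ 2)
  exact mul_le_mul (mul_le_mul_of_nonneg_right (mul_le_mul_of_nonneg_left a1 hK.le)
    (by positivity)) a3 (by positivity) (by positivity)

end Pool.Agent.MP_2a1f0e_nt.SQ
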