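import Pool.Agent.MP_2a1f0e_nt.SQ.Defs
import Pool.Agent.MP_2a1f0e_nt.DH.LV

set_option autoImplicit false

open Finset

namespace Pool.Agent.MP_2a1f0e_nt.SQ

open GM GM2

theorem int6_stmt (hB : B6Stmt) (hM : MvStmt) (hC : CutStmt) : Int6Stmt := by
  intro ε hε
  obtain ⟨KB, KB0, hB⟩ := hB ε hε
  obtain ⟨KM, KM0, hM⟩ := hM ε hε
  have f0 : (0 : ℝ) < 5 ^ ε := by positivity
  refine ⟨2 * KM + 3 * (KB * 5 ^ ε * 11390625), by positivity, fun n T V b hn hV hb => ?_⟩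
  have n1 : (1 : ℝ) ≤ n := by exact_mod_cast hn
  have e0 : 0 < (n : ℝ) ^ ε := by positivity
  have t0 : (0 : ℝ) ≤ T := Nat.cast_nonneg T
  have u0 : 0 ≤ (T : ℝ) ^ (3 / 4 : ℝ) := by positivity
  have P0 : 0 ≤ (n : ℝ) ^ 4 / V ^ 4 := by positivity
  have Q0 : 0 ≤ (T : ℝ) ^ (3 / 4 : ℝ) * (n : ℝ) ^ 4 / V ^ 6 := by positivity
  have R0 : 0 ≤ T * (n : ℝ) ^ 3 / V ^ 6 := by positivity
  rw [add_div]
  have fin : ∀ K W : ℝ, K ≤ 2 * KM + 3 * (KB * 5 ^ ε * 11390625) → 0 ≤ W →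
      W ≤ (n : ℝ) ^ 4 / V ^ 4 + ((T : ℝ) ^ (3 / 4 : ℝ) * (n : ℝ) ^ 4 / V ^ 6 +
        T * (n : ℝ) ^ 3 / V ^ 6) → (DH.cnt n b T V : ℝ) ≤ K * (n : ℝ) ^ ε * W →
      (DH.cnt n b T V : ℝ) ≤ (2 * KM + 3 * (KB * 5 ^ ε * 11390625)) * (n : ℝ) ^ ε *
        ((n : ℝ) ^ 4 / V ^ 4 + ((T : ℝ) ^ (3 / 4 : ℝ) * (n : ℝ) ^ 4 / V ^ 6 +
          T * (n : ℝ) ^ 3 / V ^ 6)) := fun K W h1 h2 h3 h => h.trans (by gcongr)
  have k0 : 0 ≤ 3 * (KB * 5 ^ ε * 11390625) := by positivity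
  by_cases c1 : T ≤ n ^ 2
  · have c1' : (T : ℝ) ≤ (n : ℝ) ^ 2 := by exact_mod_cast c1
    refine fin (2 * KM) _ (by linarith) P0 (by linarith) ((hM n T V b hn hV hb).2.1.trans ?_)
    calc _ ≤ KM * (n : ℝ) ^ ε * (((n : ℝ) ^ 2 + (n : ℝ) ^ 2) * (n : ℝ) ^ 2 / V ^ 4) := by gcongr
      _ = _ := by ring
  by_cases c2 : n ^ 8 ≤ T ^ 3
  · have c2' : (n : ℝ) ^ 2 ≤ (T : ℝ) ^ (3 / 4 : ℝ) := by
      refine le_of_pow_le_pow_left₀ four_ne_zero u0 ?_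
      rw [← Real.rpow_mul_natCast t0, show (3 / 4 : ℝ) * (4 : ℕ) = (3 : ℕ) by norm_num,
        Real.rpow_natCast, ← pow_mul]
      exact_mod_cast c2
    refine fin KM _ (by linarith) (by positivity) ?_ (hM n T V b hn hV hb).2.2
    have : (n : ℝ) ^ 2 * (n : ℝ) ^ 4 / V ^ 6 ≤ (T : ℝ) ^ (3 / 4 : ℝ) * (n : ℝ) ^ 4 / V ^ 6 := by
      gcongr
    calc _ = (n : ℝ) ^ 2 * (n : ℝ) ^ 4 / V ^ 6 + T * (n : ℝ) ^ 3 / V ^ 6 := by ring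
      _ ≤ _ := by linarith
  obtain ⟨r, c, h1, h2⟩ := hC n b hn hb
  have key : ∀ j, (DH.cnt (r j) (c j) T (V / 3) : ℝ) ≤ KB * 5 ^ ε * 11390625 * (n : ℝ) ^ ε *
      ((n : ℝ) ^ 4 / V ^ 4 + (T : ℝ) ^ (3 / 4 : ℝ) * (n : ℝ) ^ 4 / V ^ 6) := by
    intro j
    obtain ⟨a1, a2, a3⟩ := h1 j
    generalize r j = ρ at *
    have ρ1 : 1 ≤ ρ := hn.trans a1
    have a2' : (ρ : ℝ) ≤ 5 * n := by exact_mod_cast a2
    have b1 : (max T (ρ ^ 2)) ^ 3 ≤ ρ ^ 8 := by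
      rcases le_total T (ρ ^ 2) with h | h
      · rw [max_eq_right h, ← pow_mul]
        exact pow_le_pow_right₀ ρ1 (by norm_num)
      · rw [max_eq_left h]
        exact (not_le.1 c2).le.trans (pow_le_pow_left₀ (Nat.zero_le _) a1 8)
    have b2 : max T (ρ ^ 2) ≤ 25 * T := max_le (by omega) (by
      have := pow_le_pow_left₀ (Nat.zero_le _) a2 2
      rw [mul_pow] at this
      omega)
    have b3 : ((max T (ρ ^ 2) : ℕ) : ℝ) ^ (3 / 4 : ℝ) ≤ 25 * (T : ℝ) ^ (3 / 4 : ℝ) := by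
      have b4 : ((max T (ρ ^ 2) : ℕ) : ℝ) ≤ 25 * T := by exact_mod_cast b2
      refine (Real.rpow_le_rpow (Nat.cast_nonneg _) b4 (by norm_num)).trans ?_
      rw [Real.mul_rpow (by norm_num) t0]
      gcongr
      exact (Real.rpow_le_rpow_of_exponent_le (by norm_num) (by norm_num)).trans
        (Real.rpow_one 25).le
    have b5 : (ρ : ℝ) ^ ε ≤ 5 ^ ε * (n : ℝ) ^ ε := by
      rw [← Real.mul_rpow (by norm_num) (by positivity)]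
      exact Real.rpow_le_rpow (Nat.cast_nonneg _) a2' hε.le
    have b6 := hB ρ _ (V / 3) (c j) ρ1 (le_max_right T _) b1 (by positivity) a3
    have b7 : (DH.cnt ρ (c j) T (V / 3) : ℝ) ≤ DH.cnt ρ (c j) (max T (ρ ^ 2)) (V / 3) :=
      Nat.cast_le.2 (DH.cnt_mono _ _ (le_max_left _ _) le_rfl)
    refine b7.trans (b6.trans ?_)
    calc _ ≤ KB * (5 ^ ε * (n : ℝ) ^ ε) * ((5 * n : ℝ) ^ 4 / (V / 3) ^ 4 +
          25 * (T : ℝ) ^ (3 / 4 : ℝ) * (5 * n : ℝ) ^ 4 / (V / 3) ^ 6) := by gcongr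
      _ = KB * 5 ^ ε * (n : ℝ) ^ ε * (50625 * ((n : ℝ) ^ 4 / V ^ 4) +
          11390625 * ((T : ℝ) ^ (3 / 4 : ℝ) * (n : ℝ) ^ 4 / V ^ 6)) := by
        field_simp
        ring
      _ ≤ KB * 5 ^ ε * (n : ℝ) ^ ε * (11390625 * ((n : ℝ) ^ 4 / V ^ 4) +
          11390625 * ((T : ℝ) ^ (3 / 4 : ℝ) * (n : ℝ) ^ 4 / V ^ 6)) := by
        gcongr
        norm_num
      _ = _ := by ring
  refine fin (3 * (KB * 5 ^ ε * 11390625)) _ (by linarith) (add_nonneg P0 Q0) (by linarith) ?_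
  have h3 : (DH.cnt n b T V : ℝ) ≤ ∑ j ∈ range 3, (DH.cnt (r j) (c j) T (V / 3) : ℝ) := by
    exact_mod_cast h2 T V
  simp only [sum_range_succ, range_zero, sum_empty, zero_add] at h3
  linarith [key 0, key 1, key 2]

theorem final6_stmt (hI : Int6Stmt) (hT : DH.TyStmt) : Final6Stmt := by
  intro ε hε
  obtain ⟨K, K0, hI⟩ := hI (ε / 2) (half_pos hε)
  obtain ⟨c, hc, h3⟩ := DH.exists_log_le (half_pos hε)
  refine ⟨2 + 12 * c * (K * 6 ^ 6), fun N T V hN hT1 hV b hb W w1 w2 w3 => ?_⟩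
  have n1 : (1 : ℝ) ≤ N := by exact_mod_cast hN
  have t0 : 0 ≤ T := by linarith
  have hf := Nat.floor_le t0
  have e1 : 1 ≤ (N : ℝ) ^ ε := Real.one_le_rpow n1 hε.le
  have c0 : 0 ≤ 12 * c * (K * 6 ^ 6) := by positivity
  have P0 : 0 ≤ (N : ℝ) ^ 4 / V ^ 4 := by positivity
  rcases le_total V 1 with hV1 | hV1
  · have h1 : W.card ≤ ⌊T⌋₊ + 1 := by
      rw [← card_image_of_injOn (f := Int.floor) fun s hs t ht e => by_contra fun h =>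
        (w2 s hs t ht h).not_gt (Int.abs_sub_lt_one_of_floor_eq_floor e)]
      refine (card_le_card (t := Icc 0 (⌊T⌋₊ : ℤ)) fun m hm => ?_).trans (by simp)
      obtain ⟨t, ht, rfl⟩ := mem_image.1 hm
      rw [Int.natCast_floor_eq_floor t0]
      exact mem_Icc.2 ⟨Int.floor_nonneg.2 (w1 t ht).1, Int.floor_le_floor (w1 t ht).2⟩
    have h2 : (W.card : ℝ) ≤ ⌊T⌋₊ + 1 := by exact_mod_cast h1
    have h4 : T ≤ (T ^ (3 / 4 : ℝ) * (N : ℝ) ^ 4 + T * (N : ℝ) ^ 3) / V ^ 6 := by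
      rw [le_div_iff₀ (by positivity)]
      have a1 : T * V ^ 6 ≤ T * (N : ℝ) ^ 3 :=
        mul_le_mul_of_nonneg_left ((pow_le_one₀ hV.le hV1).trans (one_le_pow₀ n1)) t0
      exact a1.trans (le_add_of_nonneg_left (by positivity))
    calc (W.card : ℝ) ≤ 2 * 1 * T := by linarith
      _ ≤ _ := by
        gcongr
        · linarith
        · linarith
  · have h4 : (⌊T⌋₊ : ℝ) ^ (3 / 4 : ℝ) ≤ T ^ (3 / 4 : ℝ) :=
      Real.rpow_le_rpow (Nat.cast_nonneg _) hf (by norm_num)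
    have hZ : ∀ b : ℕ → ℂ, (∀ n, ‖b n‖ ≤ 1) → (DH.cnt N b ⌊T⌋₊ (V / 6) : ℝ) ≤
        K * 6 ^ 6 * ((N : ℝ) ^ (ε / 2) * ((N : ℝ) ^ 4 / V ^ 4 +
          (T ^ (3 / 4 : ℝ) * (N : ℝ) ^ 4 + T * (N : ℝ) ^ 3) / V ^ 6)) := fun b hb => by
      refine (hI N _ _ b hN (by positivity) hb).trans ?_
      calc _ ≤ K * (N : ℝ) ^ (ε / 2) * ((N : ℝ) ^ 4 / (V / 6) ^ 4 +
            (T ^ (3 / 4 : ℝ) * (N : ℝ) ^ 4 + T * (N : ℝ) ^ 3) / (V / 6) ^ 6) := by gcongr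
        _ = K * (N : ℝ) ^ (ε / 2) * (6 ^ 4 * ((N : ℝ) ^ 4 / V ^ 4) +
            6 ^ 6 * ((T ^ (3 / 4 : ℝ) * (N : ℝ) ^ 4 + T * (N : ℝ) ^ 3) / V ^ 6)) := by
          field_simp
        _ ≤ K * (N : ℝ) ^ (ε / 2) * (6 ^ 6 * ((N : ℝ) ^ 4 / V ^ 4) +
            6 ^ 6 * ((T ^ (3 / 4 : ℝ) * (N : ℝ) ^ 4 + T * (N : ℝ) ^ 3) / V ^ 6)) := by
          gcongr <;> norm_num
        _ = _ := by ring
    have hY : (N : ℝ) + 1 ≤ 2 ^ (Nat.log 2 N + 1) * V := by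
      have : N + 1 ≤ 2 ^ (Nat.log 2 N + 1) := Nat.lt_pow_succ_log_self one_lt_two N
      exact le_trans (by exact_mod_cast this) (le_mul_of_one_le_right (by positivity) hV1)
    refine (DH.red_LV hT hN hV hY hZ hb w1 w2 w3).trans ?_
    have h9 := h3 N hN
    have h10 : (0 : ℝ) ≤ Nat.log 2 N := Nat.cast_nonneg _
    have F0 : 0 ≤ (N : ℝ) ^ 4 / V ^ 4 +
        (T ^ (3 / 4 : ℝ) * (N : ℝ) ^ 4 + T * (N : ℝ) ^ 3) / V ^ 6 := by positivity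
    generalize (N : ℝ) ^ 4 / V ^ 4 +
        (T ^ (3 / 4 : ℝ) * (N : ℝ) ^ 4 + T * (N : ℝ) ^ 3) / V ^ 6 = F at *
    calc _ ≤ (12 * (c * (N : ℝ) ^ (ε / 2))) * (K * 6 ^ 6 * ((N : ℝ) ^ (ε / 2) * F)) := by
          gcongr
          push_cast
          linarith
      _ = 12 * c * (K * 6 ^ 6) * ((N : ℝ) ^ (ε / 2) * (N : ℝ) ^ (ε / 2)) * F := by ring
      _ = 12 * c * (K * 6 ^ 6) * (N : ℝ) ^ ε * F := by
          rw [← Real.rpow_add (by linarith), add_halves]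
      _ ≤ _ := by
          gcongr
          linarith

end Pool.Agent.MP_2a1f0e_nt.SQ
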