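import Pool.Agent.MP_2a1f0e_nt.SQ.Defs

set_option autoImplicit false

open Finset

namespace Pool.Agent.MP_2a1f0e_nt.SQ

open GM GM2

lemma one_Num6 {C n τ P g Δ Y X : ℝ} (hC : 1 ≤ C) (hn : 1 ≤ n) (hτ : 1 ≤ τ) (hτn : τ ≤ n)
    (hP : 1 ≤ P) (hg : 0 < g) (hg1 : n ^ 2 / g ≤ 2 * τ ^ 3) (hΔ0 : 0 ≤ Δ) (hΔ : Δ ≤ P)
    (hY0 : 0 ≤ Y) (hY : Y ≤ P * (τ ^ 4 * n ^ 2))
    (h : X ^ 2 ≤ C * Δ ^ 2 * n ^ 2 *
      (τ ^ 4 * (n ^ 2 / τ) ^ 2 * Y + Δ ^ 6 * n ^ 2 * (τ ^ 4 * n + n ^ 4 / g) ^ 2)) :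
    X ≤ 10 * C * P ^ 5 * (τ ^ 3 * n ^ 4) := by
  have hτ0 : 0 < τ := by linarith
  have hn0 : 0 < n := by linarith
  have h1 : τ ^ 4 * n + n ^ 4 / g ≤ 3 * (τ ^ 3 * n ^ 2) := by
    have a1 : τ ^ 4 * n ≤ τ ^ 3 * n ^ 2 := by
      calc τ ^ 4 * n = τ ^ 3 * n * τ := by ring
        _ ≤ τ ^ 3 * n * n := by gcongr
        _ = τ ^ 3 * n ^ 2 := by ring
    have a2 : n ^ 4 / g ≤ 2 * (τ ^ 3 * n ^ 2) := by
      calc n ^ 4 / g = n ^ 2 / g * n ^ 2 := by ring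
        _ ≤ 2 * τ ^ 3 * n ^ 2 := by gcongr
        _ = 2 * (τ ^ 3 * n ^ 2) := by ring
    linarith
  have hP3 : P ^ 3 ≤ P ^ 10 := pow_le_pow_right₀ hP (by norm_num)
  have hP8 : P ^ 8 ≤ P ^ 10 := pow_le_pow_right₀ hP (by norm_num)
  have hCC : C ≤ C ^ 2 := by nlinarith
  have h2 : X ^ 2 ≤ (10 * C * P ^ 5 * (τ ^ 3 * n ^ 4)) ^ 2 := by
    calc X ^ 2 ≤ C * P ^ 2 * n ^ 2 * (τ ^ 4 * (n ^ 2 / τ) ^ 2 * (P * (τ ^ 4 * n ^ 2)) +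
          P ^ 6 * n ^ 2 * (3 * (τ ^ 3 * n ^ 2)) ^ 2) := by
          refine h.trans ?_
          gcongr
      _ = C * (P ^ 3 + 9 * P ^ 8) * (τ ^ 3 * n ^ 4) ^ 2 := by
          field_simp
          ring
      _ ≤ C ^ 2 * (100 * P ^ 10) * (τ ^ 3 * n ^ 4) ^ 2 := by
          gcongr
          have : 0 ≤ P ^ 10 := by positivity
          linarith
      _ = (10 * C * P ^ 5 * (τ ^ 3 * n ^ 4)) ^ 2 := by ring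
  exact le_of_pow_le_pow_left₀ (by norm_num) (by positivity) h2

lemma cub_Num6 {a b W X : ℝ} (hW : 0 < W) (ha : 2 * a ≤ W ^ 2) (hb : 2 * b ≤ W ^ 3)
    (h : X ^ 4 ≤ X * (a * X + b)) : X ≤ W := by
  by_contra hc
  rw [not_le] at hc
  have hX : 0 < X := hW.trans hc
  have h1 : X ^ 3 ≤ a * X + b := by
    have : X * X ^ 3 ≤ X * (a * X + b) := by
      calc X * X ^ 3 = X ^ 4 := by ring
        _ ≤ _ := h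
    exact le_of_mul_le_mul_left this hX
  have h2 : W ^ 2 < X ^ 2 := pow_lt_pow_left₀ hc hW.le (by norm_num)
  have h3 : W ^ 3 < X ^ 3 := pow_lt_pow_left₀ hc hW.le (by norm_num)
  have h4 : 2 * a * X ≤ X ^ 2 * X := mul_le_mul_of_nonneg_right (by linarith) hX.le
  have h5 : X ^ 2 * X = X ^ 3 := by ring
  linarith

lemma two_Num6 {C n τ P g Δ E Y Z X : ℝ} (hC : 1 ≤ C) (hn : 1 ≤ n) (hτ : 1 ≤ τ)
    (hnτ : n ≤ τ ^ 2) (hP : 1 ≤ P) (hg : 0 < g) (hg1 : n ^ 2 / g ≤ 2 * τ ^ 3) (hΔ0 : 0 ≤ Δ)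
    (hΔ : Δ ≤ P) (hE0 : 0 ≤ E) (hE : E ≤ P * n ^ 2) (hY0 : 0 ≤ Y)
    (hY : Y ≤ P * (τ ^ 4 * n ^ 2)) (hZ0 : 0 ≤ Z) (hZ : Z ≤ P * n ^ 4) (hX : 0 ≤ X)
    (h : X ^ 4 ≤ C * Δ ^ 4 * n ^ 4 * E ^ 2 * (τ * n * X * (τ * n * X + (n ^ 2 / τ) ^ 2 * Y +
      (τ * n) ^ 2 * Y + (n ^ 2 / g) ^ 2 * Z))) :
    X ≤ 10 * C * P ^ 5 * (τ ^ 3 * n ^ 4) := by
  have hτ0 : 0 < τ := by linarith
  have hn0 : 0 < n := by linarith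
  have hP6 : P ^ 6 ≤ P ^ 10 := pow_le_pow_right₀ hP (by norm_num)
  have hP7 : P ^ 7 ≤ P ^ 15 := pow_le_pow_right₀ hP (by norm_num)
  have hC2 : C ≤ C ^ 2 := by nlinarith
  have hC3 : C ≤ C ^ 3 := by
    calc C = C ^ 1 := by ring
      _ ≤ C ^ 3 := pow_le_pow_right₀ hC (by norm_num)
  refine cub_Num6 (a := C * P ^ 6 * (τ ^ 3 * n ^ 4) ^ 2)
    (b := 6 * C * P ^ 7 * (τ ^ 3 * n ^ 4) ^ 3) (by positivity) ?_ ?_ ?_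
  · calc 2 * (C * P ^ 6 * (τ ^ 3 * n ^ 4) ^ 2) = 2 * C * P ^ 6 * (τ ^ 3 * n ^ 4) ^ 2 := by ring
      _ ≤ 100 * C ^ 2 * P ^ 10 * (τ ^ 3 * n ^ 4) ^ 2 := by
          gcongr
          norm_num
      _ = _ := by ring
  · calc 2 * (6 * C * P ^ 7 * (τ ^ 3 * n ^ 4) ^ 3)
        = 12 * C * P ^ 7 * (τ ^ 3 * n ^ 4) ^ 3 := by ring
      _ ≤ 1000 * C ^ 3 * P ^ 15 * (τ ^ 3 * n ^ 4) ^ 3 := by
          gcongr
          norm_num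
      _ = _ := by ring
  · calc X ^ 4 ≤ C * P ^ 4 * n ^ 4 * (P * n ^ 2) ^ 2 * (τ * n * X * (τ * n * X +
          (n ^ 2 / τ) ^ 2 * (P * (τ ^ 4 * n ^ 2)) + (τ * n) ^ 2 * (P * (τ ^ 4 * n ^ 2)) +
          (2 * τ ^ 3) ^ 2 * (P * n ^ 4))) := by
          refine h.trans ?_
          gcongr
      _ = X * (C * P ^ 6 * (τ ^ 2 * n ^ 8 * n ^ 2) * X +
          C * P ^ 7 * (τ ^ 3 * n ^ 12 * n ^ 3 + 5 * (τ ^ 7 * n ^ 12 * n))) := by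
          field_simp
          ring
      _ ≤ X * (C * P ^ 6 * (τ ^ 2 * n ^ 8 * (τ ^ 2) ^ 2) * X +
          C * P ^ 7 * (τ ^ 3 * n ^ 12 * (τ ^ 2) ^ 3 + 5 * (τ ^ 7 * n ^ 12 * τ ^ 2))) := by
          gcongr
      _ = _ := by ring

lemma three_Num6 {C n τ P M g Δ E Y S Z X : ℝ} (hC : 1 ≤ C) (hn : 1 ≤ n) (hτ : 1 ≤ τ)
    (hnτ : n ≤ τ ^ 2) (hτn : τ ^ 3 ≤ n ^ 2) (hP : 1 ≤ P) (hM0 : 0 ≤ M)
    (hM : M ≤ P * (τ ^ 4 / n ^ 2)) (hg : 0 < g) (hg2 : g * τ ^ 3 ≤ n ^ 2) (hΔ0 : 0 ≤ Δ)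
    (hΔ : Δ ≤ P) (hE0 : 0 ≤ E) (hE : E ≤ P * n ^ 2) (hY0 : 0 ≤ Y)
    (hY : Y ≤ P * (τ ^ 4 * n ^ 2)) (hS0 : 0 ≤ S) (hS : S ≤ P * (τ ^ 4 * n ^ 4)) (hZ0 : 0 ≤ Z)
    (hZ : Z ≤ P * n ^ 4)
    (h : X ^ 3 ≤ C * Δ ^ 6 * n ^ 6 * (n ^ 4 * (M ^ 2 * Y * (n ^ 2 + √Z + Y / τ ^ 4) +
      M * Δ * Y * (τ ^ 4 * g + Z / (τ * n) + τ ^ 4)) + E * S * (Y / (n ^ 2 / τ)))) :
    X ≤ 10 * C * P ^ 5 * (τ ^ 3 * n ^ 4) := by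
  have hτ0 : 0 < τ := by linarith
  have hn0 : 0 < n := by linarith
  have hn2 : n ^ 2 ≤ P * n ^ 2 := le_mul_of_one_le_left (by positivity) hP
  have hsq : √Z ≤ P * n ^ 2 := by
    rw [Real.sqrt_le_left (by positivity)]
    calc Z ≤ P * n ^ 4 := hZ
      _ ≤ P ^ 2 * n ^ 4 := by
          gcongr
          nlinarith
      _ = (P * n ^ 2) ^ 2 := by ring
  have hYT : Y / τ ^ 4 ≤ P * n ^ 2 := by
    rw [div_le_iff₀ (by positivity)]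
    linarith
  have b1 : n ^ 2 + √Z + Y / τ ^ 4 ≤ 3 * (P * n ^ 2) := by linarith
  have b2 : τ ^ 4 * g + Z / (τ * n) + τ ^ 4 ≤ 3 * (P * (τ * n ^ 2)) := by
    have a0 : τ * n ^ 2 ≤ P * (τ * n ^ 2) := le_mul_of_one_le_left (by positivity) hP
    have a1 : τ ^ 4 * g ≤ τ * n ^ 2 := by
      calc τ ^ 4 * g = τ * (g * τ ^ 3) := by ring
        _ ≤ τ * n ^ 2 := by gcongr
    have a2 : Z / (τ * n) ≤ P * (τ * n ^ 2) := by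
      rw [div_le_iff₀ (by positivity)]
      calc Z ≤ P * n ^ 4 := hZ
        _ = P * n ^ 3 * n := by ring
        _ ≤ P * n ^ 3 * τ ^ 2 := by gcongr
        _ = _ := by ring
    have a3 : τ ^ 4 ≤ τ * n ^ 2 := by
      calc τ ^ 4 = τ * τ ^ 3 := by ring
        _ ≤ τ * n ^ 2 := by gcongr
    linarith
  have hP3 : P ^ 9 ≤ P ^ 15 := pow_le_pow_right₀ hP (by norm_num)
  have hP4 : P ^ 10 ≤ P ^ 15 := pow_le_pow_right₀ hP (by norm_num)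
  have hC3 : C ≤ C ^ 3 := by
    calc C = C ^ 1 := by ring
      _ ≤ C ^ 3 := pow_le_pow_right₀ hC (by norm_num)
  have h2 : X ^ 3 ≤ (10 * C * P ^ 5 * (τ ^ 3 * n ^ 4)) ^ 3 := by
    calc X ^ 3 ≤ C * P ^ 6 * n ^ 6 * (n ^ 4 * ((P * (τ ^ 4 / n ^ 2)) ^ 2 *
          (P * (τ ^ 4 * n ^ 2)) * (3 * (P * n ^ 2)) +
          P * (τ ^ 4 / n ^ 2) * P * (P * (τ ^ 4 * n ^ 2)) * (3 * (P * (τ * n ^ 2)))) +
          P * n ^ 2 * (P * (τ ^ 4 * n ^ 4)) * (P * (τ ^ 4 * n ^ 2) / (n ^ 2 / τ))) := by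
          refine h.trans ?_
          gcongr
      _ = C * (3 * P ^ 10 * (τ ^ 9 * n ^ 10 * τ ^ 3) + 3 * P ^ 10 * (τ ^ 9 * n ^ 12) +
          P ^ 9 * (τ ^ 9 * n ^ 12)) := by
          field_simp
      _ ≤ C ^ 3 * (3 * P ^ 15 * (τ ^ 9 * n ^ 10 * n ^ 2) + 3 * P ^ 15 * (τ ^ 9 * n ^ 12) +
          P ^ 15 * (τ ^ 9 * n ^ 12)) := by
          gcongr
      _ = 7 * (C ^ 3 * P ^ 15 * (τ ^ 3 * n ^ 4) ^ 3) := by ring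
      _ ≤ 1000 * (C ^ 3 * P ^ 15 * (τ ^ 3 * n ^ 4) ^ 3) := by
          gcongr
          norm_num
      _ = _ := by ring
  exact le_of_pow_le_pow_left₀ (by norm_num) (by positivity) h2

theorem num6_stmt : Num6Stmt := by
  intro C hC
  refine ⟨10 * C, by linarith, ?_⟩
  intro n τ P M g Δ E Y S Z X hn hτ hnτ hτn hP hM0 hM hg1 hg2 hΔ0 hΔ hE0 hE hY0 hY hS0 hS hZ0 hZ
    hX h
  have hτ0 : 0 < τ := by linarith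
  have hn0 : 0 < n := by linarith
  have hg : 0 < g := by
    have h1 : 0 < g * τ ^ 3 := by
      have : 0 < n ^ 2 := by positivity
      linarith
    exact (mul_pos_iff_of_pos_right (by positivity)).1 h1
  have hg3 : n ^ 2 / g ≤ 2 * τ ^ 3 := by
    rw [div_le_iff₀ hg]
    linarith
  have hτn' : τ ≤ n := by
    have h1 : τ ^ 2 ≤ τ ^ 3 := pow_le_pow_right₀ hτ (by norm_num)
    exact le_of_pow_le_pow_left₀ (by norm_num) hn0.le (h1.trans hτn)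
  rcases h with h | h | h
  · exact one_Num6 hC hn hτ hτn' hP hg hg3 hΔ0 hΔ hY0 hY h
  · exact two_Num6 hC hn hτ hnτ hP hg hg3 hΔ0 hΔ hE0 hE hY0 hY hZ0 hZ hX h
  · exact three_Num6 hC hn hτ hnτ hτn hP hM0 hM hg hg2 hΔ0 hΔ hE0 hE hY0 hY hS0 hS hZ0 hZ h

end Pool.Agent.MP_2a1f0e_nt.SQ
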