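import Pool.Agent.MP_2a1f0e_nt.SQ.Defs

set_option autoImplicit false

open Finset

namespace Pool.Agent.MP_2a1f0e_nt.SQ

open GM GM2

lemma div_One9 {n σ L V : ℝ} (hn : 0 < n) (hL : 1 ≤ L) (hV : 0 < V) (h : n ^ σ ≤ L * V) (a : ℝ)
    {k m : ℕ} (hk : k ≤ m) : n ^ a / V ^ k ≤ L ^ m * n ^ (a - k * σ) := by
  have h1 : (n ^ σ) ^ k ≤ L ^ m * V ^ k := by
    refine (pow_le_pow_left₀ (by positivity) h k).trans ?_
    rw [mul_pow]
    gcongr
  rw [Real.rpow_sub hn, mul_comm (k : ℝ), Real.rpow_mul_natCast hn.le, ← mul_div_assoc,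
    div_le_div_iff₀ (by positivity) (by positivity)]
  have := mul_le_mul_of_nonneg_left h1 (show 0 ≤ n ^ a by positivity)
  linarith

lemma pow_One9 {n t a b u : ℝ} (hn : 0 < n) (ht : 0 < t)
    (h : a * Real.log t + b * Real.log n ≤ u * Real.log t) : t ^ a * n ^ b ≤ t ^ u := by
  rw [Real.rpow_def_of_pos hn, Real.rpow_def_of_pos ht, Real.rpow_def_of_pos ht, ← Real.exp_add,
    Real.exp_le_exp]
  linarith

lemma term_One9 {n t σ L V a b u : ℝ} (hn : 0 < n) (ht : 0 < t) (hL : 1 ≤ L) (hV : 0 < V)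
    (h : n ^ σ ≤ L * V) {k m : ℕ} (hk : k ≤ m)
    (h2 : a * Real.log t + (b - k * σ) * Real.log n ≤ u * Real.log t) :
    t ^ a * n ^ b / V ^ k ≤ L ^ m * t ^ u := by
  have h3 := div_One9 hn hL hV h b hk
  have h4 := pow_One9 hn ht h2
  calc t ^ a * n ^ b / V ^ k = t ^ a * (n ^ b / V ^ k) := mul_div_assoc _ _ _
    _ ≤ t ^ a * (L ^ m * n ^ (b - k * σ)) := mul_le_mul_of_nonneg_left h3 (by positivity)
    _ = L ^ m * (t ^ a * n ^ (b - k * σ)) := by ring
    _ ≤ _ := mul_le_mul_of_nonneg_left h4 (by positivity)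

lemma real_One9 {a c s : ℝ} (ha : 0 ≤ a) (h1 : a ≤ c) (h2 : 5 * c ≤ 6 * a) :
    c / 2 + (4 * s - 1) * a ≤ 9 / 4 * s * c ∨ c + (2 * s - 1) * a ≤ 9 / 4 * s * c := by
  rcases ha.eq_or_lt with h | h
  · left
    have hc : c = 0 := by linarith
    rw [hc, ← h]
    simp
  rcases le_total (4 * s * a) c with h3 | h3
  · left
    refine le_of_mul_le_mul_left ?_ h
    have k := mul_nonneg (show 0 ≤ c / 4 - s * a by linarith) (show 0 ≤ 4 * a - 9 * c / 4 by linarith)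
    nlinarith [sq_nonneg (3 * c - 4 * a)]
  · right
    refine le_of_mul_le_mul_left ?_ h
    have k := mul_nonneg (show 0 ≤ s * a - c / 4 by linarith) (show 0 ≤ 9 * c / 4 - 2 * a by linarith)
    nlinarith [sq_nonneg (3 * c - 4 * a)]

lemma real2_One9 {a c s : ℝ} (ha : 0 ≤ a) (h1 : 2 * a ≤ c) (h2 : 3 * c ≤ 8 * a) :
    3 / 4 * c + (6 * s - 2) * a ≤ 9 / 4 * s * c ∨ c + (4 * s - 2) * a ≤ 9 / 4 * s * c := by
  rcases ha.eq_or_lt with h | h
  · left
    have hc : c = 0 := by linarith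
    rw [hc, ← h]
    simp
  rcases le_total (8 * s * a) c with h3 | h3
  · left
    refine le_of_mul_le_mul_left ?_ h
    have k := mul_nonneg (show 0 ≤ c / 8 - s * a by linarith) (show 0 ≤ 6 * a - 9 * c / 4 by linarith)
    nlinarith [sq_nonneg (3 * c - 8 * a)]
  · right
    refine le_of_mul_le_mul_left ?_ h
    have k := mul_nonneg (show 0 ≤ s * a - c / 8 by linarith) (show 0 ≤ 9 * c / 4 - 4 * a by linarith)
    nlinarith [sq_nonneg (3 * c - 8 * a)]

lemma cnt_mass_One9 (N T : ℕ) (b : ℕ → ℂ) {V : ℝ} (hV : 0 < V) :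
    (DH.cnt N b T V : ℝ) * V ^ 2 ≤ Mass N b (Icc 0 (T : ℤ)) V := by
  unfold Mass DH.cnt
  rw [← nsmul_eq_mul]
  exact card_nsmul_le_sum _ _ _ fun t ht => pow_le_pow_left₀ hV.le (mem_filter.1 ht).2 2

lemma log_One9 {x y : ℕ} (hx : 1 ≤ x) {i j : ℕ} (h : x ^ i ≤ y ^ j) :
    (i : ℝ) * Real.log x ≤ j * Real.log y := by
  have h0 : (0 : ℝ) < x := by exact_mod_cast hx
  have := Real.log_le_log (pow_pos h0 i) (show (x : ℝ) ^ i ≤ (y : ℝ) ^ j by exact_mod_cast h)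
  rwa [Real.log_pow, Real.log_pow] at this

theorem one9_stmt (h1 : B1Stmt) (hM : MvStmt) : One9Stmt := by
  intro ε hε
  obtain ⟨K, hK, h1⟩ := h1 ε hε
  obtain ⟨C, hC, hM⟩ := hM ε hε
  refine ⟨2 * K + 2 * C, by positivity, fun N T hN hNT h56 σ L V s1 s2 hL hV hσ b hb => ?_⟩
  have hT : 1 ≤ T := hN.trans hNT
  have n0 : (0 : ℝ) < N := by exact_mod_cast hN
  have t0 : (0 : ℝ) < T := by exact_mod_cast hT
  have nt : (N : ℝ) ≤ T := by exact_mod_cast hNT
  have a0 : 0 ≤ Real.log N := Real.log_natCast_nonneg N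
  have l1 : Real.log N ≤ Real.log T := Real.log_le_log n0 nt
  have l2 := log_One9 hT h56
  push_cast at l2
  have e0 : 0 ≤ (N : ℝ) ^ ε := by positivity
  have P0 : 0 ≤ (N : ℝ) ^ ε * (L ^ 4 * (T : ℝ) ^ (9 / 4 * (1 - σ))) := by positivity
  have fin : ∀ c : ℝ, c ≤ K + C → (DH.cnt N b T V : ℝ) ≤
      c * (N : ℝ) ^ ε * (2 * (L ^ 4 * (T : ℝ) ^ (9 / 4 * (1 - σ)))) →
      (DH.cnt N b T V : ℝ) ≤ (2 * K + 2 * C) * (N : ℝ) ^ ε * L ^ 4 *
        (T : ℝ) ^ (9 / 4 * (1 - σ)) := fun c hc h => by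
    have := mul_le_mul_of_nonneg_right hc P0
    linarith
  rcases real_One9 (s := 1 - σ) a0 l1 l2 with h | h
  · refine fin K (by linarith) ?_
    have m1 := (le_div_iff₀ (by positivity)).2 ((cnt_mass_One9 N T b hV).trans
      (h1 N T hN hNT h56 b hb V hV))
    refine m1.trans ?_
    rw [mul_div_assoc]
    refine mul_le_mul_of_nonneg_left ?_ (by positivity)
    have d1 := term_One9 (a := 0) (b := 2) (u := 9 / 4 * (1 - σ)) (k := 2) (m := 4) n0 t0 hL hV hσ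
      (by norm_num) (by
        have := mul_le_mul_of_nonneg_left l1 (sub_nonneg.2 s2)
        have := mul_nonneg (sub_nonneg.2 s2) (a0.trans l1)
        push_cast
        linarith)
    have d2 := term_One9 (a := 1 / 2) (b := 3) (u := 9 / 4 * (1 - σ)) (k := 4) (m := 4) n0 t0 hL
      hV hσ le_rfl (by push_cast; linarith)
    rw [Real.rpow_zero, one_mul, Real.rpow_two] at d1
    rw [← Real.sqrt_eq_rpow, Real.rpow_ofNat] at d2
    have e : ((N : ℝ) ^ 2 + √T * (N : ℝ) ^ 3 / V ^ 2) / V ^ 2 =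
        (N : ℝ) ^ 2 / V ^ 2 + √T * (N : ℝ) ^ 3 / V ^ 4 := by
      field_simp
    rw [e]
    linarith
  · refine fin C (by linarith) ((hM N T V b hN hV hb).1.trans ?_)
    refine mul_le_mul_of_nonneg_left ?_ (by positivity)
    have d1 := term_One9 (a := 1) (b := 1) (u := 9 / 4 * (1 - σ)) (k := 2) (m := 4) n0 t0 hL hV hσ
      (by norm_num) (by push_cast; linarith)
    rw [Real.rpow_one, Real.rpow_one] at d1
    have : ((T : ℝ) + N) * N / V ^ 2 ≤ 2 * ((T : ℝ) * N / V ^ 2) := by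
      rw [← mul_div_assoc, ← mul_assoc]
      gcongr
      linarith
    linarith

theorem two9_stmt (hI : Int6Stmt) (hM : MvStmt) : Two9Stmt := by
  intro ε hε
  obtain ⟨K, hK, hI⟩ := hI ε hε
  obtain ⟨C, hC, hM⟩ := hM ε hε
  refine ⟨3 * K + 3 * C, by positivity, fun N T hN hNT h38 σ L V s1 s2 hL hV hσ b hb => ?_⟩
  have hT : 1 ≤ T := (Nat.one_le_pow _ _ hN).trans hNT
  have n0 : (0 : ℝ) < N := by exact_mod_cast hN
  have t0 : (0 : ℝ) < T := by exact_mod_cast hT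
  have nt : (N : ℝ) ^ 2 ≤ T := by exact_mod_cast hNT
  have a0 : 0 ≤ Real.log N := Real.log_natCast_nonneg N
  have l1 := log_One9 (j := 1) (y := T) hN (by simpa using hNT)
  have l2 := log_One9 hT h38
  push_cast at l1 l2
  rw [one_mul] at l1
  have e0 : 0 ≤ (N : ℝ) ^ ε := by positivity
  have P1 : 0 ≤ L ^ 6 * (T : ℝ) ^ (9 / 4 * (1 - σ)) := by positivity
  have P0 : 0 ≤ (N : ℝ) ^ ε * (L ^ 6 * (T : ℝ) ^ (9 / 4 * (1 - σ))) := by positivity
  have fin : ∀ c : ℝ, c ≤ K + C → (DH.cnt N b T V : ℝ) ≤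
      c * (N : ℝ) ^ ε * (3 * (L ^ 6 * (T : ℝ) ^ (9 / 4 * (1 - σ)))) →
      (DH.cnt N b T V : ℝ) ≤ (3 * K + 3 * C) * (N : ℝ) ^ ε * L ^ 6 *
        (T : ℝ) ^ (9 / 4 * (1 - σ)) := fun c hc h => by
    have := mul_le_mul_of_nonneg_right hc P0
    linarith
  rcases real2_One9 (s := 1 - σ) a0 l1 l2 with h | h
  · refine fin K (by linarith) ((hI N T V b hN hV hb).trans ?_)
    refine mul_le_mul_of_nonneg_left ?_ (by positivity)
    have d1 := term_One9 (a := 0) (b := 4) (u := 9 / 4 * (1 - σ)) (k := 4) (m := 6) n0 t0 hL hV hσ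
      (by norm_num) (by
        have := mul_le_mul_of_nonneg_left l1 (sub_nonneg.2 s2)
        have := mul_nonneg (sub_nonneg.2 s2) a0
        push_cast
        linarith)
    have d2 := term_One9 (a := 3 / 4) (b := 4) (u := 9 / 4 * (1 - σ)) (k := 6) (m := 6) n0 t0 hL
      hV hσ le_rfl (by push_cast; linarith)
    have d3 := term_One9 (a := 1) (b := 3) (u := 9 / 4 * (1 - σ)) (k := 6) (m := 6) n0 t0 hL
      hV hσ le_rfl (by push_cast; linarith)
    rw [Real.rpow_zero, one_mul, Real.rpow_ofNat] at d1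
    rw [Real.rpow_ofNat] at d2
    rw [Real.rpow_one, Real.rpow_ofNat] at d3
    rw [add_div]
    linarith
  · refine fin C (by linarith) ((hM N T V b hN hV hb).2.1.trans ?_)
    refine mul_le_mul_of_nonneg_left ?_ (by positivity)
    have d1 := term_One9 (a := 1) (b := 2) (u := 9 / 4 * (1 - σ)) (k := 4) (m := 6) n0 t0 hL hV hσ
      (by norm_num) (by push_cast; linarith)
    rw [Real.rpow_one, Real.rpow_two] at d1
    have : ((T : ℝ) + (N : ℝ) ^ 2) * (N : ℝ) ^ 2 / V ^ 4 ≤ 2 * ((T : ℝ) * (N : ℝ) ^ 2 / V ^ 4) := by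
      rw [← mul_div_assoc, ← mul_assoc]
      gcongr
      linarith
    linarith

end Pool.Agent.MP_2a1f0e_nt.SQ
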