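import Pool.Agent.MP_2a1f0e_nt.SQ.Defs
import Pool.Agent.MP_2a1f0e_nt.GM.Pt

set_option autoImplicit false

open Finset

namespace Pool.Agent.MP_2a1f0e_nt.SQ

open GM GM2

lemma normsq_Pts (P : Finset (ℕ × ℕ)) (hP : ∀ p ∈ P, 1 ≤ p.1 ∧ 1 ≤ p.2) (b : ℕ → ℂ) (t : ℝ) :
    ((‖FP P b t‖ ^ 2 : ℝ) : ℂ) = ∑ p ∈ P, ∑ q ∈ P,
      (b p.1 * (starRingEnd ℂ) (b p.2)) * ((starRingEnd ℂ) (b q.1) * b q.2) *
        pw (((p.1 * q.2 : ℕ) : ℝ) / ((p.2 * q.1 : ℕ) : ℝ)) t := by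
  rw [Complex.ofReal_pow, ← Complex.mul_conj', FP, map_sum, sum_mul_sum]
  refine sum_congr rfl fun p hp => sum_congr rfl fun q hq => ?_
  have h1 : (p.1 : ℝ) ≠ 0 := Nat.cast_ne_zero.2 (by have := (hP p hp).1; omega)
  have h2 : (p.2 : ℝ) ≠ 0 := Nat.cast_ne_zero.2 (by have := (hP p hp).2; omega)
  have h3 : (q.1 : ℝ) ≠ 0 := Nat.cast_ne_zero.2 (by have := (hP q hq).1; omega)
  have h4 : (q.2 : ℝ) ≠ 0 := Nat.cast_ne_zero.2 (by have := (hP q hq).2; omega)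
  have e : ((p.1 * q.2 : ℕ) : ℝ) / ((p.2 * q.1 : ℕ) : ℝ) =
      ((p.1 : ℝ) / p.2) / ((q.1 : ℝ) / q.2) := by
    push_cast
    field_simp
  rw [e, pw_div (div_ne_zero h1 h2) (div_ne_zero h3 h4), map_mul, map_mul, conj_pw,
    Complex.conj_conj]
  ring

lemma expand_Pts (hT : TriangStmt) (L : ℕ) (P : Finset (ℕ × ℕ))
    (hP : ∀ p ∈ P, 1 ≤ p.1 ∧ 1 ≤ p.2) (b : ℕ → ℂ) (t₀ : ℤ) {v : ℝ} (hv : 0 < v) :
    FT (Io L) (fun u => tri L u * ‖FP P b ((t₀ + u : ℤ) : ℝ)‖ ^ 2) v = ∑ p ∈ P, ∑ q ∈ P,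
      (b p.1 * (starRingEnd ℂ) (b p.2)) * ((starRingEnd ℂ) (b q.1) * b q.2) *
        pw (((p.1 * q.2 : ℕ) : ℝ) / ((p.2 * q.1 : ℕ) : ℝ)) t₀ *
        (Fe L (v * (((p.1 * q.2 : ℕ) : ℝ) / ((p.2 * q.1 : ℕ) : ℝ))) : ℂ) := by
  simp_rw [← FT_tri hT]
  unfold FT
  simp_rw [mul_sum]
  simp_rw [sum_comm (s := P) (t := Io L)]
  refine sum_congr rfl fun u _ => ?_
  rw [Complex.ofReal_mul, normsq_Pts P hP, mul_sum, sum_mul]
  refine sum_congr rfl fun p hp => ?_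
  rw [mul_sum, sum_mul]
  refine sum_congr rfl fun q hq => ?_
  have h1 : ((p.1 * q.2 : ℕ) : ℝ) ≠ 0 :=
    Nat.cast_ne_zero.2 (Nat.mul_ne_zero (by have := (hP p hp).1; omega)
      (by have := (hP q hq).2; omega))
  have h2 : ((p.2 * q.1 : ℕ) : ℝ) ≠ 0 :=
    Nat.cast_ne_zero.2 (Nat.mul_ne_zero (by have := (hP p hp).2; omega)
      (by have := (hP q hq).1; omega))
  rw [pw_mul hv.ne' (div_ne_zero h1 h2), Int.cast_add, pw_add]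
  ring

lemma reindex_Pts (n : ℕ) (f : ℕ → ℕ → ℕ → ℕ → ℝ) :
    ∑ p ∈ Pr n, ∑ q ∈ Pr n, f p.1 p.2 q.1 q.2 = ∑ x ∈ Pr n, ∑ y ∈ Pr n, f x.1 y.1 y.2 x.2 := by
  unfold Pr
  simp only [sum_product]
  refine sum_congr rfl fun a _ => ?_
  rw [sum_comm (s := Icc n (2 * n)) (t := Icc n (2 * n))
    (f := fun d c => ∑ e ∈ Icc n (2 * n), f a c e d)]
  refine sum_congr rfl fun c _ => ?_
  exact sum_comm

lemma fibre_Pts {n : ℕ} (hn : 1 ≤ n) {Δ : ℝ} (hD : DivB (2 * n ^ 2) Δ) {b : ℕ → ℂ}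
    (hb : Adm n b) (F : ℕ → ℝ) (hF : ∀ k, 0 ≤ F k) :
    ∑ x ∈ Pr n, ‖b x.1‖ * ‖b x.2‖ * F (x.1 * x.2) ≤ Δ * ∑ k ∈ Icc (n ^ 2) (2 * n ^ 2), F k := by
  have h1 : ∑ x ∈ Pr n, ‖b x.1‖ * ‖b x.2‖ * F (x.1 * x.2) ≤
      ∑ x ∈ (Pr n).filter (fun x => x.1 * x.2 ≤ 2 * n ^ 2), F (x.1 * x.2) := by
    rw [sum_filter]
    refine sum_le_sum fun x _ => ?_
    split_ifs with h
    · exact mul_le_of_le_one_left (hF _) (mul_le_one₀ (hb.1 _) (norm_nonneg _) (hb.1 _))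
    · by_cases h1 : 7 * n < 5 * x.1
      · rw [hb.2 _ h1]
        simp
      · by_cases h2 : 7 * n < 5 * x.2
        · rw [hb.2 _ h2]
          simp
        · exfalso
          have h3 : (5 * x.1) * (5 * x.2) ≤ (7 * n) * (7 * n) :=
            Nat.mul_le_mul (not_lt.1 h1) (not_lt.1 h2)
          apply h
          nlinarith
  refine h1.trans ?_
  have hm : ∀ x ∈ (Pr n).filter (fun x => x.1 * x.2 ≤ 2 * n ^ 2),
      x.1 * x.2 ∈ Icc (n ^ 2) (2 * n ^ 2) := by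
    intro x hx
    obtain ⟨hx1, hx2⟩ := mem_filter.1 hx
    obtain ⟨⟨a1, _⟩, a2, _⟩ := mem_Pr.1 hx1
    refine mem_Icc.2 ⟨?_, hx2⟩
    rw [sq]
    exact Nat.mul_le_mul a1 a2
  rw [← sum_fiberwise_of_maps_to hm, mul_sum]
  refine sum_le_sum fun k hk => ?_
  obtain ⟨hk1, hk2⟩ := mem_Icc.1 hk
  have hk0 : k ≠ 0 := by
    have : 1 ≤ n ^ 2 := Nat.one_le_pow _ _ hn
    omega
  rw [sum_congr rfl (g := fun _ => F k) (fun x hx => by rw [(mem_filter.1 hx).2]), sum_const,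
    nsmul_eq_mul]
  refine mul_le_mul_of_nonneg_right (le_trans ?_ (hD.2 k hk2)) (hF k)
  refine Nat.cast_le.2 (card_le_card_of_injOn (fun x => x.1) ?_ ?_)
  · intro x hx
    have h := (mem_filter.1 (mem_coe.1 hx)).2
    exact mem_coe.2 (Nat.mem_divisors.2 ⟨⟨x.2, h.symm⟩, hk0⟩)
  · intro x hx y hy hxy
    have h := (mem_filter.1 (mem_coe.1 hx)).2
    have h' := (mem_filter.1 (mem_coe.1 hy)).2
    have hxy' : x.1 = y.1 := hxy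
    have h0 : 0 < y.1 := Nat.pos_of_ne_zero fun h0 => hk0 (by rw [← h', h0, zero_mul])
    refine Prod.ext hxy' (Nat.eq_of_mul_eq_mul_left h0 ?_)
    rw [h', ← hxy', h]

lemma one_Pts (hT : TriangStmt) {N : ℕ} (hN : 1 ≤ N) (L : ℕ) {v : ℝ} (hv : 0 < v) :
    ∑ k ∈ Icc N (2 * N), ∑ j ∈ Icc N (2 * N), Fe L (v * ((k : ℝ) / j)) ≤
      ‖FT (Ioo (-(L : ℤ)) L) (fun u => ((L : ℝ) - |(u : ℝ)|) / L *
        ‖DP N (fun _ => 1) (((0 : ℤ) + u : ℤ) : ℝ)‖ ^ 2) v‖ := by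
  have h : FT (Ioo (-(L : ℤ)) L) (fun u => ((L : ℝ) - |(u : ℝ)|) / L *
        ‖DP N (fun _ => 1) (((0 : ℤ) + u : ℤ) : ℝ)‖ ^ 2) v =
      ((∑ k ∈ Icc N (2 * N), ∑ j ∈ Icc N (2 * N), Fe L (v * ((k : ℝ) / j)) : ℝ) : ℂ) := by
    rw [expand_Pt hT, Complex.ofReal_sum]
    refine sum_congr rfl fun k hk => ?_
    rw [Complex.ofReal_sum]
    refine sum_congr rfl fun j hj => ?_
    have h1 : (k : ℝ) ≠ 0 := Nat.cast_ne_zero.2 (by have := (mem_Icc.1 hk).1; omega)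
    have h2 : (j : ℝ) ≠ 0 := Nat.cast_ne_zero.2 (by have := (mem_Icc.1 hj).1; omega)
    rw [Fe, Real.log_mul hv.ne' (div_ne_zero h1 h2), Real.log_div h1 h2, Int.cast_zero, pw_zero,
      pw_zero, Complex.ofReal_div, add_sub_assoc, Complex.ofReal_natCast]
    simp only [mul_one, map_one]
    ring
  rw [h, Complex.norm_real, Real.norm_eq_abs]
  exact le_abs_self _

theorem pts_stmt (hT : TriangStmt) (hP : PtStmt) : PtsStmt := by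
  obtain ⟨C, hC, hP⟩ := hP
  refine ⟨C, hC, ?_⟩
  intro n M L Δ P b t₀ hn hL hLM hD hPs hb v hv
  have hv0 : 0 < v := Icc_sub_Ioi hv
  have hN : 1 ≤ n ^ 2 := Nat.one_le_pow _ _ hn
  have hΔ : 0 ≤ Δ := zero_le_one.trans hD.1
  have h5 := (one_Pts hT hN L hv0).trans
    (hP (n ^ 2) M L hN hL hLM (fun _ => 1) (fun _ => by simp) 0 v hv)
  rw [expand_Pts hT L P (pos_Pr hn hPs) b t₀ hv0]
  set f : ℕ → ℕ → ℕ → ℕ → ℝ := fun a c d e => ‖b a‖ * ‖b e‖ * (‖b c‖ * ‖b d‖ *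
    Fe L (v * (((a * e : ℕ) : ℝ) / ((c * d : ℕ) : ℝ)))) with hf
  have hf0 : ∀ a c d e, 0 ≤ f a c d e := fun a c d e => by
    have := Fe_nonneg L (v * (((a * e : ℕ) : ℝ) / ((c * d : ℕ) : ℝ)))
    simp only [hf]
    positivity
  calc _ ≤ ∑ p ∈ P, ∑ q ∈ P, f p.1 p.2 q.1 q.2 := by
        refine (norm_sum_le _ _).trans (sum_le_sum fun p _ => ?_)
        refine (norm_sum_le _ _).trans (sum_le_sum fun q _ => le_of_eq ?_)
        rw [norm_mul, norm_mul, norm_mul, norm_mul, norm_mul, norm_pw, Complex.norm_conj,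
          Complex.norm_conj, Complex.norm_real, Real.norm_of_nonneg (Fe_nonneg _ _)]
        simp only [hf]
        ring
    _ ≤ ∑ p ∈ Pr n, ∑ q ∈ Pr n, f p.1 p.2 q.1 q.2 := by
        refine (sum_le_sum fun p _ => sum_le_sum_of_subset_of_nonneg hPs
          fun q _ _ => hf0 _ _ _ _).trans ?_
        exact sum_le_sum_of_subset_of_nonneg hPs fun p _ _ => sum_nonneg fun q _ => hf0 _ _ _ _
    _ = ∑ x ∈ Pr n, ∑ y ∈ Pr n, f x.1 y.1 y.2 x.2 := reindex_Pts n f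
    _ ≤ ∑ x ∈ Pr n, ‖b x.1‖ * ‖b x.2‖ * (Δ * ∑ j ∈ Icc (n ^ 2) (2 * n ^ 2),
          Fe L (v * (((x.1 * x.2 : ℕ) : ℝ) / (j : ℝ)))) := by
        refine sum_le_sum fun x _ => ?_
        simp only [hf]
        rw [← mul_sum]
        exact mul_le_mul_of_nonneg_left
          (fibre_Pts hn hD hb (fun j => Fe L (v * (((x.1 * x.2 : ℕ) : ℝ) / (j : ℝ))))
            fun _ => Fe_nonneg _ _) (by positivity)
    _ ≤ Δ * ∑ k ∈ Icc (n ^ 2) (2 * n ^ 2), Δ * ∑ j ∈ Icc (n ^ 2) (2 * n ^ 2),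
          Fe L (v * ((k : ℝ) / (j : ℝ))) :=
        fibre_Pts hn hD hb (fun k => Δ * ∑ j ∈ Icc (n ^ 2) (2 * n ^ 2),
          Fe L (v * ((k : ℝ) / (j : ℝ))))
          fun _ => mul_nonneg hΔ (sum_nonneg fun _ _ => Fe_nonneg _ _)
    _ ≤ Δ * (Δ * (C * ((n ^ 2 : ℕ) : ℝ) ^ 2 * (1 + rho (n ^ 2) M v))) := by
        rw [← mul_sum]
        gcongr
    _ = _ := by
        push_cast
        ring

end Pool.Agent.MP_2a1f0e_nt.SQ
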