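import Pool.Agent.MP_2a1f0e_nt.SQ.Defs
import Pool.Agent.MP_2a1f0e_nt.GM2.Err

set_option autoImplicit false

open Finset

namespace Pool.Agent.MP_2a1f0e_nt.SQ

open GM GM2

open MeasureTheory in
lemma four_Qs (N M : ℕ) {f p lo hi : ℝ → ℝ} (nf : Nice f) (np : Nice p) (nl : Nice lo)
    (nh : Nice hi) (h : ∀ v, f v = lo v + hi v) :
    2 * Tr3 N M f p p ≤ Tr3 N M (fun v => lo v ^ 2) p (fun _ => 1) +
      Tr3 N M (fun _ => 1) p (fun v => p v ^ 2) + Tr3 N M hi (fun v => p v ^ 2) (fun _ => 1) +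
      Tr3 N M hi (fun _ => 1) (fun v => p v ^ 2) := by
  have i1 := int_Err N M (sq_Err nl) np one_Err
  have i2 := int_Err N M one_Err np (sq_Err np)
  have i3 := int_Err N M nh (sq_Err np) one_Err
  have i4 := int_Err N M nh one_Err (sq_Err np)
  rw [tr_eq_Err N M nf np np, tr_eq_Err N M (sq_Err nl) np one_Err,
    tr_eq_Err N M one_Err np (sq_Err np), tr_eq_Err N M nh (sq_Err np) one_Err,
    tr_eq_Err N M nh one_Err (sq_Err np)]
  have := sum6_Err (int_Err N M nf np np) i1 i2 i3 i4 (integrable_zero _ _ _)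
    (integrable_zero _ _ _) fun x => by
      have k := kp3_nonneg N M x.1 x.2
      have e1 := mul_nonneg (mul_nonneg (np.2.1 (x.2 / x.1)) (sq_nonneg (lo x.1 - p x.2))) k
      have e2 := mul_nonneg (mul_nonneg (nh.2.1 x.1) (sq_nonneg (p (x.2 / x.1) - p x.2))) k
      simp only [h, Pi.zero_apply]
      linarith
  simpa only [Pi.zero_apply, integral_zero, add_zero] using this

theorem qs_stmt (h3 : Three3Stmt) (hT : Tri2Stmt) (hPar : ParStmt) : QsStmt := by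
  obtain ⟨C₃, c₃, h3⟩ := h3
  obtain ⟨C₄, c₄, hT⟩ := hT
  refine ⟨3600 * C₃ * C₄, by positivity, fun N M Δ Y A B L s w m hN hD hL hw hm hA hB => ?_⟩
  have hY : 0 ≤ Y := (sum_nonneg fun _ _ => sq_nonneg _).trans hw
  have hΔ : 0 ≤ Δ := zero_le_one.trans hD.1
  have hN0 : (0 : ℝ) < N := by exact_mod_cast hN
  have hA0 : 0 ≤ A := (norm_nonneg _).trans (hA 1 (by norm_num))
  have nf := FT_Err s w
  have np := FT_Err s m
  have f2 := (hPar s w).trans (mul_le_mul_of_nonneg_left hw (by norm_num))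
  have p2 := (hPar s m).trans (mul_le_mul_of_nonneg_left hm (by norm_num))
  refine (h3 N M hN s w m m).trans ?_
  obtain ⟨f, hf⟩ : ∃ f : ℝ → ℝ, ∀ v, ‖FT s w v‖ = f v := ⟨_, fun _ => rfl⟩
  obtain ⟨p, hp⟩ : ∃ p : ℝ → ℝ, ∀ v, ‖FT s m v‖ = p v := ⟨_, fun _ => rfl⟩
  simp only [hf, hp] at nf np f2 p2 hA hB ⊢
  change Nice f at nf
  change Nice p at np
  change II p ≤ B at hB
  change _ * Tr3 N M f p p ≤ _
  obtain ⟨lo, hlo⟩ : ∃ lo : ℝ → ℝ, ∀ v, lo v = min (f v) L := ⟨_, fun _ => rfl⟩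
  obtain ⟨hi, hhi⟩ : ∃ hi : ℝ → ℝ, ∀ v, hi v = f v - lo v := ⟨_, fun _ => rfl⟩
  have nl : Nice lo := by
    refine ⟨?_, fun v => hlo v ▸ le_min (nf.2.1 v) hL.le, fun v => by rw [hlo, hlo, nf.2.2 v]⟩
    rw [show lo = _ from funext hlo]
    exact nf.1.inf continuousOn_const
  have l1 : ∀ v, lo v ≤ f v := fun v => hlo v ▸ min_le_left _ _
  have nh : Nice hi := by
    refine ⟨?_, fun v => hhi v ▸ sub_nonneg.2 (l1 v), fun v => by
      rw [hhi, hhi, nf.2.2 v, nl.2.2 v]⟩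
    rw [show hi = _ from funext hhi]
    exact nf.1.sub nl.1
  have u := four_Qs N M nf np nl nh fun v => by rw [hhi, add_sub_cancel]
  have t1 := (hT N M Δ hN hD _ _ (sq_Err nl) np).1
  have t2 := (hT N M Δ hN hD _ _ np (sq_Err np)).2.2
  obtain ⟨t3, t4, -⟩ := hT N M Δ hN hD _ _ nh (sq_Err np)
  have c2 : ∀ {a}, Nice a → ContinuousOn (fun v => a v ^ 2) (Set.Icc (1 / 9 : ℝ) (82 / 9)) :=
    fun h => (h.1.pow 2).mono Icc_sub_Ioi
  have b1 : II (fun v => lo v ^ 2) ≤ 60 * Y :=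
    (II_mono (c2 nl) (c2 nf) fun v _ => pow_le_pow_left₀ (nl.2.1 v) (l1 v) 2).trans f2
  have b2 : II (fun v => hi v ^ 2) ≤ 60 * Y :=
    (II_mono (c2 nh) (c2 nf) fun v _ => pow_le_pow_left₀ (nh.2.1 v)
      (hhi v ▸ sub_le_self _ (nl.2.1 v)) 2).trans f2
  have b3 : ∀ {a : ℝ → ℝ} {K : ℝ}, Nice a → 0 ≤ K → (∀ v ∈ Set.Icc (1 / 9 : ℝ) (82 / 9), a v ≤ K) →
      II (fun v => a v ^ 2) ≤ 60 * Y → √(II fun v => (a v ^ 2) ^ 2) ≤ K * √(60 * Y) := by
    intro a K na k0 hK h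
    have := II_mono (g := fun v => K ^ 2 * a v ^ 2) (c2 (sq_Err na))
      (continuousOn_const.mul (c2 na)) fun v hv => by
        rw [sq (a v ^ 2)]
        exact mul_le_mul_of_nonneg_right (pow_le_pow_left₀ (na.2.1 v) (hK v hv) 2) (sq_nonneg _)
    rw [II_mul_Err] at this
    refine Real.sqrt_le_iff.2 ⟨by positivity, this.trans ?_⟩
    rw [mul_pow, Real.sq_sqrt (by positivity)]
    gcongr
  have b4 : II hi ≤ L⁻¹ * (60 * Y) := by
    have := II_mono (g := fun v => L⁻¹ * f v ^ 2) (nh.1.mono Icc_sub_Ioi)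
      (continuousOn_const.mul (c2 nf)) fun v _ => by
        rw [le_inv_mul_iff₀ hL, hhi, hlo]
        have := nf.2.1 v
        rcases le_total (f v) L with h | h
        · rw [min_eq_left h, sub_self, mul_zero]
          positivity
        · rw [min_eq_right h]
          nlinarith
    rw [II_mul_Err] at this
    exact this.trans (by gcongr)
  have d1 := b3 nl hL.le (fun v _ => hlo v ▸ min_le_right _ _) b1
  have d2 := b3 np hA0 hA p2
  have d3 := Real.sqrt_le_sqrt p2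
  have d4 := Real.sqrt_le_sqrt b2
  have e0 : 0 ≤ II p := II_nonneg np.2.1
  have hB0 : 0 ≤ B := e0.trans hB
  have e1 : 0 ≤ II fun v => p v ^ 2 := II_nonneg fun _ => sq_nonneg _
  have sZ : √(60 * Y) * √(60 * Y) = 60 * Y := Real.mul_self_sqrt (by positivity)
  have s0 := Real.sqrt_nonneg (60 * Y)
  have w1 : PB N M Δ (fun v => lo v ^ 2) p ≤ (M : ℝ) ^ 2 / N * (60 * Y) * B +
      M * Δ / N * (L * √(60 * Y)) * √(60 * Y) := by
    unfold PB
    gcongr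
  have w2 : PB N M Δ p (fun v => p v ^ 2) ≤ (M : ℝ) ^ 2 / N * B * (60 * Y) +
      M * Δ / N * √(60 * Y) * (A * √(60 * Y)) := by
    unfold PB
    gcongr
  have w3 : PB N M Δ hi (fun v => p v ^ 2) ≤ (M : ℝ) ^ 2 / N * (L⁻¹ * (60 * Y)) * (60 * Y) +
      M * Δ / N * √(60 * Y) * (A * √(60 * Y)) := by
    unfold PB
    gcongr
  rw [mul_assoc _ (L * _), mul_assoc L, sZ] at w1
  rw [mul_assoc _ √_, mul_left_comm √_, sZ] at w2 w3
  have w4 : N * Tr3 N M f p p ≤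
      3600 * C₄ * ((M : ℝ) ^ 2 * Y * (B + Y / L) + M * Δ * Y * (A + L)) := by
    have k1 := mul_le_mul_of_nonneg_left (add_le_add (add_le_add w1 w2) (add_le_add w3 w3)) c₄.le
    have k2 : 2 * Tr3 N M f p p ≤ _ := le_trans (by linarith) k1
    have k3 := mul_le_mul_of_nonneg_left k2 hN0.le
    have z1 : 0 ≤ C₄ * ((M : ℝ) ^ 2 * Y * B) := by positivity
    have z2 : 0 ≤ C₄ * (M * Δ * Y * A) := by positivity
    have z3 : 0 ≤ C₄ * (M * Δ * Y * L) := by positivity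
    have k4 : (N : ℝ) * (C₄ * ((M : ℝ) ^ 2 / N * (60 * Y) * B + M * Δ / N * (L * (60 * Y)) +
        ((M : ℝ) ^ 2 / N * B * (60 * Y) + M * Δ / N * (A * (60 * Y))) +
        ((M : ℝ) ^ 2 / N * (L⁻¹ * (60 * Y)) * (60 * Y) + M * Δ / N * (A * (60 * Y)) +
        ((M : ℝ) ^ 2 / N * (L⁻¹ * (60 * Y)) * (60 * Y) + M * Δ / N * (A * (60 * Y)))))) =
        120 * (C₄ * ((M : ℝ) ^ 2 * Y * B)) + 7200 * (C₄ * ((M : ℝ) ^ 2 * Y * (Y / L))) +
          180 * (C₄ * (M * Δ * Y * A)) + 60 * (C₄ * (M * Δ * Y * L)) := by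
      field_simp
      ring
    rw [k4] at k3
    linarith
  have := mul_le_mul_of_nonneg_left w4 (show 0 ≤ C₃ * (N : ℝ) ^ 2 by positivity)
  linarith

end Pool.Agent.MP_2a1f0e_nt.SQ
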