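import Pool.Agent.MP_2a1f0e_nt.SQ.Defs
set_option autoImplicit false
open Finset
namespace Pool.Agent.MP_2a1f0e_nt.SQ
open GM GM2

lemma div_Row {A B : Finset ℕ} {X : ℕ} {Δ : ℝ} (hD : DivB X Δ) (G : ℕ → ℝ) (hG : ∀ x, 0 ≤ G x)
    (h : ∀ j ∈ A, ∀ a ∈ B, 1 ≤ j * a ∧ j * a ≤ X) :
    ∑ j ∈ A, ∑ a ∈ B, G (j * a) ≤ Δ * ∑ x ∈ Icc 1 X, G x := by
  have hm : ∀ q ∈ A ×ˢ B, q.1 * q.2 ∈ Icc 1 X := fun q hq =>
    mem_Icc.2 (h _ (mem_product.1 hq).1 _ (mem_product.1 hq).2)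
  rw [← sum_product', ← sum_fiberwise_of_maps_to hm, mul_sum]
  refine sum_le_sum fun x hx => ?_
  obtain ⟨h1, h2⟩ := mem_Icc.1 hx
  rw [sum_congr rfl (g := fun _ => G x) (fun q hq => by rw [(mem_filter.1 hq).2]), sum_const,
    nsmul_eq_mul]
  refine mul_le_mul_of_nonneg_right (le_trans ?_ (hD.2 x h2)) (hG x)
  have : ((A ×ˢ B).filter fun q => q.1 * q.2 = x).card ≤ x.divisors.card := by
    refine card_le_card_of_injOn (fun q => q.2) (fun q hq => ?_) (fun q hq q' hq' e => ?_)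
    · have := (mem_filter.1 (mem_coe.1 hq)).2
      exact mem_coe.2 (Nat.mem_divisors.2 ⟨Dvd.intro_left _ this, by omega⟩)
    · have e1 := (mem_filter.1 (mem_coe.1 hq)).2
      have e2 := (mem_filter.1 (mem_coe.1 hq')).2
      have e3 : q.2 = q'.2 := e
      have e4 : 0 < q'.2 := Nat.pos_of_ne_zero fun h0 => by rw [h0] at e2; omega
      refine Prod.ext (Nat.eq_of_mul_eq_mul_right e4 ?_) e3
      rw [e2, ← e3, e1]
  exact_mod_cast this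

lemma pt_Row (hF : FeStmt) {n L d a c j k : ℕ} (hn : 1 ≤ n) (hL : 1 ≤ L) (hd : 1 ≤ d)
    (a1 : n ≤ d * a) (a2 : d * a ≤ 2 * n) (c1 : n ≤ d * c) (c2 : d * c ≤ 2 * n)
    (hj : j ∈ Rg (n ^ 2)) (hk : k ∈ Rg (n ^ 2)) :
    Fe L ((j : ℝ) / k * (((d * a : ℕ) : ℝ) / (d * c : ℕ))) ≤
      20 * L * kp ((((j * a : ℕ) : ℝ) - (k * c : ℕ)) / (6 * (n : ℝ) ^ 3 / (L * d))) := by
  obtain ⟨⟨j1, j2⟩, j3⟩ := mem_Rg.1 hj
  obtain ⟨⟨k1, k2⟩, k3⟩ := mem_Rg.1 hk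
  have ha : 0 < a := Nat.pos_of_ne_zero fun h0 => by rw [h0] at a1; omega
  have hc : 0 < c := Nat.pos_of_ne_zero fun h0 => by rw [h0] at c1; omega
  have d0 : (0 : ℝ) < d := by exact_mod_cast hd
  have n0 : (0 : ℝ) < n := by exact_mod_cast hn
  have L0 : (0 : ℝ) < L := by exact_mod_cast hL
  have a0 : (0 : ℝ) < a := by exact_mod_cast ha
  have c0 : (0 : ℝ) < c := by exact_mod_cast hc
  have j0 : (0 : ℝ) < j := by exact_mod_cast j1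
  have k0 : (0 : ℝ) < k := by exact_mod_cast k1
  have up : ∀ u v : ℕ, u ≤ 3 * n ^ 2 → d * v ≤ 2 * n →
      (u : ℝ) * v ≤ 6 * (n : ℝ) ^ 3 / d := by
    intro u v h1 h2
    rw [le_div_iff₀ d0]
    have : u * v * d ≤ 6 * n ^ 3 := by
      calc u * v * d = u * (d * v) := by ring
        _ ≤ 3 * n ^ 2 * (2 * n) := Nat.mul_le_mul h1 h2
        _ = 6 * n ^ 3 := by ring
    exact_mod_cast this
  have cmp : ∀ u v u' v' : ℕ, u ≤ 3 * n ^ 2 → d * v ≤ 2 * n → 3 * n ^ 2 ≤ 4 * u' → n ≤ d * v' →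
      (u : ℝ) * v ≤ 20 * ((u' : ℝ) * v') := by
    intro u v u' v' h1 h2 h3 h4
    have e0 : d * v ≤ d * (2 * v') := by
      rw [Nat.mul_left_comm]; omega
    have e : v ≤ 2 * v' := Nat.le_of_mul_le_mul_left e0 hd
    have : u * v ≤ 20 * (u' * v') := by
      calc u * v ≤ 4 * u' * (2 * v') := Nat.mul_le_mul (h1.trans h3) e
        _ = 8 * (u' * v') := by ring
        _ ≤ 20 * (u' * v') := by omega
    exact_mod_cast this
  have h := hF L ((j : ℝ) * a) ((k : ℝ) * c) (6 * (n : ℝ) ^ 3 / d) hL (by positivity)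
    (by positivity) (up j a j2 a2) (up k c k2 c2) (cmp j a k c j2 a2 k3 c1)
    (cmp k c j a k2 c2 j3 a1)
  have e1 : (j : ℝ) / k * (((d * a : ℕ) : ℝ) / (d * c : ℕ)) = j * a / (k * c) := by
    push_cast; field_simp
  have e2 : (((j * a : ℕ) : ℝ) - (k * c : ℕ)) / (6 * (n : ℝ) ^ 3 / (L * d)) =
      L * (j * a - k * c) / (6 * (n : ℝ) ^ 3 / d) := by
    push_cast; field_simp
  rw [e1, e2]
  exact h

lemma inj_Row {n g : ℕ} (hn : 1 ≤ n) (F : ℕ × ℕ → ℝ) (G : ℕ → ℕ → ℕ → ℝ)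
    (hG : ∀ d c a, 0 ≤ G d c a)
    (h : ∀ d a c, 1 ≤ d → n ≤ d * a → d * a ≤ 2 * n → n ≤ d * c → d * c ≤ 2 * n →
      F (d * a, d * c) ≤ G d c a) :
    ∑ p ∈ Phi n g, F p ≤
      ∑ d ∈ Ioc g (2 * n), ∑ c ∈ Icc 1 (2 * n / d), ∑ a ∈ Icc 1 (2 * n), G d c a := by
  have hm : ∀ p ∈ Phi n g, Nat.gcd p.1 p.2 ∈ Ioc g (2 * n) := fun p hp => by
    obtain ⟨h1, h2⟩ := mem_filter.1 hp
    obtain ⟨⟨b1, b2⟩, -⟩ := mem_Pr.1 h1
    exact mem_Ioc.2 ⟨h2, (Nat.gcd_le_left _ (by omega)).trans b2⟩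
  rw [← sum_fiberwise_of_maps_to hm]
  refine sum_le_sum fun d hd => ?_
  have d0 : 1 ≤ d := by have := (mem_Ioc.1 hd).1; omega
  rw [← sum_product']
  have key : ∀ p ∈ (Phi n g).filter (fun p => Nat.gcd p.1 p.2 = d),
      p.1 = d * (p.1 / d) ∧ p.2 = d * (p.2 / d) ∧ (n ≤ p.1 ∧ p.1 ≤ 2 * n) ∧
        n ≤ p.2 ∧ p.2 ≤ 2 * n := fun p hp => by
    obtain ⟨h1, h2⟩ := mem_filter.1 hp
    exact ⟨(Nat.mul_div_cancel' (h2 ▸ Nat.gcd_dvd_left _ _)).symm,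
      (Nat.mul_div_cancel' (h2 ▸ Nat.gcd_dvd_right _ _)).symm, mem_Pr.1 (Phi_sub n g h1)⟩
  calc ∑ p ∈ (Phi n g).filter (fun p => Nat.gcd p.1 p.2 = d), F p
      ≤ ∑ p ∈ (Phi n g).filter (fun p => Nat.gcd p.1 p.2 = d),
          (fun q : ℕ × ℕ => G d q.1 q.2) ((fun p : ℕ × ℕ => (p.2 / d, p.1 / d)) p) := by
        refine sum_le_sum fun p hp => ?_
        obtain ⟨e1, e2, ⟨b1, b2⟩, b3, b4⟩ := key p hp
        have := h d (p.1 / d) (p.2 / d) d0 (e1 ▸ b1) (e1 ▸ b2) (e2 ▸ b3) (e2 ▸ b4)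
        rwa [← e1, ← e2] at this
    _ = ∑ q ∈ ((Phi n g).filter (fun p => Nat.gcd p.1 p.2 = d)).image
          (fun p : ℕ × ℕ => (p.2 / d, p.1 / d)), G d q.1 q.2 := by
        symm
        refine sum_image fun p hp p' hp' e => ?_
        obtain ⟨e1, e2, -⟩ := key p (mem_coe.1 hp)
        obtain ⟨e3, e4, -⟩ := key p' (mem_coe.1 hp')
        obtain ⟨e5, e6⟩ := Prod.mk.inj e
        exact Prod.ext (by rw [e1, e3, e6]) (by rw [e2, e4, e5])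
    _ ≤ _ := by
        refine sum_le_sum_of_subset_of_nonneg (fun q hq => ?_) fun q _ _ => hG _ _ _
        obtain ⟨p, hp, rfl⟩ := mem_image.1 hq
        obtain ⟨e1, e2, ⟨b1, b2⟩, b3, b4⟩ := key p hp
        refine mem_product.2 ⟨mem_Icc.2 ⟨Nat.pos_of_ne_zero fun h0 => ?_, Nat.div_le_div_right b4⟩,
          mem_Icc.2 ⟨Nat.pos_of_ne_zero fun h0 => ?_, (Nat.div_le_self _ _).trans b2⟩⟩
        · simp only at h0
          rw [h0] at e2; omega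
        · simp only at h0
          rw [h0] at e1; omega

lemma har_Row {n g : ℕ} {Δ : ℝ} (hn : 1 ≤ n) (hD : DivB (6 * n ^ 3) Δ) :
    ∑ d ∈ Ioc g (2 * n), (d : ℝ)⁻¹ ≤ 2 * Δ := by
  have h1 := harmonic_le_one_add_log (2 * n)
  simp_rw [harmonic_eq_sum_Icc, Rat.cast_sum, Rat.cast_inv, Rat.cast_natCast] at h1
  have h2 : ∑ d ∈ Ioc g (2 * n), (d : ℝ)⁻¹ ≤ ∑ d ∈ Icc 1 (2 * n), (d : ℝ)⁻¹ :=
    sum_le_sum_of_subset_of_nonneg (fun d hd => by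
      obtain ⟨a, b⟩ := mem_Ioc.1 hd
      exact mem_Icc.2 ⟨by omega, b⟩) fun _ _ _ => by positivity
  have h3 := DivB_log hD (Y := 2 * n) (by nlinarith [Nat.le_self_pow three_ne_zero n])
  have h4 : ((2 * n : ℕ) : ℝ) ≤ 2 ^ (Nat.log 2 (2 * n) + 1) := by
    exact_mod_cast (Nat.lt_pow_succ_log_self one_lt_two (2 * n)).le
  have h5 := Real.log_le_log (by positivity) h4
  rw [Real.log_pow] at h5
  have h6 : Real.log 2 ≤ 1 := by linarith [Real.log_two_lt_d9]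
  have h7 : ((Nat.log 2 (2 * n) + 1 : ℕ) : ℝ) * Real.log 2 ≤ (Nat.log 2 (2 * n) + 1 : ℕ) :=
    mul_le_of_le_one_right (Nat.cast_nonneg _) h6
  push_cast at h1 h5 h7
  linarith [hD.1]

lemma sq_Row {n g : ℕ} (hg : 1 ≤ g) : ∑ d ∈ Ioc g (2 * n), ((d : ℝ) ^ 2)⁻¹ ≤ (g : ℝ)⁻¹ := by
  rcases le_total g (2 * n) with h | h
  · exact (sum_Ioc_inv_sq_le_sub (by omega) h).trans (sub_le_self _ (by positivity))
  · rw [Ioc_eq_empty (not_lt.2 h), sum_empty]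
    positivity

theorem row_stmt (hF : FeStmt) : RowStmt := by
  refine ⟨960, by norm_num, fun n g L Δ hn hg hL hD k hk => ?_⟩
  have n0 : (0 : ℝ) < n := by exact_mod_cast hn
  have L0 : (0 : ℝ) < L := by exact_mod_cast hL
  have Δ1 := hD.1
  set G : ℕ → ℕ → ℕ → ℝ := fun d c x =>
    20 * L * kp (((x : ℝ) - (k * c : ℕ)) / (6 * (n : ℝ) ^ 3 / (L * d))) with hG
  have G0 : ∀ d c x, 0 ≤ G d c x := fun d c x => mul_nonneg (by positivity) (kp_pos _).le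
  have s1 : ∀ j ∈ Rg (n ^ 2), ∑ p ∈ Phi n g, Fe L ((j : ℝ) / k * ((p.1 : ℝ) / p.2)) ≤
      ∑ d ∈ Ioc g (2 * n), ∑ c ∈ Icc 1 (2 * n / d), ∑ a ∈ Icc 1 (2 * n), G d c (j * a) :=
    fun j hj => inj_Row hn _ (fun d c a => G d c (j * a)) (fun _ _ _ => G0 _ _ _)
      fun d a c hd a1 a2 c1 c2 => pt_Row hF hn hL hd a1 a2 c1 c2 hj hk
  have s2 : ∀ d ∈ Ioc g (2 * n), ∀ c : ℕ,
      ∑ j ∈ Rg (n ^ 2), ∑ a ∈ Icc 1 (2 * n), G d c (j * a) ≤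
        Δ * (20 * L * (2 + 4 * (6 * (n : ℝ) ^ 3 / (L * d)))) := by
    intro d hd c
    have d0 : (0 : ℝ) < d := by
      have := (mem_Ioc.1 hd).1
      exact_mod_cast (by omega : 0 < d)
    refine (div_Row hD (G d c) (G0 d c) fun j hj a ha => ?_).trans
      (mul_le_mul_of_nonneg_left ?_ (by linarith))
    · obtain ⟨⟨j1, j2⟩, -⟩ := mem_Rg.1 hj
      obtain ⟨a1, a2⟩ := mem_Icc.1 ha
      refine ⟨Nat.mul_pos j1 a1, (Nat.mul_le_mul j2 a2).trans_eq (by ring)⟩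
    · simp only [hG]
      rw [← mul_sum]
      exact mul_le_mul_of_nonneg_left (sum_kp_sep _ (fun x : ℕ => (x : ℝ)) (nat_sep _) _
        (by positivity)) (by positivity)
  have s3 : ∀ d ∈ Ioc g (2 * n), ∑ j ∈ Rg (n ^ 2), ∑ c ∈ Icc 1 (2 * n / d),
      ∑ a ∈ Icc 1 (2 * n), G d c (j * a) ≤
        80 * Δ * L * n * (d : ℝ)⁻¹ + 960 * Δ * (n : ℝ) ^ 4 * ((d : ℝ) ^ 2)⁻¹ := by
    intro d hd
    have d0 : (0 : ℝ) < d := by
      have := (mem_Ioc.1 hd).1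
      exact_mod_cast (by omega : 0 < d)
    rw [sum_comm]
    refine (sum_le_card_nsmul _ _ _ fun c _ => s2 d hd c).trans ?_
    rw [Nat.card_Icc, Nat.add_sub_cancel, nsmul_eq_mul]
    have e : ((2 * n / d : ℕ) : ℝ) ≤ 2 * n / d := by
      have := Nat.cast_div_le (α := ℝ) (m := 2 * n) (n := d)
      push_cast at this
      exact this
    refine (mul_le_mul_of_nonneg_right e (by positivity)).trans_eq ?_
    field_simp
    ring
  refine (sum_le_sum s1).trans ?_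
  rw [sum_comm]
  refine (sum_le_sum s3).trans ?_
  rw [sum_add_distrib, ← mul_sum, ← mul_sum]
  have t1 := mul_le_mul_of_nonneg_left (har_Row (g := g) hn hD)
    (by positivity : 0 ≤ 80 * Δ * L * n)
  have t2 := mul_le_mul_of_nonneg_left (sq_Row (n := n) hg)
    (by positivity : 0 ≤ 960 * Δ * (n : ℝ) ^ 4)
  have t3 : Δ * ((n : ℝ) ^ 4 * (g : ℝ)⁻¹) ≤ Δ ^ 2 * ((n : ℝ) ^ 4 * (g : ℝ)⁻¹) :=
    mul_le_mul_of_nonneg_right (by nlinarith) (by positivity)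
  have t4 : 0 ≤ Δ ^ 2 * (L * n) := by positivity
  rw [div_eq_mul_inv]
  nlinarith

end Pool.Agent.MP_2a1f0e_nt.SQ
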