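import Pool.Agent.MP_2a1f0e_nt.SQ.Defs

set_option autoImplicit false

open Finset

namespace Pool.Agent.MP_2a1f0e_nt.SQ

open GM GM2

lemma sub_Sch {N : ℕ} (hN : 1 ≤ N) : Icc N (2 * N) ⊆ Rg N := fun k hk => by
  rw [mem_Icc] at hk
  rw [mem_Rg]
  omega

lemma al_eq_Sch {N : ℕ} (hN : 1 ≤ N) (β : ℕ → ℂ) (s : Finset ℤ) (g : ℤ → ℝ) {k : ℕ}
    (hk : 1 ≤ k) : al N β s g k = ∑ j ∈ Icc N (2 * N), β j * FT s g ((j : ℝ) / k) := by
  unfold al DP FT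
  simp only [mul_sum, sum_mul]
  rw [sum_comm]
  refine sum_congr rfl fun j hj => sum_congr rfl fun t _ => ?_
  have h1 : (j : ℝ) ≠ 0 := Nat.cast_ne_zero.2 (by have := (mem_Icc.1 hj).1; omega)
  have h2 : (k : ℝ) ≠ 0 := Nat.cast_ne_zero.2 (by omega)
  rw [pw_div h1 h2]
  ring

theorem sch_stmt : SchStmt := by
  intro N β s g R hN hR
  have hs := sub_Sch hN
  have R0 : 0 ≤ R := (sum_nonneg fun _ _ => norm_nonneg _).trans
    (hR N (hs (mem_Icc.2 ⟨le_rfl, by omega⟩)))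
  refine (NW_le_Rg hN _).trans ?_
  have h1 : ∀ k ∈ Rg N, ‖al N β s g k‖ ^ 2 ≤
      R * ∑ j ∈ Icc N (2 * N), ‖FT s g ((j : ℝ) / k)‖ * ‖β j‖ ^ 2 := by
    intro k hk
    rw [al_eq_Sch hN β s g (mem_Rg.1 hk).1.1]
    refine (pow_le_pow_left₀ (norm_nonneg _) (norm_sum_le _ _) 2).trans ?_
    refine (sum_sq_le_sum_mul_sum_of_sq_le_mul _ (f := fun j : ℕ => ‖FT s g ((j : ℝ) / k)‖)
      (g := fun j : ℕ => ‖FT s g ((j : ℝ) / k)‖ * ‖β j‖ ^ 2) (fun _ _ => norm_nonneg _)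
      (fun _ _ => by positivity) fun j _ => le_of_eq (by rw [norm_mul]; ring)).trans ?_
    exact mul_le_mul_of_nonneg_right
      ((sum_le_sum_of_subset_of_nonneg hs fun _ _ _ => norm_nonneg _).trans (hR k hk))
      (sum_nonneg fun _ _ => by positivity)
  refine (sum_le_sum h1).trans ?_
  rw [← mul_sum, sum_comm, sq R, mul_assoc]
  refine mul_le_mul_of_nonneg_left ?_ R0
  rw [mul_sum]
  refine sum_le_sum fun j hj => ?_
  rw [← sum_mul]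
  refine mul_le_mul_of_nonneg_right (le_trans (le_of_eq ?_) (hR j (hs hj))) (sq_nonneg _)
  exact sum_congr rfl fun k _ => by rw [← norm_FT_inv, inv_div]

lemma mv_Sch {N L : ℕ} (hN : 1 ≤ N) (hL : N ≤ L) (c : ℕ → ℂ) :
    ∑ t ∈ Io L, ‖∑ k ∈ Rg N, c k * pw (k : ℝ) (t : ℝ)‖ ^ 2 ≤
      576 * L * ∑ k ∈ Rg N, ‖c k‖ ^ 2 := by
  have hL' : (N : ℝ) ≤ L := by exact_mod_cast hL
  have h1 := mv_kernel (Rg N) (fun k => c k * pw (k : ℝ) (-(L : ℝ))) (fun k => ‖c k‖)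
    (fun k _ => by rw [norm_mul, norm_pw, mul_one]) 2 (2 * L) (by norm_num) (by omega)
    (3 * N) 4 (by norm_num) (by push_cast; linarith) (fun k hk => (mem_Rg.1 hk).1.1)
    (fun k hk => by exact_mod_cast (mem_Rg.1 hk).1.2)
    (fun k hk j hj => by
      have := mem_Rg.1 hk
      have := mem_Rg.1 hj
      omega)
  have h2 := kernel_schur (Rg N) (fun k => ‖c k‖) (H := 4) (by norm_num)
  have h3 : ∑ t ∈ Io L, ‖∑ k ∈ Rg N, c k * pw (k : ℝ) (t : ℝ)‖ ^ 2 ≤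
      ∑ t ∈ Icc 1 (2 * L), ‖∑ k ∈ Rg N, c k * pw (k : ℝ) (-(L : ℝ)) * nit t k‖ ^ 2 := by
    have e : ∀ t : ℕ, ‖∑ k ∈ Rg N, c k * pw (k : ℝ) (-(L : ℝ)) * nit t k‖ ^ 2 =
        ‖∑ k ∈ Rg N, c k * pw (k : ℝ) (((t : ℤ) - L : ℤ) : ℝ)‖ ^ 2 := fun t => by
      congr 2
      refine sum_congr rfl fun k _ => ?_
      have : nit t k = pw (k : ℝ) (t : ℝ) := by
        unfold pw nit
        simp
      rw [this, mul_assoc, ← pw_add]
      congr 2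
      push_cast
      ring
    simp only [e]
    rw [← sum_image (s := Icc 1 (2 * L)) (g := fun t : ℕ => (t : ℤ) - L)
      (f := fun t : ℤ => ‖∑ k ∈ Rg N, c k * pw (k : ℝ) (t : ℝ)‖ ^ 2)
      (fun a _ b _ h => by simpa using h)]
    refine sum_le_sum_of_subset_of_nonneg (fun t ht => ?_) fun _ _ _ => sq_nonneg _
    obtain ⟨a1, a2⟩ := mem_Io.1 ht
    exact mem_image.2 ⟨(t + L).toNat, mem_Icc.2 ⟨by omega, by omega⟩, by omega⟩
  refine h3.trans (h1.trans ((mul_le_mul_of_nonneg_left h2 (by positivity)).trans_eq ?_))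
  push_cast
  ring

theorem dual_stmt : DualStmt := by
  refine ⟨576, by norm_num, fun N L y hN hL => (NW_le_Rg hN _).trans ?_⟩
  set c : ℕ → ℂ := fun k => ∑ t ∈ Io L, y t * pw (k : ℝ) (-(t : ℝ)) with hc
  have h1 := mv_Sch hN hL c
  have h2 : ((∑ k ∈ Rg N, ‖c k‖ ^ 2 : ℝ) : ℂ) =
      ∑ t ∈ Io L, y t * (starRingEnd ℂ) (∑ k ∈ Rg N, c k * pw (k : ℝ) (t : ℝ)) := by
    simp only [map_sum, mul_sum, map_mul, conj_pw]
    rw [sum_comm, Complex.ofReal_sum]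
    refine sum_congr rfl fun k _ => ?_
    rw [Complex.ofReal_pow, ← Complex.mul_conj']
    generalize (starRingEnd ℂ) (c k) = z
    simp only [hc, sum_mul]
    exact sum_congr rfl fun t _ => by ring
  have A0 : 0 ≤ ∑ k ∈ Rg N, ‖c k‖ ^ 2 := sum_nonneg fun _ _ => sq_nonneg _
  have h3 : ∑ k ∈ Rg N, ‖c k‖ ^ 2 ≤
      ∑ t ∈ Io L, ‖y t‖ * ‖∑ k ∈ Rg N, c k * pw (k : ℝ) (t : ℝ)‖ := by
    rw [← Real.norm_of_nonneg A0, ← Complex.norm_real, h2]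
    refine (norm_sum_le _ _).trans (le_of_eq (sum_congr rfl fun t _ => ?_))
    rw [norm_mul, Complex.norm_conj]
  have h4 := (pow_le_pow_left₀ A0 h3 2).trans (sum_mul_sq_le_sq_mul_sq _ _ _)
  have Y0 : 0 ≤ ∑ t ∈ Io L, ‖y t‖ ^ 2 := sum_nonneg fun _ _ => sq_nonneg _
  have h5 := h4.trans (mul_le_mul_of_nonneg_left h1 Y0)
  change ∑ k ∈ Rg N, ‖c k‖ ^ 2 ≤ _
  rcases A0.eq_or_lt with h | h
  · rw [← h]
    positivity
  · exact le_of_mul_le_mul_right (by linarith) h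

end Pool.Agent.MP_2a1f0e_nt.SQ
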