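import Pool.Agent.MP_2a1f0e_nt.SQ.Defs
import Pool.Agent.MP_2a1f0e_nt.GM.Cub

set_option autoImplicit false

open Finset

namespace Pool.Agent.MP_2a1f0e_nt.SQ

open GM GM2

lemma dual_Sos (N : ℕ) (hN : 1 ≤ N) (β : ℕ → ℂ) (H : ℝ)
    (hβ : ∑ k ∈ Icc N (2 * N), ‖β k‖ ^ 2 ≤ H) (I : Finset ℤ) (z : ℤ → ℂ) :
    ‖∑ t ∈ I, z t * DP N β t‖ ^ 2 ≤
      H * ∑ n ∈ Icc 1 (3 * N), Wt ((n : ℝ) / N) * ‖∑ t ∈ I, z t * pw (n : ℝ) t‖ ^ 2 := by
  have hN' : (1 : ℝ) ≤ N := by exact_mod_cast hN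
  have h1 : ∑ t ∈ I, z t * DP N β t = ∑ n ∈ Icc N (2 * N), β n * ∑ t ∈ I, z t * pw (n : ℝ) t := by
    simp only [DP, mul_sum]
    rw [sum_comm]
    exact sum_congr rfl fun n _ => sum_congr rfl fun t _ => by ring
  have h2 : ‖∑ t ∈ I, z t * DP N β t‖ ≤
      ∑ n ∈ Icc N (2 * N), ‖β n‖ * ‖∑ t ∈ I, z t * pw (n : ℝ) t‖ := by
    rw [h1]
    exact (norm_sum_le _ _).trans (le_of_eq (sum_congr rfl fun n _ => norm_mul _ _))
  have h3 := sum_mul_sq_le_sq_mul_sq (Icc N (2 * N)) (fun n => ‖β n‖)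
    fun n : ℕ => ‖∑ t ∈ I, z t * pw (n : ℝ) t‖
  have h5 : ∑ n ∈ Icc N (2 * N), ‖∑ t ∈ I, z t * pw (n : ℝ) t‖ ^ 2 ≤
      ∑ n ∈ Icc 1 (3 * N), Wt ((n : ℝ) / N) * ‖∑ t ∈ I, z t * pw (n : ℝ) t‖ ^ 2 := by
    calc _ = ∑ n ∈ Icc N (2 * N), Wt ((n : ℝ) / N) * ‖∑ t ∈ I, z t * pw (n : ℝ) t‖ ^ 2 := by
          refine sum_congr rfl fun n hn => ?_
          obtain ⟨k1, k2⟩ := mem_Icc.1 hn
          have k1' : (N : ℝ) ≤ n := by exact_mod_cast k1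
          have k2' : (n : ℝ) ≤ 2 * N := by exact_mod_cast k2
          rw [Wt_eq_one (by rw [le_div_iff₀ (by linarith)]; linarith)
            (by rw [div_le_iff₀ (by linarith)]; linarith), one_mul]
      _ ≤ _ := sum_le_sum_of_subset_of_nonneg (Icc_subset_Icc hN (by omega))
          fun n _ _ => mul_nonneg (Wt_nonneg _) (sq_nonneg _)
  calc _ ≤ (∑ n ∈ Icc N (2 * N), ‖β n‖ * ‖∑ t ∈ I, z t * pw (n : ℝ) t‖) ^ 2 :=
        pow_le_pow_left₀ (norm_nonneg _) h2 2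
    _ ≤ _ := h3
    _ ≤ _ := mul_le_mul hβ h5 (sum_nonneg fun _ _ => sq_nonneg _)
        ((sum_nonneg fun _ _ => sq_nonneg _).trans hβ)

lemma key_Sos (N M : ℕ) (hN : 1 ≤ N) (β : ℕ → ℂ) (H : ℝ)
    (hβ : ∑ k ∈ Icc N (2 * N), ‖β k‖ ^ 2 ≤ H) (I : Finset ℤ) (E : ℝ)
    (hE : HE N M I E) (z : ℤ → ℂ) : ‖∑ t ∈ I, z t * DP N β t‖ ^ 2 ≤
      H * ((∑ t ∈ I, ∑ t' ∈ I, z t * Kb N M ((t : ℝ) - t') * (starRingEnd ℂ) (z t')).re +
        E * ∑ t ∈ I, ‖z t‖ ^ 2) := by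
  refine (dual_Sos N hN β H hβ I z).trans (mul_le_mul_of_nonneg_left ?_
    ((sum_nonneg fun _ _ => sq_nonneg _).trans hβ))
  have h1 := congrArg Complex.re (gram_Cub N I z)
  rw [Complex.ofReal_re] at h1
  rw [← h1]
  have h2 : ∑ t ∈ I, ∑ t' ∈ I, z t * KK N ((t : ℝ) - t') * (starRingEnd ℂ) (z t') =
      ∑ t ∈ I, ∑ t' ∈ I, z t * Kb N M ((t : ℝ) - t') * (starRingEnd ℂ) (z t') +
      ∑ t ∈ I, ∑ t' ∈ I,
        z t * (KK N ((t : ℝ) - t') - Kb N M ((t : ℝ) - t')) * (starRingEnd ℂ) (z t') := by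
    rw [← sum_add_distrib]
    refine sum_congr rfl fun t _ => ?_
    rw [← sum_add_distrib]
    exact sum_congr rfl fun t' _ => by ring
  rw [h2, Complex.add_re]
  exact add_le_add le_rfl ((Complex.re_le_norm _).trans (schur_Cub N M I E hE z))

lemma gram_Sos (N : ℕ) (I : Finset ℤ) (x z : ℤ → ℂ) :
    ∑ p ∈ I, ∑ q ∈ I, x p * KK N ((p : ℝ) - q) * (starRingEnd ℂ) (z q) =
      ∑ n ∈ Icc 1 (3 * N), (Wt ((n : ℝ) / N) : ℂ) * ((∑ p ∈ I, x p * pw (n : ℝ) p) *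
        (starRingEnd ℂ) (∑ q ∈ I, z q * pw (n : ℝ) q)) := by
  have h1 : ∀ n : ℕ, (Wt ((n : ℝ) / N) : ℂ) * ((∑ p ∈ I, x p * pw (n : ℝ) p) *
        (starRingEnd ℂ) (∑ q ∈ I, z q * pw (n : ℝ) q)) = ∑ p ∈ I, ∑ q ∈ I,
        x p * ((Wt ((n : ℝ) / N) : ℂ) * pw (n : ℝ) ((p : ℝ) - q)) * (starRingEnd ℂ) (z q) := by
    intro n
    rw [map_sum, sum_mul_sum, mul_sum]
    refine sum_congr rfl fun p _ => ?_
    rw [mul_sum]
    refine sum_congr rfl fun q _ => ?_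
    rw [pw_sub, map_mul]
    ring
  simp only [h1]
  rw [sum_comm (s := Icc 1 (3 * N))]
  refine sum_congr rfl fun p _ => ?_
  rw [sum_comm (s := Icc 1 (3 * N))]
  refine sum_congr rfl fun q _ => ?_
  rw [KK, mul_sum, sum_mul]

lemma schur_Sos (N M : ℕ) (I : Finset ℤ) (E : ℝ) (hE0 : 0 ≤ E) (hE : HE N M I E) (x z : ℤ → ℂ)
    (P P' : ℝ) (hx : ∑ p ∈ I, ‖x p‖ ^ 2 ≤ P) (hz : ∑ p ∈ I, ‖z p‖ ^ 2 ≤ P') :
    ‖∑ p ∈ I, ∑ q ∈ I, x p * (KK N ((p : ℝ) - q) - Kb N M ((p : ℝ) - q)) *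
      (starRingEnd ℂ) (z q)‖ ^ 2 ≤ E ^ 2 * (P * P') := by
  have h1 : ‖∑ p ∈ I, ∑ q ∈ I,
      x p * (KK N ((p : ℝ) - q) - Kb N M ((p : ℝ) - q)) * (starRingEnd ℂ) (z q)‖ ≤
      ∑ r ∈ I ×ˢ I, ‖x r.1‖ * ‖KK N ((r.1 : ℝ) - r.2) - Kb N M ((r.1 : ℝ) - r.2)‖ * ‖z r.2‖ := by
    rw [sum_product]
    refine (norm_sum_le _ _).trans (sum_le_sum fun p _ => ?_)
    refine (norm_sum_le _ _).trans (le_of_eq (sum_congr rfl fun q _ => ?_))
    rw [norm_mul, norm_mul, Complex.norm_conj]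
  have h2 : ∀ (y : ℤ → ℂ) (Y : ℝ), ∑ p ∈ I, ‖y p‖ ^ 2 ≤ Y →
      ∑ p ∈ I, ∑ q ∈ I, ‖y p‖ ^ 2 * ‖KK N ((p : ℝ) - q) - Kb N M ((p : ℝ) - q)‖ ≤ E * Y := by
    intro y Y hy
    calc _ ≤ ∑ p ∈ I, ‖y p‖ ^ 2 * E := by
          refine sum_le_sum fun p hp => ?_
          rw [← mul_sum]
          exact mul_le_mul_of_nonneg_left (hE p hp) (sq_nonneg _)
      _ = E * ∑ p ∈ I, ‖y p‖ ^ 2 := by rw [← sum_mul, mul_comm]
      _ ≤ _ := mul_le_mul_of_nonneg_left hy hE0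
  have h3 := sum_sq_le_sum_mul_sum_of_sq_le_mul (I ×ˢ I)
    (r := fun r => ‖x r.1‖ * ‖KK N ((r.1 : ℝ) - r.2) - Kb N M ((r.1 : ℝ) - r.2)‖ * ‖z r.2‖)
    (f := fun r => ‖x r.1‖ ^ 2 * ‖KK N ((r.1 : ℝ) - r.2) - Kb N M ((r.1 : ℝ) - r.2)‖)
    (g := fun r => ‖z r.2‖ ^ 2 * ‖KK N ((r.2 : ℝ) - r.1) - Kb N M ((r.2 : ℝ) - r.1)‖)
    (fun _ _ => by positivity) (fun _ _ => by positivity) fun r _ => by
      rw [norm_K1_sub N M (r.2 : ℝ) r.1]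
      exact le_of_eq (by ring)
  have h4 := h2 x P hx
  have h5 := h2 z P' hz
  rw [sum_comm] at h5
  rw [← sum_product'] at h4 h5
  have hP : 0 ≤ P := (sum_nonneg fun _ _ => sq_nonneg _).trans hx
  calc _ ≤ _ := pow_le_pow_left₀ (norm_nonneg _) h1 2
    _ ≤ _ := h3
    _ ≤ E * P * (E * P') :=
        mul_le_mul h4 h5 (sum_nonneg fun _ _ => by positivity) (mul_nonneg hE0 hP)
    _ = _ := by ring

lemma conj_al_Sos (N : ℕ) (β : ℕ → ℂ) (s : Finset ℤ) (g : ℤ → ℝ) (k : ℕ) :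
    ∑ t ∈ s, (g t : ℂ) * (starRingEnd ℂ) (DP N β t) * pw (k : ℝ) t =
      (starRingEnd ℂ) (al N β s g k) := by
  rw [al, map_sum]
  refine sum_congr rfl fun t _ => ?_
  rw [map_mul, map_mul, conj_pw, neg_neg, Complex.conj_ofReal]

lemma re_Sos (u v : ℂ) : 3 / 4 * ‖u‖ ^ 2 - ‖v‖ ^ 2 ≤ ((starRingEnd ℂ) u * (u + v)).re := by
  rw [Complex.sq_norm, Complex.sq_norm, Complex.normSq_apply, Complex.normSq_apply]
  simp only [Complex.mul_re, Complex.conj_re, Complex.conj_im, Complex.add_re, Complex.add_im]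
  nlinarith [sq_nonneg (u.re / 2 + v.re), sq_nonneg (u.im / 2 + v.im)]

theorem sos_stmt : SosStmt := by
  intro N M β s w m E S H Λ P P' X hN hE0 hS0 hH hE hβ hw hX hS hΛ hP hP'
  by_contra hc
  simp only [not_or, not_le] at hc
  obtain ⟨c1, c2, c3⟩ := hc
  have hX0 : 0 ≤ X := hX ▸ sum_nonneg fun t ht => mul_nonneg (hw t ht) (sq_nonneg _)
  have hΛ0 : 0 ≤ Λ := (NW_nonneg _ _).trans hΛ
  have hpos : 0 < X := hX0.lt_of_ne fun h => by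
    rw [← h] at c1
    have : 0 ≤ 4 * H * Λ := by positivity
    linarith
  have nx : ∀ (g : ℤ → ℝ) (t : ℤ), ‖(g t : ℂ) * (starRingEnd ℂ) (DP N β t)‖ ^ 2 =
      g t ^ 2 * ‖DP N β t‖ ^ 2 := fun g t => by
    rw [norm_mul, Complex.norm_conj, Complex.norm_real, Real.norm_eq_abs, mul_pow, sq_abs]
  set Z : ℤ → ℂ := fun a => ∑ t ∈ s, (Kb N M ((a : ℝ) - t) * m t) * DP N β t with hZ
  set Q : ℂ := ∑ a ∈ s, (w a : ℂ) * (starRingEnd ℂ) (DP N β a) * Z a with hQ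
  -- lower bound
  have a1 := dual_Sos N hN β H hβ s fun t => (w t : ℂ) * (starRingEnd ℂ) (DP N β t)
  have a2 : ∑ t ∈ s, (w t : ℂ) * (starRingEnd ℂ) (DP N β t) * DP N β t = (X : ℂ) := by
    rw [hX, Complex.ofReal_sum]
    refine sum_congr rfl fun t _ => ?_
    rw [mul_assoc, Complex.conj_mul']
    push_cast
    ring
  simp only [conj_al_Sos, Complex.norm_conj] at a1
  rw [a2, Complex.norm_real, Real.norm_eq_abs, sq_abs] at a1
  change X ^ 2 ≤ H * NW N (al N β s w) at a1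
  have a3 := gram_Sos N s (fun t => (w t : ℂ) * (starRingEnd ℂ) (DP N β t))
    fun t => (m t : ℂ) * (starRingEnd ℂ) (DP N β t)
  simp only [conj_al_Sos, Complex.conj_conj] at a3
  have a4 := schur_Sos N M s E hE0 hE (fun t => (w t : ℂ) * (starRingEnd ℂ) (DP N β t))
    (fun t => (m t : ℂ) * (starRingEnd ℂ) (DP N β t)) P P' (by simpa only [nx] using hP)
    (by simpa only [nx] using hP')
  have a5 : ∑ p ∈ s, ∑ q ∈ s, (w p : ℂ) * (starRingEnd ℂ) (DP N β p) * KK N ((p : ℝ) - q) *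
      (starRingEnd ℂ) ((m q : ℂ) * (starRingEnd ℂ) (DP N β q)) = Q +
      ∑ p ∈ s, ∑ q ∈ s, (w p : ℂ) * (starRingEnd ℂ) (DP N β p) *
        (KK N ((p : ℝ) - q) - Kb N M ((p : ℝ) - q)) *
        (starRingEnd ℂ) ((m q : ℂ) * (starRingEnd ℂ) (DP N β q)) := by
    rw [hQ, ← sum_add_distrib]
    refine sum_congr rfl fun p _ => ?_
    rw [hZ, mul_sum, ← sum_add_distrib]
    refine sum_congr rfl fun q _ => ?_
    rw [map_mul, Complex.conj_conj, Complex.conj_ofReal]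
    ring
  have a6 : 3 / 4 * NW N (al N β s w) - NW N (al N β s fun t => m t - w t) ≤
      (∑ n ∈ Icc 1 (3 * N), (Wt ((n : ℝ) / N) : ℂ) *
        ((starRingEnd ℂ) (al N β s w n) * al N β s m n)).re := by
    rw [NW, NW, mul_sum, ← sum_sub_distrib, Complex.re_sum]
    refine sum_le_sum fun n _ => ?_
    have k1 : al N β s m n = al N β s w n + al N β s (fun t => m t - w t) n := by
      rw [al, al, al, ← sum_add_distrib]
      refine sum_congr rfl fun t _ => ?_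
      push_cast
      ring
    rw [Complex.re_ofReal_mul, k1]
    have := mul_le_mul_of_nonneg_left
      (re_Sos (al N β s w n) (al N β s (fun t => m t - w t) n)) (Wt_nonneg ((n : ℝ) / N))
    linarith
  rw [← a3, a5, Complex.add_re] at a6
  generalize ∑ p ∈ s, ∑ q ∈ s, (w p : ℂ) * (starRingEnd ℂ) (DP N β p) *
        (KK N ((p : ℝ) - q) - Kb N M ((p : ℝ) - q)) *
        (starRingEnd ℂ) ((m q : ℂ) * (starRingEnd ℂ) (DP N β q)) = R at a4 a6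
  have a7 : 4 * H * ‖R‖ ≤ X ^ 2 := by
    refine le_of_pow_le_pow_left₀ two_ne_zero (sq_nonneg X) ?_
    have := mul_le_mul_of_nonneg_left a4 (show 0 ≤ 16 * H ^ 2 by positivity)
    nlinarith
  have a8 : X ^ 2 ≤ 4 * H * ‖Q‖ := by
    have k1 := Complex.re_le_norm Q
    have k2 := Complex.re_le_norm R
    have k3 : 3 / 4 * NW N (al N β s w) - Λ ≤ ‖Q‖ + ‖R‖ := by linarith
    have k4 := mul_le_mul_of_nonneg_left k3 hH.le
    nlinarith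
  -- upper bound
  have d1 : ‖Q‖ ^ 2 ≤ X * ∑ a ∈ s, w a * ‖Z a‖ ^ 2 := by
    have k1 : ‖Q‖ ≤ ∑ a ∈ s, w a * ‖DP N β a‖ * ‖Z a‖ := by
      refine (norm_sum_le _ _).trans (le_of_eq (sum_congr rfl fun a ha => ?_))
      rw [norm_mul, norm_mul, Complex.norm_conj, Complex.norm_real, Real.norm_eq_abs,
        abs_of_nonneg (hw a ha)]
    refine (pow_le_pow_left₀ (norm_nonneg _) k1 2).trans ?_
    rw [hX]
    exact sum_sq_le_sum_mul_sum_of_sq_le_mul s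
      (fun a ha => mul_nonneg (hw a ha) (sq_nonneg _))
      (fun a ha => mul_nonneg (hw a ha) (sq_nonneg _)) fun a _ => le_of_eq (by ring)
  have d2 : ∀ a ∈ s, ‖Z a‖ ^ 2 ≤ H * ((∑ t ∈ s, ∑ t' ∈ s, (Kb N M ((a : ℝ) - t) * m t) *
      Kb N M ((t : ℝ) - t') * (starRingEnd ℂ) (Kb N M ((a : ℝ) - t') * m t')).re + E * S) := by
    intro a ha
    refine (key_Sos N M hN β H hβ s E hE fun t => Kb N M ((a : ℝ) - t) * m t).trans
      (mul_le_mul_of_nonneg_left (add_le_add le_rfl (mul_le_mul_of_nonneg_left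
        (le_trans (le_of_eq (sum_congr rfl fun t _ => ?_)) (hS a ha)) hE0)) hH.le)
    rw [norm_mul, Complex.norm_real, Real.norm_eq_abs, mul_pow, sq_abs, mul_comm]
  have e1 : ∑ a ∈ s, w a * (∑ t ∈ s, ∑ t' ∈ s, (Kb N M ((a : ℝ) - t) * m t) *
      Kb N M ((t : ℝ) - t') * (starRingEnd ℂ) (Kb N M ((a : ℝ) - t') * m t')).re =
      (Q33 N M s w m m).re := by
    rw [Q33, Complex.re_sum]
    refine sum_congr rfl fun a _ => ?_
    rw [← Complex.re_ofReal_mul, mul_sum]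
    congr 1
    refine sum_congr rfl fun t _ => ?_
    rw [mul_sum]
    refine sum_congr rfl fun t' _ => ?_
    rw [map_mul, conj_Kb, Complex.conj_ofReal, neg_sub]
    push_cast
    ring
  have e3 : ∑ a ∈ s, w a * ‖Z a‖ ^ 2 ≤ H * (‖Q33 N M s w m m‖ + E * S * ∑ t ∈ s, w t) := by
    calc _ ≤ ∑ a ∈ s, w a * (H * ((∑ t ∈ s, ∑ t' ∈ s, (Kb N M ((a : ℝ) - t) * m t) *
          Kb N M ((t : ℝ) - t') * (starRingEnd ℂ) (Kb N M ((a : ℝ) - t') * m t')).re + E * S)) :=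
          sum_le_sum fun a ha => mul_le_mul_of_nonneg_left (d2 a ha) (hw a ha)
      _ = H * ((Q33 N M s w m m).re + E * S * ∑ t ∈ s, w t) := by
          rw [← e1, mul_sum (s := s) (a := E * S), ← sum_add_distrib, mul_sum]
          exact sum_congr rfl fun a _ => by ring
      _ ≤ _ := mul_le_mul_of_nonneg_left (add_le_add (Complex.re_le_norm _) le_rfl) hH.le
  have f1 : X * X ^ 3 ≤ X * (16 * H ^ 3 * (‖Q33 N M s w m m‖ + E * S * ∑ t ∈ s, w t)) := by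
    calc X * X ^ 3 = (X ^ 2) ^ 2 := by ring
      _ ≤ (4 * H * ‖Q‖) ^ 2 := pow_le_pow_left₀ (sq_nonneg _) a8 2
      _ = 16 * H ^ 2 * ‖Q‖ ^ 2 := by ring
      _ ≤ 16 * H ^ 2 * (X * (H * (‖Q33 N M s w m m‖ + E * S * ∑ t ∈ s, w t))) :=
          mul_le_mul_of_nonneg_left (d1.trans (mul_le_mul_of_nonneg_left e3 hX0)) (by positivity)
      _ = _ := by ring
  exact absurd (le_of_mul_le_mul_left f1 hpos) (not_le.2 c3)

end Pool.Agent.MP_2a1f0e_nt.SQ
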