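import Pool.Agent.MP_2a1f0e_nt.SQ.Defs
import Pool.Agent.MP_2a1f0e_nt.GM.SSt

set_option autoImplicit false

open Finset

namespace Pool.Agent.MP_2a1f0e_nt.SQ

open GM GM2

lemma one_Sp {N M T : ℕ} (hT : 1 ≤ T) (hM : 1 ≤ M) (F : ℝ → ℝ) (hF : ∀ x, 0 ≤ F x) {A : ℝ}
    (hA : 0 ≤ A) (h : ∀ v ∈ Set.Icc (1 / 9 : ℝ) (82 / 9),
      ‖FT (Io (8 * T)) (fun u => tri (8 * T) u * F ((0 + u : ℤ) : ℝ)) v‖ ≤ A * (1 + rho N M v)) :
    ∑ t ∈ Io (2 * T), F t ≤ 10 * A * M := by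
  have e1 := reindex_SSt T hT F (fun _ => 1) hF (fun _ => zero_le_one) 0
    (by rw [mem_Ioo]; omega)
  simp only [mul_one] at e1
  have e2 := h 1 ⟨by norm_num, by norm_num⟩
  unfold FT at e2
  simp only [pw_one, mul_one] at e2
  rw [← Complex.ofReal_sum, Complex.norm_real] at e2
  have e3 := (le_abs_self _).trans e2
  have e4 : (1 : ℝ) ≤ M := by exact_mod_cast hM
  have e5 := mul_le_mul_of_nonneg_left
    (show 1 + rho N M 1 ≤ 5 * M by linarith [rho_le N M 1]) hA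
  rw [Io_two]
  refine e1.trans ((mul_le_mul_of_nonneg_left (e3.trans e5) zero_le_two).trans (le_of_eq ?_))
  ring

lemma two_Sp (h2 : TwoStmt) (hR : RhoStmt) : ∃ C : ℝ, 0 < C ∧ ∀ (N M T : ℕ) (Δ A : ℝ)
    (F : ℝ → ℝ), 1 ≤ N → 1 ≤ T → DivB (N * M) Δ → (∀ x, 0 ≤ F x) → 0 ≤ A → ∀ s ∈ Io (2 * T),
    (∀ v ∈ Set.Icc (1 / 9 : ℝ) (82 / 9),
      ‖FT (Io (8 * T)) (fun u => tri (8 * T) u * F ((s + u : ℤ) : ℝ)) v‖ ≤ A * (1 + rho N M v)) →
    ∑ t ∈ Io (2 * T), F t * ‖Kb N M ((s : ℝ) - t)‖ ^ 2 ≤ C * (A * (N : ℝ) ^ 2 * R2 N M Δ) := by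
  obtain ⟨C2, hC2, h2⟩ := h2
  obtain ⟨CR, hCR, hR⟩ := hR
  refine ⟨4 * C2 * CR, by positivity, ?_⟩
  intro N M T Δ A F hN hT hD hF hA s hs e3
  have hN' : (0 : ℝ) < N := by exact_mod_cast hN
  rw [Io_two] at hs ⊢
  have e1 := reindex_SSt T hT F (fun x => ‖Kb N M x‖ ^ 2) hF (fun _ => sq_nonneg _) s hs
  have e2 := h2 N M hN (Io (8 * T)) fun u => tri (8 * T) u * F ((s + u : ℤ) : ℝ)
  obtain ⟨e4, e5⟩ := hR N M Δ hN hD
  have hc := continuous_rho N M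
  have e6 := II_mono (f := fun v => ‖FT (Io (8 * T))
      (fun u => tri (8 * T) u * F ((s + u : ℤ) : ℝ)) v‖ * rho N M v)
    (g := fun v => A * (rho N M v + rho N M v ^ 2))
    ((((continuousOn_FT _ _).mono Icc_sub_Ioi).norm).mul hc.continuousOn)
    (Continuous.continuousOn (by fun_prop)) fun v hv => by
      refine (mul_le_mul_of_nonneg_right (e3 v hv) (rho_nonneg N M v)).trans (le_of_eq ?_)
      ring
  have e7 : II (fun v => A * (rho N M v + rho N M v ^ 2)) =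
      A * (II (rho N M) + II fun v => rho N M v ^ 2) := by
    unfold II
    rw [intervalIntegral.integral_const_mul, intervalIntegral.integral_add
      (g := fun v => rho N M v ^ 2) (hc.intervalIntegrable _ _) ((hc.pow 2).intervalIntegrable _ _)]
  have e8 : (M : ℝ) / N ≤ (M : ℝ) ^ 2 / (N : ℝ) ^ 2 + M * Δ / N := by
    have : (M : ℝ) / N ≤ M * Δ / N :=
      div_le_div_of_nonneg_right (le_mul_of_one_le_right (Nat.cast_nonneg M) hD.1) hN'.le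
    have : 0 ≤ (M : ℝ) ^ 2 / (N : ℝ) ^ 2 := by positivity
    linarith
  have e9 : II (rho N M) + II (fun v => rho N M v ^ 2) ≤ 2 * CR * R2 N M Δ := by
    have := mul_le_mul_of_nonneg_left e8 hCR.le
    unfold R2
    linarith
  simp only [norm_Kb_sub N M (s : ℝ)]
  refine e1.trans ?_
  refine (mul_le_mul_of_nonneg_left (e2.trans (mul_le_mul_of_nonneg_left (e6.trans (e7.le.trans
    (mul_le_mul_of_nonneg_left e9 hA))) (by positivity))) zero_le_two).trans (le_of_eq ?_)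
  ring

theorem sp_stmt (h2 : TwoStmt) (hP : PtsStmt) (hR : RhoStmt) : SpStmt := by
  obtain ⟨C, hC, h⟩ := two_Sp h2 hR
  obtain ⟨CP, hCP, hP⟩ := hP
  refine ⟨(10 + C) * CP, by positivity, ?_⟩
  intro n M T Δ b hn hnT hT hD hb P hPr
  have h1 : 1 ≤ n ^ 2 := Nat.one_le_pow _ _ hn
  have hM : 1 ≤ M := by
    rcases Nat.eq_zero_or_pos M with rfl | h0
    · omega
    · exact h0
  have h3 := fun s => hP n M (8 * T) Δ P b s hn (by omega) hT (DivB_mono hD (by omega)) hPr hb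
  have hA : 0 ≤ CP * Δ ^ 2 * (n : ℝ) ^ 4 := by positivity
  have hΔ : 0 ≤ Δ := zero_le_one.trans hD.1
  have hR2 : 0 ≤ R2 (n ^ 2) M Δ := by
    unfold R2
    positivity
  refine ⟨(one_Sp (h1.trans hnT) hM (fun x => ‖FP P b x‖ ^ 2) (fun _ => sq_nonneg _) hA
    (h3 0)).trans ?_, fun s hs => (h (n ^ 2) M T Δ _ (fun x => ‖FP P b x‖ ^ 2) h1 (h1.trans hnT)
      hD (fun _ => sq_nonneg _) hA s hs (h3 s)).trans ?_⟩
  · have : 0 ≤ C * (CP * Δ ^ 2 * (n : ℝ) ^ 4) * M := by positivity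
    linarith
  · have : 0 ≤ 10 * CP * Δ ^ 2 * (n : ℝ) ^ 8 * R2 (n ^ 2) M Δ := by positivity
    push_cast
    linarith

end Pool.Agent.MP_2a1f0e_nt.SQ
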