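import Pool.Agent.MP_2a1f0e_nt.SQ.Defs

set_option autoImplicit false

open Finset

namespace Pool.Agent.MP_2a1f0e_nt.SQ

open GM GM2

lemma eq_of_gcd_Sup {a a' c c' : ℕ} (ha : 1 ≤ a) (hg : Nat.gcd a a' = Nat.gcd c c')
    (h : a * c' = c * a') : a = c ∧ a' = c' := by
  have h1 : a * Nat.gcd c c' = c * Nat.gcd a a' := by
    rw [← Nat.gcd_mul_left, ← Nat.gcd_mul_left, h, mul_comm a c]
  rw [← hg] at h1
  have h2 : a = c := Nat.eq_of_mul_eq_mul_right (Nat.gcd_pos_of_pos_left _ ha) h1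
  subst h2
  exact ⟨rfl, (Nat.eq_of_mul_eq_mul_left ha h).symm⟩

lemma sep_Sup {n : ℕ} (hn : 1 ≤ n) {p q : ℕ × ℕ} (hp : p ∈ Pr n) (hq : q ∈ Pr n)
    (hg : Nat.gcd p.1 p.2 = Nat.gcd q.1 q.2) (hne : p ≠ q) :
    1 ≤ |4 * (n : ℝ) ^ 2 * ((p.1 : ℝ) / p.2) - 4 * (n : ℝ) ^ 2 * ((q.1 : ℝ) / q.2)| := by
  obtain ⟨⟨a1, -⟩, a2, a3⟩ := mem_Pr.1 hp
  obtain ⟨-, b2, b3⟩ := mem_Pr.1 hq
  have h1 : (p.1 : ℤ) * q.2 - q.1 * p.2 ≠ 0 := fun h => by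
    have h' : p.1 * q.2 = q.1 * p.2 := by exact_mod_cast sub_eq_zero.1 h
    obtain ⟨e1, e2⟩ := eq_of_gcd_Sup (hn.trans a1) hg h'
    exact hne (Prod.ext e1 e2)
  have h2 : (1 : ℝ) ≤ |(p.1 : ℝ) * q.2 - q.1 * p.2| := by exact_mod_cast Int.one_le_abs h1
  have c1 : (0 : ℝ) < p.2 := by exact_mod_cast hn.trans a2
  have c2 : (0 : ℝ) < q.2 := by exact_mod_cast hn.trans b2
  have c3 : (p.2 : ℝ) ≤ 2 * n := by exact_mod_cast a3
  have c4 : (q.2 : ℝ) ≤ 2 * n := by exact_mod_cast b3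
  have e : 4 * (n : ℝ) ^ 2 * ((p.1 : ℝ) / p.2) - 4 * (n : ℝ) ^ 2 * ((q.1 : ℝ) / q.2) =
      4 * (n : ℝ) ^ 2 / (p.2 * q.2) * ((p.1 : ℝ) * q.2 - q.1 * p.2) := by
    field_simp
  rw [e, abs_mul, abs_of_nonneg (by positivity)]
  refine one_le_mul_of_one_le_of_one_le ?_ h2
  rw [le_div_iff₀ (by positivity)]
  calc 1 * ((p.2 : ℝ) * q.2) ≤ 1 * ((2 * n) * (2 * n)) := by gcongr
    _ = _ := by ring

lemma fiber_Sup (hF : FeStmt) {n L : ℕ} (hn : 1 ≤ n) (hL : n ^ 2 ≤ L) {v : ℝ}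
    (hv : v ∈ Set.Icc (1 / 9 : ℝ) (82 / 9)) (s : Finset (ℕ × ℕ)) (hs : s ⊆ Pr n)
    (hg : ∀ p ∈ s, ∀ q ∈ s, Nat.gcd p.1 p.2 = Nat.gcd q.1 q.2) :
    ∑ p ∈ s, Fe L (v * ((p.1 : ℝ) / p.2)) ≤ 2920 * L := by
  have hL1 : 1 ≤ L := (Nat.one_le_pow _ _ hn).trans hL
  have hL0 : (0 : ℝ) < L := by exact_mod_cast hL1
  have hn0 : (0 : ℝ) < n := by exact_mod_cast hn
  have hnL : (n : ℝ) ^ 2 ≤ L := by exact_mod_cast hL
  have hv0 : 0 < v := lt_of_lt_of_le (by norm_num) hv.1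
  have y1 : v⁻¹ ≤ 9 := by
    rw [inv_le_comm₀ hv0 (by norm_num)]
    linarith [hv.1]
  have y2 : 1 / 10 ≤ v⁻¹ := by
    rw [le_inv_comm₀ (by norm_num) hv0]
    linarith [hv.2]
  have h1 : ∀ p ∈ s, Fe L (v * ((p.1 : ℝ) / p.2)) ≤ 20 * L *
      kp ((4 * (n : ℝ) ^ 2 * ((p.1 : ℝ) / p.2) - 4 * (n : ℝ) ^ 2 * v⁻¹) /
        (36 * (n : ℝ) ^ 2 / L)) := by
    intro p hp
    obtain ⟨⟨a1, a2⟩, a3, a4⟩ := mem_Pr.1 (hs hp)
    have c1 : (n : ℝ) ≤ p.1 := by exact_mod_cast a1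
    have c2 : (p.1 : ℝ) ≤ 2 * n := by exact_mod_cast a2
    have c3 : (n : ℝ) ≤ p.2 := by exact_mod_cast a3
    have c4 : (p.2 : ℝ) ≤ 2 * n := by exact_mod_cast a4
    have x1 : (p.1 : ℝ) / p.2 ≤ 2 := by
      rw [div_le_iff₀ (by linarith)]
      linarith
    have x2 : 1 / 2 ≤ (p.1 : ℝ) / p.2 := by
      rw [le_div_iff₀ (by linarith)]
      linarith
    have := hF L ((p.1 : ℝ) / p.2) v⁻¹ 9 hL1 (by linarith) (by linarith) (by linarith) y1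
      (by linarith) (by linarith)
    rw [div_inv_eq_mul, mul_comm _ v] at this
    refine this.trans (le_of_eq ?_)
    congr 2
    field_simp
    ring
  refine (sum_le_sum h1).trans ?_
  rw [← mul_sum]
  have h2 := sum_kp_sep s (fun p => 4 * (n : ℝ) ^ 2 * ((p.1 : ℝ) / p.2))
    (fun p hp q hq hne => sep_Sup hn (hs hp) (hs hq) (hg p hp q hq) hne)
    (4 * (n : ℝ) ^ 2 * v⁻¹) (L := 36 * (n : ℝ) ^ 2 / L) (by positivity)
  have h3 : 36 * (n : ℝ) ^ 2 / L ≤ 36 := by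
    rw [div_le_iff₀ hL0]
    linarith
  calc _ ≤ 20 * (L : ℝ) * 146 := by
        gcongr
        linarith
    _ = _ := by ring

theorem sup_stmt (hF : FeStmt) : SupStmt := by
  refine ⟨2920, by norm_num, fun n g L hn hL v hv => ?_⟩
  have hm : ∀ p ∈ Plo n g, Nat.gcd p.1 p.2 ∈ Icc 1 g := fun p hp =>
    mem_Icc.2 ⟨Nat.gcd_pos_of_pos_left _ (pos_Pr hn (Plo_sub n g) p hp).1, (mem_filter.1 hp).2⟩
  rw [← sum_fiberwise_of_maps_to hm]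
  refine (sum_le_card_nsmul _ _ (2920 * (L : ℝ)) fun d _ => fiber_Sup hF hn hL hv _
    ((filter_subset _ _).trans (Plo_sub n g)) fun p hp q hq =>
      (mem_filter.1 hp).2.trans (mem_filter.1 hq).2.symm).trans (le_of_eq ?_)
  simp [mul_comm]

theorem card_stmt : CardStmt := by
  intro n g hn hg
  have hsub : Phi n g ⊆ (Ioc g (2 * n)).biUnion fun d =>
      (Icc 1 (2 * n / d) ×ˢ Icc 1 (2 * n / d)).image fun a : ℕ × ℕ => (d * a.1, d * a.2) := by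
    intro p hp
    obtain ⟨h1, h2⟩ := mem_filter.1 hp
    obtain ⟨⟨a1, a2⟩, a3, a4⟩ := mem_Pr.1 h1
    have d0 : 0 < Nat.gcd p.1 p.2 := by omega
    have d1 := Nat.gcd_dvd_left p.1 p.2
    have d2 := Nat.gcd_dvd_right p.1 p.2
    have l1 := Nat.le_of_dvd (by omega) d1
    have l2 := Nat.le_of_dvd (by omega) d2
    refine mem_biUnion.2 ⟨Nat.gcd p.1 p.2, mem_Ioc.2 ⟨h2, by omega⟩,
      mem_image.2 ⟨(p.1 / Nat.gcd p.1 p.2, p.2 / Nat.gcd p.1 p.2), ?_, ?_⟩⟩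
    · simp only [mem_product, mem_Icc]
      exact ⟨⟨Nat.div_pos l1 d0, Nat.div_le_div_right a2⟩, Nat.div_pos l2 d0,
        Nat.div_le_div_right a4⟩
    · exact Prod.ext (Nat.mul_div_cancel' d1) (Nat.mul_div_cancel' d2)
  have h1 : (Phi n g).card ≤ ∑ d ∈ Ioc g (2 * n), (2 * n / d) ^ 2 := by
    refine (card_le_card hsub).trans (card_biUnion_le.trans (sum_le_sum fun d _ => ?_))
    refine card_image_le.trans (le_of_eq ?_)
    simp [sq]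
  have h2 : ∑ d ∈ Ioc g (2 * n), ((d : ℝ) ^ 2)⁻¹ ≤ (g : ℝ)⁻¹ := by
    rcases le_or_gt g (2 * n) with h | h
    · refine (sum_Ioc_inv_sq_le_sub (by omega) h).trans (sub_le_self _ (by positivity))
    · rw [Ioc_eq_empty (by omega), sum_empty]
      positivity
  calc ((Phi n g).card : ℝ) ≤ ∑ d ∈ Ioc g (2 * n), ((2 * n / d : ℕ) : ℝ) ^ 2 := by
        exact_mod_cast h1
    _ ≤ ∑ d ∈ Ioc g (2 * n), 4 * (n : ℝ) ^ 2 * ((d : ℝ) ^ 2)⁻¹ := by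
        refine sum_le_sum fun d _ => ?_
        calc ((2 * n / d : ℕ) : ℝ) ^ 2 ≤ (((2 * n : ℕ) : ℝ) / d) ^ 2 :=
              pow_le_pow_left₀ (by positivity) Nat.cast_div_le 2
          _ = _ := by
              push_cast
              ring
    _ ≤ _ := by
        rw [← mul_sum, div_eq_mul_inv]
        gcongr

end Pool.Agent.MP_2a1f0e_nt.SQ
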