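import Pool.Agent.MP_2a1f0e_nt.SQ.Defs
import Pool.Agent.MP_2a1f0e_nt.GM2.BThree

set_option autoImplicit false

open Finset

namespace Pool.Agent.MP_2a1f0e_nt.SQ

open GM GM2

lemma num_XSix {n τ Q M Δ CP KB : ℝ} (hn : 1 ≤ n) (hτ : 0 < τ) (hτn : τ ≤ n) (hQ : 1 ≤ Q)
    (hM0 : 0 ≤ M) (hM : M ≤ Q * (τ ^ 4 / n ^ 2)) (hΔ0 : 0 ≤ Δ) (hΔ : Δ ≤ Q) (hC : CP ≤ Q)
    (hK : KB ≤ Q) :
    CP * Δ ^ 2 * n ^ 4 * M ≤ 2 * Q ^ 7 * (τ ^ 4 * n ^ 2) ∧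
    CP * Δ ^ 2 * n ^ 8 * (M ^ 2 / (n ^ 2) ^ 2 + M * Δ / n ^ 2) ≤ 2 * Q ^ 7 * (τ ^ 4 * n ^ 4) ∧
    KB * Δ ^ 6 * (n ^ 4 + τ ^ 4 * n ^ 8 / (τ * n) ^ 4) ≤ 2 * Q ^ 7 * n ^ 4 := by
  have n0 : 0 < n := by linarith
  have q0 : 0 < Q := by linarith
  have q4 : Q ^ 4 ≤ Q ^ 7 := pow_le_pow_right₀ hQ (by norm_num)
  have q5 : Q ^ 5 ≤ Q ^ 7 := pow_le_pow_right₀ hQ (by norm_num)
  have q7 : 0 < Q ^ 7 := by positivity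
  refine ⟨?_, ?_, ?_⟩
  · calc CP * Δ ^ 2 * n ^ 4 * M ≤ Q * Q ^ 2 * n ^ 4 * (Q * (τ ^ 4 / n ^ 2)) := by gcongr
      _ = Q ^ 4 * (τ ^ 4 * n ^ 2) := by field_simp
      _ ≤ _ := by gcongr; linarith
  · have h1 : M ≤ Q * (n ^ 4 / n ^ 2) := hM.trans (by gcongr)
    calc CP * Δ ^ 2 * n ^ 8 * (M ^ 2 / (n ^ 2) ^ 2 + M * Δ / n ^ 2)
        = CP * Δ ^ 2 * n ^ 8 * (M * M / (n ^ 2) ^ 2 + M * Δ / n ^ 2) := by rw [sq M]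
      _ ≤ Q * Q ^ 2 * n ^ 8 * (Q * (τ ^ 4 / n ^ 2) * (Q * (n ^ 4 / n ^ 2)) / (n ^ 2) ^ 2 +
          Q * (τ ^ 4 / n ^ 2) * Q / n ^ 2) := by gcongr
      _ = 2 * Q ^ 5 * (τ ^ 4 * n ^ 4) := by field_simp; ring
      _ ≤ _ := by gcongr
  · calc KB * Δ ^ 6 * (n ^ 4 + τ ^ 4 * n ^ 8 / (τ * n) ^ 4)
        ≤ Q * Q ^ 6 * (n ^ 4 + τ ^ 4 * n ^ 8 / (τ * n) ^ 4) := by gcongr
      _ = _ := by field_simp; ring

theorem x6_stmt (hS : SetupStmt) (hP : SpStmt) (hB : BigStmt) (hC : Core6Stmt) (hN : Num6Stmt) :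
    X6Stmt := by
  intro ε hε
  have hδ : 0 < ε / 105 := by positivity
  obtain ⟨C0, c0, hS⟩ := hS _ hδ
  obtain ⟨c, c1, hD⟩ := DH.exists_DivB hδ
  obtain ⟨CP, cp, hP⟩ := hP
  obtain ⟨KB, kb, hB⟩ := hB _ hδ
  obtain ⟨C, cc, hC⟩ := hC
  obtain ⟨K, k0, hN⟩ := hN C cc
  obtain ⟨A, a0, a1, a2, a3⟩ : ∃ A : ℝ, C0 ≤ A ∧ c * 6 ^ (ε / 105) ≤ A ∧ CP ≤ A ∧ KB ≤ A := by
    have : 0 < c * 6 ^ (ε / 105) := by positivity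
    exact ⟨C0 + c * 6 ^ (ε / 105) + CP + KB, by linarith, by linarith, by linarith, by linarith⟩
  have a4 : 1 ≤ A := c0.trans a0
  refine ⟨K * (32 * A ^ 35), by positivity, fun n T τ b hn hT hT' hτ ht hb => ?_⟩
  have n1 : (1 : ℝ) ≤ n := by exact_mod_cast hn
  have n0 : (0 : ℝ) < n := by linarith
  have t1 : (n : ℝ) ^ 2 ≤ τ ^ 4 := by rw [ht]; exact_mod_cast hT
  have t2 : (τ ^ 4) ^ 3 ≤ (n : ℝ) ^ 8 := by rw [ht]; exact_mod_cast hT'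
  have t3 : (n : ℝ) ≤ τ ^ 2 :=
    (pow_le_pow_iff_left₀ n0.le (by positivity) two_ne_zero).1 (t1.trans_eq (by ring))
  have t4 : τ ^ 3 ≤ (n : ℝ) ^ 2 :=
    (pow_le_pow_iff_left₀ (by positivity) (by positivity) four_ne_zero).1 (by
      rw [← pow_mul, ← pow_mul]
      rwa [← pow_mul] at t2)
  have t5 : 1 ≤ τ := (one_le_pow_iff_of_nonneg hτ.le two_ne_zero).1 (n1.trans t3)
  have t6 : τ ≤ n := (pow_le_pow_iff_left₀ hτ.le n0.le three_ne_zero).1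
    (t4.trans (pow_le_pow_right₀ n1 (by norm_num)))
  have t7 : T ≤ n ^ 4 := by
    have : (T : ℝ) ≤ (n : ℝ) ^ 4 := ht ▸ pow_le_pow_left₀ hτ.le t6 4
    exact_mod_cast this
  obtain ⟨M, D0, m1, m2, m3, m4, m5, -⟩ := hS (n ^ 2) T (Nat.one_le_pow _ _ hn) hT
    (by rwa [← pow_mul])
  have m6 := hD (6 * n ^ 3) (Nat.mul_pos (by norm_num) (Nat.pow_pos hn))
  have e2 : ((n ^ 2 : ℕ) : ℝ) ^ (ε / 105) = ((n : ℝ) ^ (ε / 105)) ^ 2 := by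
    rw [Nat.cast_pow, Real.rpow_pow_comm n0.le]
  have e3 : ((6 * n ^ 3 : ℕ) : ℝ) ^ (ε / 105) = 6 ^ (ε / 105) * ((n : ℝ) ^ (ε / 105)) ^ 3 := by
    rw [Nat.cast_mul, Nat.cast_pow, Real.mul_rpow (by positivity) (by positivity),
      Real.rpow_pow_comm n0.le, Nat.cast_ofNat]
  have e4 : (n : ℝ) ^ ε = ((n : ℝ) ^ (ε / 105)) ^ 105 := by
    rw [← Real.rpow_natCast, ← Real.rpow_mul n0.le]
    congr 1
    push_cast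
    ring
  have q1 : 1 ≤ (n : ℝ) ^ (ε / 105) := Real.one_le_rpow n1 hδ.le
  have hB' := fun Δ h => hB n T Δ (τ * n) b hn hT t7 h (by positivity) hb
  rw [e2] at m2 m4
  rw [e3] at m6
  rw [e4]
  clear hB hS hD e2 e3 e4
  generalize (n : ℝ) ^ (ε / 105) = q at *
  have q3 : 1 ≤ q ^ 3 := one_le_pow₀ q1
  have q2 : q ^ 2 ≤ q ^ 3 := pow_le_pow_right₀ q1 (by norm_num)
  have q4 : q ≤ q ^ 3 := le_self_pow₀ q1 three_ne_zero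
  have Q0 : A ≤ A * q ^ 3 := le_mul_of_one_le_right (by linarith) q3
  have Q1 : 1 ≤ A * q ^ 3 := a4.trans Q0
  have Q2 : C0 * q ^ 2 ≤ A * q ^ 3 := by gcongr
  obtain ⟨Δ, d1, d2, d3⟩ : ∃ Δ : ℝ, DivB (6 * n ^ 3) Δ ∧ DivB (n ^ 2 * M) Δ ∧ Δ ≤ A * q ^ 3 :=
    ⟨max D0 (c * (6 ^ (ε / 105) * q ^ 3)),
      ⟨m6.1.trans (le_max_right _ _), fun k hk => (m6.2 k hk).trans (le_max_right _ _)⟩,
      ⟨m3.1.trans (le_max_left _ _), fun k hk => (m3.2 k hk).trans (le_max_left _ _)⟩,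
      max_le (m4.trans Q2) (by rw [← mul_assoc]; gcongr)⟩
  have d0 : 0 ≤ Δ := zero_le_one.trans d1.1
  have hM : (M : ℝ) ≤ A * q ^ 3 * (τ ^ 4 / (n : ℝ) ^ 2) := by
    rw [← ht, Nat.cast_pow] at m2
    exact m2.trans (by gcongr)
  have g1 : 1 ≤ ⌊(n : ℝ) ^ 2 / τ ^ 3⌋₊ :=
    (Nat.one_le_floor_iff _).2 ((one_le_div (by positivity)).2 t4)
  have g2 : (⌊(n : ℝ) ^ 2 / τ ^ 3⌋₊ : ℝ) * τ ^ 3 ≤ (n : ℝ) ^ 2 :=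
    (le_div_iff₀ (by positivity)).1 (Nat.floor_le (by positivity))
  have g3 : (n : ℝ) ^ 2 < ((⌊(n : ℝ) ^ 2 / τ ^ 3⌋₊ : ℝ) + 1) * τ ^ 3 :=
    (div_lt_iff₀ (by positivity)).1 (Nat.lt_floor_add_one _)
  generalize ⌊(n : ℝ) ^ 2 / τ ^ 3⌋₊ = g at g1 g2 g3
  have g4 : (n : ℝ) ^ 2 ≤ 2 * (g * τ ^ 3) := by
    have : 1 * τ ^ 3 ≤ g * τ ^ 3 := by gcongr; exact_mod_cast g1
    linarith
  have h1 := hC n M T g b Δ (C0 * ((n ^ 2 : ℕ) : ℝ)) (τ * n) ((n : ℝ) ^ 2 / τ) _ _ _ hn hT g1 hb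
    d1 d2 (by positivity) (by rwa [Io_two]) (by positivity) (by positivity)
    (hP n M T Δ b hn hT m1 d2 hb) (hB' Δ (DivB_mono d1 (by
      have := Nat.pow_le_pow_right hn (by norm_num : 2 ≤ 3)
      omega)))
  obtain ⟨y1, y2, y3⟩ := num_XSix (KB := KB * q) n1 hτ t6 Q1 (Nat.cast_nonneg M) hM d0 d3
    (a2.trans Q0) (by gcongr)
  have p1 : A * q ^ 3 ≤ 2 * (A * q ^ 3) ^ 7 := by
    have := le_self_pow₀ Q1 (by norm_num : 7 ≠ 0)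
    linarith
  rw [R2, Nat.cast_pow, ← ht] at h1
  refine (hN n τ (2 * (A * q ^ 3) ^ 7) M g Δ _ _ _ _ _ n1 t5 t3 t4 (Q1.trans p1)
    (Nat.cast_nonneg M) (hM.trans (by gcongr)) g4 g2 d0 (d3.trans p1) (by positivity)
    (mul_le_mul_of_nonneg_right (a0.trans (Q0.trans p1)) (by positivity)) (by positivity) y1
    (by positivity) y2 (by positivity) y3 (XX_nonneg _ _ _ _ _) h1).trans_eq ?_
  ring

end Pool.Agent.MP_2a1f0e_nt.SQ
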