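import Pool.Agent.MP_2a1f0e_nt.GM.Main
import Pool.Agent.MP_2a1f0e_nt.GM2.Three3
import Pool.Agent.MP_2a1f0e_nt.GM2.Tri2
import Pool.Agent.MP_2a1f0e_nt.GM2.Mom
import Pool.Agent.MP_2a1f0e_nt.DH.Ty
import Pool.Agent.MP_2a1f0e_nt.SQ.Sos
import Pool.Agent.MP_2a1f0e_nt.SQ.Qs
import Pool.Agent.MP_2a1f0e_nt.SQ.Fe
import Pool.Agent.MP_2a1f0e_nt.SQ.Sup
import Pool.Agent.MP_2a1f0e_nt.SQ.Row
import Pool.Agent.MP_2a1f0e_nt.SQ.Sch
import Pool.Agent.MP_2a1f0e_nt.SQ.Sqc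
import Pool.Agent.MP_2a1f0e_nt.SQ.Pts
import Pool.Agent.MP_2a1f0e_nt.SQ.Sp
import Pool.Agent.MP_2a1f0e_nt.SQ.DOne
import Pool.Agent.MP_2a1f0e_nt.SQ.DTwo
import Pool.Agent.MP_2a1f0e_nt.SQ.Core6
import Pool.Agent.MP_2a1f0e_nt.SQ.Num6
import Pool.Agent.MP_2a1f0e_nt.SQ.XSix
import Pool.Agent.MP_2a1f0e_nt.SQ.BSix
import Pool.Agent.MP_2a1f0e_nt.SQ.Int6
import Pool.Agent.MP_2a1f0e_nt.SQ.One9
import Pool.Agent.MP_2a1f0e_nt.SQ.Hi9
import Pool.Agent.MP_2a1f0e_nt.SQ.Pow9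

set_option autoImplicit false

namespace Pool.Agent.MP_2a1f0e_nt.SQ

open GM

theorem qs_all : QsStmt :=
  qs_stmt (GM2.three3_stmt rad_stmt) (GM2.tri2_stmt phMaj_stmt pair_all) par_stmt

theorem ft_all : FtStmt := ft_stmt triang_stmt

theorem sp_all : SpStmt :=
  sp_stmt (two_stmt rad_stmt phMaj_stmt) (pts_stmt triang_stmt pt_all) rho_all

theorem big_all : BigStmt := big_stmt sqc_stmt b2_all blk_stmt

theorem core6_all : Core6Stmt :=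
  core6_stmt sos_stmt qs_all sqc_stmt (d1_stmt card_stmt)
    (d2_stmt ft_all (sup_stmt fe_stmt) (lone_stmt fe_stmt) par_stmt)
    (d3_stmt ft_all (row_stmt fe_stmt) sch_stmt dual_stmt sqc_stmt)

theorem x6_all : X6Stmt := x6_stmt setup_all sp_all big_all core6_all num6_stmt

theorem mv_all : MvStmt := mv_stmt GM2.mom_stmt

theorem b6_all : B6Stmt := b6_stmt x6_all big_all mv_all

theorem int6_all : Int6Stmt := int6_stmt b6_all mv_all cut_stmt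

theorem final6_all : Final6Stmt := final6_stmt int6_all DH.ty_stmt

theorem pow9_all : Pow9Stmt :=
  pow9_stmt (two9_stmt int6_all mv_all) (mvk9_stmt mv_all) (hi9_stmt (one9_stmt b1_all mv_all))

theorem lvp9_all : Pool.Agent.MP_c853c5_nt.Z.LvP (9 / 4) := lvp9_stmt pow9_all

end Pool.Agent.MP_2a1f0e_nt.SQ
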