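import Pool.Agent.MP_2a1f0e_nt.GM2.Defs
import Pool.Agent.MP_2a1f0e_nt.DH.Basic

set_option autoImplicit false

open Finset

namespace Pool.Agent.MP_2a1f0e_nt.SQ

open GM GM2

/-- triangular weight -/
noncomputable def tri (L : ℕ) (t : ℤ) : ℝ := ((L : ℝ) - |(t : ℝ)|) / L

/-- Fejer kernel, the transform of the triangular weight -/
noncomputable def Fe (L : ℕ) (v : ℝ) : ℝ := ‖gs L (Real.log v / (2 * Real.pi))‖ ^ 2 / L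

def Pr (n : ℕ) : Finset (ℕ × ℕ) := Icc n (2 * n) ×ˢ Icc n (2 * n)

/-- pairs with small greatest common divisor -/
def Plo (n g : ℕ) : Finset (ℕ × ℕ) := (Pr n).filter fun p => Nat.gcd p.1 p.2 ≤ g

/-- pairs with large greatest common divisor -/
def Phi (n g : ℕ) : Finset (ℕ × ℕ) := (Pr n).filter fun p => g < Nat.gcd p.1 p.2

/-- contains the support of `Wt (k / N)` -/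
def Rg (N : ℕ) : Finset ℕ := (Icc 1 (3 * N)).filter fun k => 3 * N ≤ 4 * k

/-- part of the expansion of `|D|^2` -/
noncomputable def FP (P : Finset (ℕ × ℕ)) (b : ℕ → ℂ) (t : ℝ) : ℂ :=
  ∑ p ∈ P, b p.1 * (starRingEnd ℂ) (b p.2) * pw ((p.1 : ℝ) / p.2) t

noncomputable def wP (L : ℕ) (P : Finset (ℕ × ℕ)) (b : ℕ → ℂ) (t : ℤ) : ℝ :=
  tri L t * (FP P b t).re

/-- bounded coefficients supported in `a ≤ 7 n / 5` -/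
def Adm (n : ℕ) (b : ℕ → ℂ) : Prop := (∀ a, ‖b a‖ ≤ 1) ∧ ∀ a, 7 * n < 5 * a → b a = 0

/-- coefficients of the square -/
noncomputable def sqc (n : ℕ) (b : ℕ → ℂ) (k : ℕ) : ℂ :=
  ∑ p ∈ (Pr n).filter (fun p => p.1 * p.2 = k), b p.1 * b p.2

noncomputable def al (N : ℕ) (β : ℕ → ℂ) (s : Finset ℤ) (g : ℤ → ℝ) (k : ℕ) : ℂ :=
  ∑ t ∈ s, (g t : ℂ) * DP N β t * pw (k : ℝ) (-(t : ℝ))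

/-- weighted square norm -/
noncomputable def NW (N : ℕ) (x : ℕ → ℂ) : ℝ :=
  ∑ k ∈ Icc 1 (3 * N), Wt ((k : ℝ) / N) * ‖x k‖ ^ 2

noncomputable def nu (n T : ℕ) (b : ℕ → ℂ) (t : ℤ) : ℝ := tri (2 * T) t * ‖DP n b t‖ ^ 2

/-- middle values -/
noncomputable def ww (n T : ℕ) (b : ℕ → ℂ) (U u : ℝ) (t : ℤ) : ℝ :=
  if ‖DP n b t‖ ^ 2 ≤ U ∧ u < nu n T b t then nu n T b t else 0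

/-- small values -/
noncomputable def ll (n T : ℕ) (b : ℕ → ℂ) (U u : ℝ) (t : ℤ) : ℝ :=
  if ‖DP n b t‖ ^ 2 ≤ U ∧ nu n T b t ≤ u then nu n T b t else 0

/-- large values -/
noncomputable def la (n T : ℕ) (b : ℕ → ℂ) (U : ℝ) (t : ℤ) : ℝ :=
  if U < ‖DP n b t‖ ^ 2 then nu n T b t else 0

/-- the signed weight -/
noncomputable def mm (n T g : ℕ) (b : ℕ → ℂ) (U : ℝ) (t : ℤ) : ℝ :=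
  wP (2 * T) (Plo n g) b t - la n T b U t

noncomputable def XX (n T : ℕ) (b : ℕ → ℂ) (U u : ℝ) : ℝ :=
  ∑ t ∈ Io (2 * T), ww n T b U u t * ‖DP n b t‖ ^ 4

/-- mean square bounds for all partial expansions -/
def YS (n M T : ℕ) (b : ℕ → ℂ) (Y S : ℝ) : Prop := ∀ P : Finset (ℕ × ℕ), P ⊆ Pr n →
  ∑ t ∈ Io (2 * T), ‖FP P b t‖ ^ 2 ≤ Y ∧
  ∀ s ∈ Io (2 * T), ∑ t ∈ Io (2 * T), ‖FP P b t‖ ^ 2 * ‖Kb (n ^ 2) M ((s : ℝ) - t)‖ ^ 2 ≤ S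

/-- fourth moment on the large values -/
def Big (n T : ℕ) (b : ℕ → ℂ) (U Z : ℝ) : Prop :=
  ∑ t ∈ (Io (2 * T)).filter (fun t : ℤ => U < ‖DP n b t‖ ^ 2), ‖DP n b t‖ ^ 4 ≤ Z

/-! ### the mixed trace -/

def SosStmt : Prop := ∀ (N M : ℕ) (β : ℕ → ℂ) (s : Finset ℤ) (w m : ℤ → ℝ)
  (E S H Λ P P' X : ℝ), 1 ≤ N → 0 ≤ E → 0 ≤ S → 0 < H → HE N M s E →
  ∑ k ∈ Icc N (2 * N), ‖β k‖ ^ 2 ≤ H → (∀ t ∈ s, 0 ≤ w t) →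
  X = ∑ t ∈ s, w t * ‖DP N β t‖ ^ 2 →
  (∀ a ∈ s, ∑ t ∈ s, m t ^ 2 * ‖Kb N M ((a : ℝ) - t)‖ ^ 2 ≤ S) →
  NW N (al N β s fun t => m t - w t) ≤ Λ →
  ∑ t ∈ s, w t ^ 2 * ‖DP N β t‖ ^ 2 ≤ P → ∑ t ∈ s, m t ^ 2 * ‖DP N β t‖ ^ 2 ≤ P' →
  X ^ 2 ≤ 4 * H * Λ ∨ X ^ 4 ≤ 16 * H ^ 2 * E ^ 2 * (P * P') ∨
    X ^ 3 ≤ 16 * H ^ 3 * (‖Q33 N M s w m m‖ + E * S * ∑ t ∈ s, w t)

def QsStmt : Prop := ∃ C : ℝ, 0 < C ∧ ∀ (N M : ℕ) (Δ Y A B L : ℝ) (s : Finset ℤ) (w m : ℤ → ℝ),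
  1 ≤ N → DivB (N * M) Δ → 0 < L → ∑ t ∈ s, w t ^ 2 ≤ Y → ∑ t ∈ s, m t ^ 2 ≤ Y →
  (∀ v ∈ Set.Icc (1 / 9 : ℝ) (82 / 9), ‖FT s m v‖ ≤ A) → II (fun v => ‖FT s m v‖) ≤ B →
  ‖Q33 N M s w m m‖ ≤ C * (N : ℝ) ^ 2 * ((M : ℝ) ^ 2 * Y * (B + Y / L) + M * Δ * Y * (A + L))

/-! ### kernel sums -/

def FeStmt : Prop := ∀ (L : ℕ) (x y Z : ℝ), 1 ≤ L → 0 < x → 0 < y → x ≤ Z → y ≤ Z →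
  x ≤ 20 * y → y ≤ 20 * x → Fe L (x / y) ≤ 20 * L * kp (L * (x - y) / Z)

def FtStmt : Prop := ∀ (L : ℕ) (P : Finset (ℕ × ℕ)) (b : ℕ → ℂ) (v : ℝ), 1 ≤ L →
  (∀ p ∈ P, p.swap ∈ P) → (∀ p ∈ P, 1 ≤ p.1 ∧ 1 ≤ p.2) → (∀ a, ‖b a‖ ≤ 1) → 0 < v →
  ‖FT (Io L) (wP L P b) v‖ ≤ ∑ p ∈ P, Fe L (v * ((p.1 : ℝ) / p.2))

def SupStmt : Prop := ∃ C : ℝ, 0 < C ∧ ∀ (n g L : ℕ), 1 ≤ n → n ^ 2 ≤ L →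
  ∀ v ∈ Set.Icc (1 / 9 : ℝ) (82 / 9),
    ∑ p ∈ Plo n g, Fe L (v * ((p.1 : ℝ) / p.2)) ≤ C * L * g

def LoneStmt : Prop := ∃ C : ℝ, 0 < C ∧ ∀ (L : ℕ) (r : ℝ), 1 ≤ L → 1 / 2 ≤ r → r ≤ 2 →
  II (fun v => Fe L (v * r)) ≤ C

def RowStmt : Prop := ∃ C : ℝ, 0 < C ∧ ∀ (n g L : ℕ) (Δ : ℝ), 1 ≤ n → 1 ≤ g → 1 ≤ L →
  DivB (6 * n ^ 3) Δ → ∀ k ∈ Rg (n ^ 2),
    ∑ j ∈ Rg (n ^ 2), ∑ p ∈ Phi n g, Fe L ((j : ℝ) / k * ((p.1 : ℝ) / p.2)) ≤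
      C * Δ ^ 2 * (L * n + (n : ℝ) ^ 4 / g)

def CardStmt : Prop := ∀ n g : ℕ, 1 ≤ n → 1 ≤ g → ((Phi n g).card : ℝ) ≤ 4 * (n : ℝ) ^ 2 / g

def SchStmt : Prop := ∀ (N : ℕ) (β : ℕ → ℂ) (s : Finset ℤ) (g : ℤ → ℝ) (R : ℝ), 1 ≤ N →
  (∀ k ∈ Rg N, ∑ j ∈ Rg N, ‖FT s g ((j : ℝ) / k)‖ ≤ R) →
  NW N (al N β s g) ≤ R ^ 2 * ∑ k ∈ Icc N (2 * N), ‖β k‖ ^ 2

def DualStmt : Prop := ∃ C : ℝ, 0 < C ∧ ∀ (N L : ℕ) (y : ℤ → ℂ), 1 ≤ N → N ≤ L →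
  NW N (fun k => ∑ t ∈ Io L, y t * pw (k : ℝ) (-(t : ℝ))) ≤ C * L * ∑ t ∈ Io L, ‖y t‖ ^ 2

def SqcStmt : Prop := ∀ (n : ℕ) (b : ℕ → ℂ) (Δ : ℝ), 1 ≤ n → Adm n b → DivB (2 * n ^ 2) Δ →
  (∀ t : ℝ, DP (n ^ 2) (sqc n b) t = DP n b t ^ 2) ∧ (∀ k, ‖sqc n b k‖ ≤ Δ) ∧
  ∑ k ∈ Icc (n ^ 2) (2 * n ^ 2), ‖sqc n b k‖ ^ 2 ≤ 2 * Δ ^ 2 * (n : ℝ) ^ 2

def PtsStmt : Prop := ∃ C : ℝ, 0 < C ∧ ∀ (n M L : ℕ) (Δ : ℝ) (P : Finset (ℕ × ℕ)) (b : ℕ → ℂ)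
  (t₀ : ℤ), 1 ≤ n → n ^ 2 ≤ L → L ≤ n ^ 2 * M → DivB (2 * n ^ 2) Δ → P ⊆ Pr n → Adm n b →
  ∀ v ∈ Set.Icc (1 / 9 : ℝ) (82 / 9),
    ‖FT (Io L) (fun u => tri L u * ‖FP P b ((t₀ + u : ℤ) : ℝ)‖ ^ 2) v‖ ≤
      C * Δ ^ 2 * (n : ℝ) ^ 4 * (1 + rho (n ^ 2) M v)

def SpStmt : Prop := ∃ C : ℝ, 0 < C ∧ ∀ (n M T : ℕ) (Δ : ℝ) (b : ℕ → ℂ), 1 ≤ n → n ^ 2 ≤ T →
  8 * T ≤ n ^ 2 * M → DivB (n ^ 2 * M) Δ → Adm n b →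
  YS n M T b (C * Δ ^ 2 * (n : ℝ) ^ 4 * M) (C * Δ ^ 2 * (n : ℝ) ^ 8 * R2 (n ^ 2) M Δ)

def BigStmt : Prop := ∀ ε : ℝ, 0 < ε → ∃ K : ℝ, 0 < K ∧ ∀ (n T : ℕ) (Δ U : ℝ) (b : ℕ → ℂ),
  1 ≤ n → n ^ 2 ≤ T → T ≤ n ^ 4 → DivB (2 * n ^ 2) Δ → 0 < U → Adm n b →
  Big n T b U (K * (n : ℝ) ^ ε * Δ ^ 6 * ((n : ℝ) ^ 4 + T * (n : ℝ) ^ 8 / U ^ 4))

/-! ### the data of the mixed trace -/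

def D1Stmt : Prop := ∀ (n M T g : ℕ) (b : ℕ → ℂ) (U u Y S Z : ℝ), 1 ≤ n → 1 ≤ T → 1 ≤ g →
  (∀ a, ‖b a‖ ≤ 1) → 0 < U → 0 < u → YS n M T b Y S → Big n T b U Z →
  ∑ t ∈ Io (2 * T), ww n T b U u t ^ 2 ≤ Y ∧ ∑ t ∈ Io (2 * T), mm n T g b U t ^ 2 ≤ 4 * Y ∧
  ∑ t ∈ Io (2 * T), ww n T b U u t ≤ Y / u ∧
  (∀ a ∈ Io (2 * T), ∑ t ∈ Io (2 * T),
    mm n T g b U t ^ 2 * ‖Kb (n ^ 2) M ((a : ℝ) - t)‖ ^ 2 ≤ 4 * S) ∧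
  ∑ t ∈ Io (2 * T), ww n T b U u t ^ 2 * ‖DP n b t‖ ^ 4 ≤ U * XX n T b U u ∧
  ∑ t ∈ Io (2 * T), mm n T g b U t ^ 2 * ‖DP n b t‖ ^ 4 ≤
    3 * (U * XX n T b U u + u ^ 2 * Y + U ^ 2 * Y + (4 * (n : ℝ) ^ 2 / g) ^ 2 * Z)

def D2Stmt : Prop := ∃ C : ℝ, 0 < C ∧ ∀ (n T g : ℕ) (b : ℕ → ℂ) (U Z : ℝ), 1 ≤ n → n ^ 2 ≤ T →
  (∀ a, ‖b a‖ ≤ 1) → 0 < U → Big n T b U Z →
  (∀ v ∈ Set.Icc (1 / 9 : ℝ) (82 / 9),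
    ‖FT (Io (2 * T)) (mm n T g b U) v‖ ≤ C * (T * g + Z / U)) ∧
  II (fun v => ‖FT (Io (2 * T)) (mm n T g b U) v‖) ≤ C * ((n : ℝ) ^ 2 + √Z)

def D3Stmt : Prop := ∃ C : ℝ, 0 < C ∧ ∀ (n M T g : ℕ) (b : ℕ → ℂ) (Δ U u Y S : ℝ), 1 ≤ n →
  n ^ 2 ≤ T → 1 ≤ g → Adm n b → DivB (6 * n ^ 3) Δ → 0 < u → YS n M T b Y S →
  NW (n ^ 2) (al (n ^ 2) (sqc n b) (Io (2 * T)) fun t => mm n T g b U t - ww n T b U u t) ≤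
    C * (T * u ^ 2 * Y + Δ ^ 6 * (n : ℝ) ^ 2 * (T * n + (n : ℝ) ^ 4 / g) ^ 2)

/-- the three alternatives -/
def Alt (C n M T g Δ E U u Y S Z X : ℝ) : Prop :=
  X ^ 2 ≤ C * Δ ^ 2 * n ^ 2 * (T * u ^ 2 * Y + Δ ^ 6 * n ^ 2 * (T * n + n ^ 4 / g) ^ 2) ∨
  X ^ 4 ≤ C * Δ ^ 4 * n ^ 4 * E ^ 2 *
    (U * X * (U * X + u ^ 2 * Y + U ^ 2 * Y + (n ^ 2 / g) ^ 2 * Z)) ∨
  X ^ 3 ≤ C * Δ ^ 6 * n ^ 6 * (n ^ 4 * (M ^ 2 * Y * (n ^ 2 + √Z + Y / T) +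
    M * Δ * Y * (T * g + Z / U + T)) + E * S * (Y / u))

def Core6Stmt : Prop := ∃ C : ℝ, 1 ≤ C ∧ ∀ (n M T g : ℕ) (b : ℕ → ℂ) (Δ E U u Y S Z : ℝ),
  1 ≤ n → n ^ 2 ≤ T → 1 ≤ g → Adm n b → DivB (6 * n ^ 3) Δ → DivB (n ^ 2 * M) Δ → 0 ≤ E →
  HE (n ^ 2) M (Io (2 * T)) E → 0 < U → 0 < u → YS n M T b Y S → Big n T b U Z →
  Alt C n M T g Δ E U u Y S Z (XX n T b U u)

def Num6Stmt : Prop := ∀ C : ℝ, 1 ≤ C → ∃ K : ℝ, 0 < K ∧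
  ∀ n τ P M g Δ E Y S Z X : ℝ, 1 ≤ n → 1 ≤ τ → n ≤ τ ^ 2 → τ ^ 3 ≤ n ^ 2 → 1 ≤ P →
    0 ≤ M → M ≤ P * (τ ^ 4 / n ^ 2) → n ^ 2 ≤ 2 * (g * τ ^ 3) → g * τ ^ 3 ≤ n ^ 2 →
    0 ≤ Δ → Δ ≤ P → 0 ≤ E → E ≤ P * n ^ 2 → 0 ≤ Y → Y ≤ P * (τ ^ 4 * n ^ 2) → 0 ≤ S →
    S ≤ P * (τ ^ 4 * n ^ 4) → 0 ≤ Z → Z ≤ P * n ^ 4 → 0 ≤ X →
    Alt C n M (τ ^ 4) g Δ E (τ * n) (n ^ 2 / τ) Y S Z X → X ≤ K * P ^ 5 * (τ ^ 3 * n ^ 4)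

/-! ### the large values estimate -/

def X6Stmt : Prop := ∀ ε : ℝ, 0 < ε → ∃ K : ℝ, 0 < K ∧ ∀ (n T : ℕ) (τ : ℝ) (b : ℕ → ℂ),
  1 ≤ n → n ^ 2 ≤ T → T ^ 3 ≤ n ^ 8 → 0 < τ → τ ^ 4 = T → Adm n b →
  XX n T b (τ * n) ((n : ℝ) ^ 2 / τ) ≤ K * (n : ℝ) ^ ε * (τ ^ 3 * (n : ℝ) ^ 4)

def B6Stmt : Prop := ∀ ε : ℝ, 0 < ε → ∃ K : ℝ, 0 < K ∧ ∀ (n T : ℕ) (V : ℝ) (b : ℕ → ℂ),
  1 ≤ n → n ^ 2 ≤ T → T ^ 3 ≤ n ^ 8 → 0 < V → Adm n b →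
  (DH.cnt n b T V : ℝ) ≤ K * (n : ℝ) ^ ε *
    ((n : ℝ) ^ 4 / V ^ 4 + (T : ℝ) ^ (3 / 4 : ℝ) * (n : ℝ) ^ 4 / V ^ 6)

/-- the fourth and the sixth moment -/
def MvStmt : Prop := ∀ ε : ℝ, 0 < ε → ∃ K : ℝ, 0 < K ∧ ∀ (n T : ℕ) (V : ℝ) (b : ℕ → ℂ),
  1 ≤ n → 0 < V → (∀ a, ‖b a‖ ≤ 1) →
  (DH.cnt n b T V : ℝ) ≤ K * (n : ℝ) ^ ε * (((T : ℝ) + n) * n / V ^ 2) ∧
  (DH.cnt n b T V : ℝ) ≤ K * (n : ℝ) ^ ε * (((T : ℝ) + (n : ℝ) ^ 2) * (n : ℝ) ^ 2 / V ^ 4) ∧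
  (DH.cnt n b T V : ℝ) ≤ K * (n : ℝ) ^ ε * (((T : ℝ) + (n : ℝ) ^ 3) * (n : ℝ) ^ 3 / V ^ 6)

def CutStmt : Prop := ∀ (n : ℕ) (b : ℕ → ℂ), 1 ≤ n → (∀ a, ‖b a‖ ≤ 1) →
  ∃ (r : ℕ → ℕ) (c : ℕ → ℕ → ℂ), (∀ j, n ≤ r j ∧ r j ≤ 5 * n ∧ Adm (r j) (c j)) ∧
    ∀ (T : ℕ) (V : ℝ), DH.cnt n b T V ≤ ∑ j ∈ range 3, DH.cnt (r j) (c j) T (V / 3)

def Int6Stmt : Prop := ∀ ε : ℝ, 0 < ε → ∃ K : ℝ, 0 < K ∧ ∀ (n T : ℕ) (V : ℝ) (b : ℕ → ℂ),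
  1 ≤ n → 0 < V → (∀ a, ‖b a‖ ≤ 1) →
  (DH.cnt n b T V : ℝ) ≤ K * (n : ℝ) ^ ε * ((n : ℝ) ^ 4 / V ^ 4 +
    ((T : ℝ) ^ (3 / 4 : ℝ) * (n : ℝ) ^ 4 + T * (n : ℝ) ^ 3) / V ^ 6)

def Final6Stmt : Prop := ∀ ε : ℝ, 0 < ε → ∃ K : ℝ, ∀ (N : ℕ) (T V : ℝ), 1 ≤ N → 1 ≤ T →
  0 < V → ∀ b : ℕ → ℂ, (∀ n, ‖b n‖ ≤ 1) → ∀ W : Finset ℝ, (∀ t ∈ W, 0 ≤ t ∧ t ≤ T) →
    (∀ s ∈ W, ∀ t ∈ W, s ≠ t → 1 ≤ |s - t|) → (∀ t ∈ W, V ≤ ‖DP N b t‖) →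
    (W.card : ℝ) ≤ K * (N : ℝ) ^ ε * ((N : ℝ) ^ 4 / V ^ 4 +
      (T ^ (3 / 4 : ℝ) * (N : ℝ) ^ 4 + T * (N : ℝ) ^ 3) / V ^ 6)

/-! ### the exponent `9/4` -/

def One9Stmt : Prop := ∀ ε : ℝ, 0 < ε → ∃ K : ℝ, 0 < K ∧ ∀ N T : ℕ, 1 ≤ N → N ≤ T →
  T ^ 5 ≤ N ^ 6 → ∀ σ lam V : ℝ, 1 / 2 ≤ σ → σ ≤ 1 → 1 ≤ lam → 0 < V →
  (N : ℝ) ^ σ ≤ lam * V → ∀ b : ℕ → ℂ, (∀ n, ‖b n‖ ≤ 1) →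
    (DH.cnt N b T V : ℝ) ≤ K * (N : ℝ) ^ ε * lam ^ 4 * (T : ℝ) ^ (9 / 4 * (1 - σ))

def Two9Stmt : Prop := ∀ ε : ℝ, 0 < ε → ∃ K : ℝ, 0 < K ∧ ∀ N T : ℕ, 1 ≤ N → N ^ 2 ≤ T →
  T ^ 3 ≤ N ^ 8 → ∀ σ lam V : ℝ, 1 / 2 ≤ σ → σ ≤ 1 → 1 ≤ lam → 0 < V →
  (N : ℝ) ^ σ ≤ lam * V → ∀ b : ℕ → ℂ, (∀ n, ‖b n‖ ≤ 1) →
    (DH.cnt N b T V : ℝ) ≤ K * (N : ℝ) ^ ε * lam ^ 6 * (T : ℝ) ^ (9 / 4 * (1 - σ))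

def Mvk9Stmt : Prop := ∀ (k : ℕ) (ε : ℝ), 1 ≤ k → 0 < ε → ∃ K : ℝ, 0 < K ∧ ∀ N T : ℕ, 1 ≤ N →
  T ≤ N ^ k → N ^ (8 * k) ≤ T ^ 9 → ∀ σ lam V : ℝ, σ ≤ 1 → 1 ≤ lam → 0 < V →
  (N : ℝ) ^ σ ≤ lam * V → ∀ b : ℕ → ℂ, (∀ n, ‖b n‖ ≤ 1) →
    (DH.cnt N b T V : ℝ) ≤ K * (N : ℝ) ^ ε * lam ^ (2 * k) * (T : ℝ) ^ (9 / 4 * (1 - σ))

def Hi9Stmt : Prop := ∀ (k : ℕ) (ε : ℝ), 1 ≤ k → 0 < ε → ∃ K : ℝ, 0 < K ∧ ∀ N T : ℕ, 1 ≤ N →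
  N ^ k ≤ T → T ^ 5 ≤ N ^ (6 * k) → ∀ σ lam V : ℝ, 1 / 2 ≤ σ → σ ≤ 1 → 1 ≤ lam → 0 < V →
  (N : ℝ) ^ σ ≤ lam * V → ∀ b : ℕ → ℂ, (∀ n, ‖b n‖ ≤ 1) →
    (DH.cnt N b T V : ℝ) ≤ K * (N : ℝ) ^ ε * lam ^ (4 * k) * (T : ℝ) ^ (9 / 4 * (1 - σ))

def Pow9Stmt : Prop := ∀ A : ℝ, ∃ a : ℕ, ∀ ε : ℝ, 0 < ε → ∃ K : ℝ, 0 < K ∧ ∀ N T : ℕ, 1 ≤ N →
  N ^ 16 ≤ T ^ 9 → (T : ℝ) ≤ (N : ℝ) ^ A → ∀ σ lam V : ℝ, 1 / 2 ≤ σ → σ ≤ 1 → 1 ≤ lam →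
  0 < V → (N : ℝ) ^ σ ≤ lam * V → ∀ b : ℕ → ℂ, (∀ n, ‖b n‖ ≤ 1) →
    (DH.cnt N b T V : ℝ) ≤ K * lam ^ a * (N : ℝ) ^ ε * (T : ℝ) ^ (9 / 4 * (1 - σ))

/-! ### basic facts -/

lemma Io_two (T : ℕ) : Io (2 * T) = Ioo (-(2 * T : ℤ)) (2 * T) := by
  unfold Io
  push_cast
  rfl

lemma tri_nonneg {L : ℕ} {t : ℤ} (ht : t ∈ Io L) : 0 ≤ tri L t := by
  obtain ⟨h1, h2⟩ := mem_Io.1 ht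
  have h3 : |t| ≤ (L : ℤ) := abs_le.2 ⟨h1.le, h2.le⟩
  have h4 : |(t : ℝ)| ≤ L := by exact_mod_cast h3
  exact div_nonneg (by linarith) (Nat.cast_nonneg L)

lemma tri_le_one (L : ℕ) (t : ℤ) : tri L t ≤ 1 :=
  div_le_one_of_le₀ (by linarith [abs_nonneg (t : ℝ)]) (Nat.cast_nonneg L)

lemma half_le_tri {L : ℕ} (hL : 1 ≤ L) {t : ℤ} (ht : 2 * |t| ≤ (L : ℤ)) : 1 / 2 ≤ tri L t := by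
  have h1 : 2 * |(t : ℝ)| ≤ L := by exact_mod_cast ht
  have h2 : (0 : ℝ) < L := by exact_mod_cast hL
  rw [tri, le_div_iff₀ h2]
  linarith

lemma Fe_nonneg (L : ℕ) (v : ℝ) : 0 ≤ Fe L v := by unfold Fe; positivity

lemma FT_tri (hT : TriangStmt) (L : ℕ) (v : ℝ) : FT (Io L) (tri L) v = (Fe L v : ℂ) := by
  have h := hT L (Real.log v / (2 * Real.pi))
  rw [Fe, Complex.ofReal_div, ← h, sum_div]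
  refine sum_congr rfl fun t _ => ?_
  rw [tri, pw_eq_ex, Complex.ofReal_div]
  ring

lemma continuousOn_Fe (L : ℕ) : ContinuousOn (Fe L) (Set.Ioi 0) := by
  unfold Fe
  refine (((continuous_gs L).comp_continuousOn ?_).norm.pow 2).div_const _
  exact (Real.continuousOn_log.mono fun x hx => ne_of_gt hx).div_const _

lemma mem_Pr {n : ℕ} {p : ℕ × ℕ} :
    p ∈ Pr n ↔ (n ≤ p.1 ∧ p.1 ≤ 2 * n) ∧ n ≤ p.2 ∧ p.2 ≤ 2 * n := by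
  simp [Pr]

lemma mem_Rg {N k : ℕ} : k ∈ Rg N ↔ (1 ≤ k ∧ k ≤ 3 * N) ∧ 3 * N ≤ 4 * k := by
  simp [Rg]

lemma Plo_sub (n g : ℕ) : Plo n g ⊆ Pr n := filter_subset _ _

lemma Phi_sub (n g : ℕ) : Phi n g ⊆ Pr n := filter_subset _ _

lemma swap_Plo {n g : ℕ} : ∀ p ∈ Plo n g, p.swap ∈ Plo n g := fun p hp => by
  simp only [Plo, mem_filter, mem_Pr, Prod.fst_swap, Prod.snd_swap] at hp ⊢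
  exact ⟨⟨hp.1.2, hp.1.1⟩, by rw [Nat.gcd_comm]; exact hp.2⟩

lemma swap_Phi {n g : ℕ} : ∀ p ∈ Phi n g, p.swap ∈ Phi n g := fun p hp => by
  simp only [Phi, mem_filter, mem_Pr, Prod.fst_swap, Prod.snd_swap] at hp ⊢
  exact ⟨⟨hp.1.2, hp.1.1⟩, by rw [Nat.gcd_comm]; exact hp.2⟩

lemma pos_Pr {n : ℕ} (hn : 1 ≤ n) {P : Finset (ℕ × ℕ)} (hP : P ⊆ Pr n) :
    ∀ p ∈ P, 1 ≤ p.1 ∧ 1 ≤ p.2 := fun _ hp =>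
  ⟨hn.trans (mem_Pr.1 (hP hp)).1.1, hn.trans (mem_Pr.1 (hP hp)).2.1⟩

lemma card_Pr {n : ℕ} (hn : 1 ≤ n) : ((Pr n).card : ℝ) ≤ 4 * (n : ℝ) ^ 2 := by
  rw [Pr, card_product, Nat.card_Icc, show 2 * n + 1 - n = n + 1 by omega]
  have : (1 : ℝ) ≤ n := by exact_mod_cast hn
  push_cast
  nlinarith

lemma FP_Pr {n : ℕ} (hn : 1 ≤ n) (b : ℕ → ℂ) (t : ℝ) :
    FP (Pr n) b t = ((‖DP n b t‖ ^ 2 : ℝ) : ℂ) := by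
  rw [Complex.ofReal_pow, ← Complex.mul_conj', FP, Pr, sum_product, DP, map_sum, sum_mul_sum]
  refine sum_congr rfl fun a ha => sum_congr rfl fun c hc => ?_
  have h1 : (a : ℝ) ≠ 0 := Nat.cast_ne_zero.2 (by have := (mem_Icc.1 ha).1; omega)
  have h2 : (c : ℝ) ≠ 0 := Nat.cast_ne_zero.2 (by have := (mem_Icc.1 hc).1; omega)
  rw [pw_div h1 h2, map_mul, conj_pw]
  ring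

lemma norm_FP_Pr {n : ℕ} (hn : 1 ≤ n) (b : ℕ → ℂ) (t : ℝ) :
    ‖FP (Pr n) b t‖ = ‖DP n b t‖ ^ 2 := by
  rw [FP_Pr hn, Complex.norm_real, Real.norm_of_nonneg (sq_nonneg _)]

lemma norm_FP_le (P : Finset (ℕ × ℕ)) {b : ℕ → ℂ} (hb : ∀ a, ‖b a‖ ≤ 1) (t : ℝ) :
    ‖FP P b t‖ ≤ P.card := by
  refine (norm_sum_le _ _).trans ((sum_le_card_nsmul _ _ 1 fun p _ => ?_).trans (by simp))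
  rw [norm_mul, norm_mul, norm_pw, Complex.norm_conj, mul_one]
  exact mul_le_one₀ (hb _) (norm_nonneg _) (hb _)

lemma abs_wP_le {L : ℕ} (P : Finset (ℕ × ℕ)) (b : ℕ → ℂ) {t : ℤ} (ht : t ∈ Io L) :
    |wP L P b t| ≤ ‖FP P b t‖ := by
  rw [wP, abs_mul, abs_of_nonneg (tri_nonneg ht)]
  exact (mul_le_of_le_one_left (abs_nonneg _) (tri_le_one L t)).trans (Complex.abs_re_le_norm _)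

lemma nu_eq {n : ℕ} (hn : 1 ≤ n) (T g : ℕ) (b : ℕ → ℂ) (t : ℤ) :
    nu n T b t = wP (2 * T) (Plo n g) b t + wP (2 * T) (Phi n g) b t := by
  have h : FP (Plo n g) b t + FP (Phi n g) b t = FP (Pr n) b t := by
    unfold FP Plo Phi
    simp only [← not_le]
    exact sum_filter_add_sum_filter_not _ _ _
  rw [wP, wP, ← mul_add, ← Complex.add_re, h, FP_Pr hn, Complex.ofReal_re, nu]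

lemma nu_nonneg {n T : ℕ} (b : ℕ → ℂ) {t : ℤ} (ht : t ∈ Io (2 * T)) : 0 ≤ nu n T b t :=
  mul_nonneg (tri_nonneg ht) (sq_nonneg _)

lemma nu_le (n T : ℕ) (b : ℕ → ℂ) (t : ℤ) : nu n T b t ≤ ‖DP n b t‖ ^ 2 :=
  mul_le_of_le_one_left (sq_nonneg _) (tri_le_one _ t)

lemma nu_split (n T : ℕ) (b : ℕ → ℂ) (U u : ℝ) (t : ℤ) :
    nu n T b t = ww n T b U u t + ll n T b U u t + la n T b U t := by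
  unfold ww ll la
  by_cases h1 : ‖DP n b t‖ ^ 2 ≤ U <;> by_cases h2 : nu n T b t ≤ u <;>
    simp [h1, h2, not_lt.2, not_le.1]

lemma mm_sub_ww {n : ℕ} (hn : 1 ≤ n) (T g : ℕ) (b : ℕ → ℂ) (U u : ℝ) (t : ℤ) :
    mm n T g b U t - ww n T b U u t = ll n T b U u t - wP (2 * T) (Phi n g) b t := by
  have h1 := nu_eq hn T g b t
  have h2 := nu_split n T b U u t
  unfold mm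
  linarith

lemma ww_nonneg {n T : ℕ} (b : ℕ → ℂ) (U u : ℝ) {t : ℤ} (ht : t ∈ Io (2 * T)) :
    0 ≤ ww n T b U u t := by
  unfold ww
  split_ifs
  · exact nu_nonneg b ht
  · exact le_rfl

lemma XX_nonneg (n T : ℕ) (b : ℕ → ℂ) (U u : ℝ) : 0 ≤ XX n T b U u :=
  sum_nonneg fun _ ht => mul_nonneg (ww_nonneg b U u ht) (by positivity)

lemma NW_nonneg (N : ℕ) (x : ℕ → ℂ) : 0 ≤ NW N x :=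
  sum_nonneg fun _ _ => mul_nonneg (Wt_nonneg _) (sq_nonneg _)

lemma NW_sub_le (N : ℕ) (x y : ℕ → ℂ) :
    NW N (fun k => x k - y k) ≤ 2 * NW N x + 2 * NW N y := by
  unfold NW
  rw [mul_sum, mul_sum, ← sum_add_distrib]
  refine sum_le_sum fun k _ => ?_
  have h1 := pow_le_pow_left₀ (norm_nonneg _) (norm_sub_le (x k) (y k)) 2
  have h2 : ‖x k - y k‖ ^ 2 ≤ 2 * ‖x k‖ ^ 2 + 2 * ‖y k‖ ^ 2 := by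
    nlinarith [sq_nonneg (‖x k‖ - ‖y k‖)]
  have := mul_le_mul_of_nonneg_left h2 (Wt_nonneg ((k : ℝ) / N))
  linarith

lemma NW_le_Rg {N : ℕ} (hN : 1 ≤ N) (x : ℕ → ℂ) : NW N x ≤ ∑ k ∈ Rg N, ‖x k‖ ^ 2 := by
  have hN' : (0 : ℝ) < N := by exact_mod_cast hN
  rw [NW, Rg, sum_filter]
  refine sum_le_sum fun k _ => ?_
  split_ifs with h
  · exact mul_le_of_le_one_left (sq_nonneg _) (Wt_le_one _)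
  · have h1 : 4 * (k : ℝ) ≤ 3 * N := by exact_mod_cast (not_le.1 h).le
    rw [Wt_eq_zero (Or.inl (by rw [div_le_iff₀ hN']; linarith)), zero_mul]

end Pool.Agent.MP_2a1f0e_nt.SQ
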