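import Pool.Agent.MP_2a1f0e_nt.SQ.Defs
import Pool.Agent.MP_c853c5_nt.Z.YDefs
set_option autoImplicit false
open Finset
namespace Pool.Agent.MP_2a1f0e_nt.SQ
open GM GM2

lemma key_Pow9 {K K' x lam y : ℝ} {j a : ℕ} (hK : 0 < K) (h : K ≤ K') (hx : 0 ≤ x) (hy : 0 ≤ y)
    (hl : 1 ≤ lam) (hj : j ≤ a) : K * x * lam ^ j * y ≤ K' * lam ^ a * x * y := by
  have h1 := pow_le_pow_right₀ hl hj
  have h2 : 0 < lam := by linarith
  have h3 : 0 < K' := hK.trans_le h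
  calc K * x * lam ^ j * y ≤ K' * x * lam ^ a * y := by gcongr
    _ = _ := by ring

theorem pow9_stmt (h2 : Two9Stmt) (hM : Mvk9Stmt) (hH : Hi9Stmt) : Pow9Stmt := by
  intro A
  obtain ⟨k0, hk0⟩ := exists_nat_ge A
  refine ⟨4 * k0 + 8, fun ε hε => ?_⟩
  obtain ⟨K2, hK2, h2⟩ := h2 ε hε
  choose KM hKM hM using fun k => hM (k + 1) ε (Nat.le_add_left 1 k) hε
  choose KH hKH hH using fun k => hH (k + 1) ε (Nat.le_add_left 1 k) hε
  have hp : ∀ k ∈ range (k0 + 1), 0 ≤ KM k + KH k := fun k _ => (add_pos (hKM k) (hKH k)).le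
  have hS := sum_nonneg hp
  have hle : ∀ k ≤ k0, KM k + KH k ≤ ∑ k ∈ range (k0 + 1), (KM k + KH k) := fun k hk =>
    single_le_sum hp (mem_range.2 (Nat.lt_succ_of_le hk))
  refine ⟨K2 + ∑ k ∈ range (k0 + 1), (KM k + KH k), by linarith, ?_⟩
  intro N T hN hNT hTA σ lam V hσ hσ1 hlam hV hNV b hb
  have hx : 0 ≤ (N : ℝ) ^ ε := by positivity
  have hy : 0 ≤ (T : ℝ) ^ (9 / 4 * (1 - σ)) := by positivity
  have cM : ∀ k ≤ k0, T ≤ N ^ (k + 1) → N ^ (8 * (k + 1)) ≤ T ^ 9 → (DH.cnt N b T V : ℝ) ≤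
      (K2 + ∑ k ∈ range (k0 + 1), (KM k + KH k)) * lam ^ (4 * k0 + 8) * (N : ℝ) ^ ε *
        (T : ℝ) ^ (9 / 4 * (1 - σ)) := fun k hk a1 a2 =>
    (hM k N T hN a1 a2 σ lam V hσ1 hlam hV hNV b hb).trans
      (key_Pow9 (hKM k) (by linarith [hle k hk, hKH k]) hx hy hlam (by omega))
  rcases hN.eq_or_lt with rfl | hN2
  · rw [Nat.cast_one, Real.one_rpow] at hTA
    exact cM 0 (Nat.zero_le _) (by exact_mod_cast hTA) (by simpa using hNT)
  have hT0 : T ≠ 0 := by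
    rintro rfl
    exact absurd hNT (not_le.2 (Nat.pow_pos hN))
  obtain ⟨k, hk⟩ : ∃ k, k = Nat.log N T := ⟨_, rfl⟩
  have k1 : N ^ k ≤ T := hk ▸ Nat.pow_log_le_self N hT0
  have k2 : T < N ^ (k + 1) := hk ▸ Nat.lt_pow_succ_log_self hN2 T
  have hN1 : (1 : ℝ) ≤ N := by exact_mod_cast hN
  have k4 : k ≤ k0 := by
    have h1 : (T : ℝ) ≤ (N : ℝ) ^ k0 := by
      rw [← Real.rpow_natCast]
      exact hTA.trans (Real.rpow_le_rpow_of_exponent_le hN1 hk0)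
    exact (Nat.pow_le_pow_iff_right hN2).1 (k1.trans (by exact_mod_cast h1))
  by_cases c : N ^ (8 * (k + 1)) ≤ T ^ 9
  · exact cM k k4 k2.le c
  rw [not_le] at c
  have k3 : 2 ≤ k := by
    have := (Nat.pow_lt_pow_iff_right hN2).1 (hNT.trans_lt c)
    omega
  rcases k3.eq_or_lt with rfl | k5
  · refine (h2 N T hN k1 ?_ σ lam V hσ hσ1 hlam hV hNV b hb).trans
      (key_Pow9 hK2 (by linarith) hx hy hlam (by omega))
    refine (Nat.pow_le_pow_iff_left (n := 3) (by norm_num)).1 ?_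
    rw [← pow_mul, ← pow_mul]
    exact c.le
  obtain ⟨m, rfl⟩ : ∃ m, k = m + 1 := ⟨k - 1, by omega⟩
  refine (hH m N T hN k1 ?_ σ lam V hσ hσ1 hlam hV hNV b hb).trans
    (key_Pow9 (hKH m) (by linarith [hle m (by omega), hKM m]) hx hy hlam (by omega))
  refine (Nat.pow_le_pow_iff_left (n := 9) (by norm_num)).1 ?_
  rw [← pow_mul, mul_comm 5, pow_mul, ← pow_mul N]
  refine (Nat.pow_le_pow_left c.le 5).trans ?_
  rw [← pow_mul]
  exact Nat.pow_le_pow_right hN (by omega)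

theorem lvp9_stmt (h : Pow9Stmt) : Pool.Agent.MP_c853c5_nt.Z.LvP (9 / 4) := by
  intro η hη hη1
  obtain ⟨a, h⟩ := h (7 / η)
  refine ⟨a, fun ε hε => ?_⟩
  obtain ⟨K, hK, h⟩ := h ε hε
  refine ⟨K * 6 ^ ε * 36 ^ 2, by positivity, ?_⟩
  intro N T σ lam V b hT h1 h2 hσ hσ1 hlam hV hNV hb
  have hx : (2 : ℝ) ≤ T := by exact_mod_cast hT
  have hx1 : (1 : ℝ) ≤ T := by linarith
  have hx0 : (0 : ℝ) < T := by linarith
  have hN : (1 : ℝ) ≤ N := (Real.one_le_rpow hx1 hη.le).trans h1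
  have a1 : ((36 * T : ℕ) : ℝ) ≤ (N : ℝ) ^ (7 / η) := by
    have e : ((T : ℝ) ^ η) ^ (7 / η) = (T : ℝ) ^ 7 := by
      rw [← Real.rpow_mul hx0.le, mul_div_cancel₀ _ hη.ne', ← Real.rpow_natCast]
      norm_num
    have h3 : ((T : ℝ) ^ η) ^ (7 / η) ≤ (N : ℝ) ^ (7 / η) :=
      Real.rpow_le_rpow (by positivity) h1 (by positivity)
    have h4 : (2 : ℝ) ^ 6 * T ≤ (T : ℝ) ^ 7 := by
      rw [pow_succ (T : ℝ) 6]
      gcongr
    rw [e] at h3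
    push_cast
    linarith
  have a2 : N ^ 16 ≤ (36 * T) ^ 9 := by
    have h3 : ((T : ℝ) ^ (1 / 2 + η)) ^ 16 ≤ (T : ℝ) ^ 9 := by
      rw [← Real.rpow_natCast, ← Real.rpow_mul hx0.le, ← Real.rpow_natCast]
      exact Real.rpow_le_rpow_of_exponent_le hx1 (by push_cast; linarith)
    have h4 : (N : ℝ) ^ 16 ≤ (36 * T) ^ 9 := by
      calc (N : ℝ) ^ 16 ≤ (6 * (T : ℝ) ^ (1 / 2 + η)) ^ 16 := by gcongr
        _ = 6 ^ 16 * ((T : ℝ) ^ (1 / 2 + η)) ^ 16 := mul_pow _ _ _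
        _ ≤ 36 ^ 9 * (T : ℝ) ^ 9 := mul_le_mul (by norm_num) h3 (by positivity) (by positivity)
        _ = _ := (mul_pow _ _ _).symm
    exact_mod_cast h4
  have a3 : (N : ℝ) ^ ε ≤ 6 ^ ε * (T : ℝ) ^ ε := by
    rw [← Real.mul_rpow (by norm_num) hx0.le]
    refine Real.rpow_le_rpow (by linarith) (h2.trans ?_) hε.le
    have := Real.rpow_le_rpow_of_exponent_le hx1 (show 1 / 2 + η ≤ 1 by linarith)
    rw [Real.rpow_one] at this
    linarith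
  have a4 : ((36 * T : ℕ) : ℝ) ^ (9 / 4 * (1 - σ)) ≤ 36 ^ 2 * (T : ℝ) ^ (9 / 4 * (1 - σ)) := by
    push_cast
    rw [Real.mul_rpow (by norm_num) hx0.le, ← Real.rpow_two]
    exact mul_le_mul_of_nonneg_right
      (Real.rpow_le_rpow_of_exponent_le (by norm_num) (by linarith)) (by positivity)
  have a5 : (DH.cnt N b (2 * T) V : ℝ) ≤ DH.cnt N b (36 * T) V := by
    exact_mod_cast DH.cnt_mono N b (by omega) le_rfl
  have hl : 0 < lam := by linarith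
  refine a5.trans ((h N (36 * T) (by exact_mod_cast hN) a2 a1 σ lam V hσ hσ1 hlam hV hNV b
    hb).trans ?_)
  rw [Real.rpow_add hx0]
  calc K * lam ^ a * (N : ℝ) ^ ε * ((36 * T : ℕ) : ℝ) ^ (9 / 4 * (1 - σ))
      ≤ K * lam ^ a * (6 ^ ε * (T : ℝ) ^ ε) * (36 ^ 2 * (T : ℝ) ^ (9 / 4 * (1 - σ))) := by gcongr
    _ = _ := by ring

end Pool.Agent.MP_2a1f0e_nt.SQ
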