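import Pool.Agent.MP_2a1f0e_nt.SQ.Defs
import Pool.Agent.MP_2a1f0e_nt.GM.BTwo

set_option autoImplicit false

open Finset

namespace Pool.Agent.MP_2a1f0e_nt.SQ

open GM GM2

lemma le_Sqc {n : ℕ} {b : ℕ → ℂ} (hb : Adm n b) {p : ℕ × ℕ} (h : b p.1 * b p.2 ≠ 0) :
    p.1 * p.2 ≤ 2 * n ^ 2 := by
  have h1 : 5 * p.1 ≤ 7 * n := not_lt.1 fun e => left_ne_zero_of_mul h (hb.2 _ e)
  have h2 : 5 * p.2 ≤ 7 * n := not_lt.1 fun e => right_ne_zero_of_mul h (hb.2 _ e)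
  nlinarith [Nat.mul_le_mul h1 h2]

theorem sqc_stmt : SqcStmt := by
  intro n b Δ hn hb hD
  have h2 : ∀ k, ‖sqc n b k‖ ≤ Δ := fun k => by
    by_cases hk : k ≤ 2 * n ^ 2
    · refine (norm_sum_le _ _).trans ((sum_le_card_nsmul _ _ 1 fun p _ => ?_).trans ?_)
      · rw [norm_mul]
        exact mul_le_one₀ (hb.1 _) (norm_nonneg _) (hb.1 _)
      · rw [nsmul_one]
        refine le_trans (Nat.cast_le.2 (card_le_card_of_injOn Prod.fst (fun p hp => ?_)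
          fun p hp q hq e => ?_)) (hD.2 k hk)
        · obtain ⟨h1, rfl⟩ := mem_filter.1 hp
          have := pos_Pr hn Subset.rfl p h1
          exact Nat.mem_divisors.2 ⟨dvd_mul_right _ _, mul_ne_zero (by omega) (by omega)⟩
        · obtain ⟨h1, h3⟩ := mem_filter.1 hp
          exact Prod.ext e (Nat.eq_of_mul_eq_mul_left (pos_Pr hn Subset.rfl p h1).1
            (h3.trans (e ▸ (mem_filter.1 hq).2.symm)))
    · rw [sqc, sum_eq_zero, norm_zero]
      · linarith [hD.1]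
      · exact fun p hp => by_contra fun h => hk ((mem_filter.1 hp).2.ge.trans (le_Sqc hb h))
  refine ⟨fun t => ?_, h2, ?_⟩
  · have e : ∀ k, sqc n b k * pw (k : ℝ) t = ∑ p ∈ (Pr n).filter (fun p => p.1 * p.2 = k),
        b p.1 * b p.2 * pw ((p.1 * p.2 : ℕ) : ℝ) t := fun k => by
      rw [sqc, sum_mul]
      exact sum_congr rfl fun p hp => by rw [(mem_filter.1 hp).2]
    rw [DP]
    simp only [e]
    rw [sum_fiberwise_eq_sum_filter, sum_filter_of_ne fun p hp h => mem_Icc.2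
      ⟨(sq n).trans_le (Nat.mul_le_mul (mem_Pr.1 hp).1.1 (mem_Pr.1 hp).2.1),
        le_Sqc hb (left_ne_zero_of_mul h)⟩, sq, DP, sum_mul_sum, Pr, sum_product]
    refine sum_congr rfl fun a ha => sum_congr rfl fun c hc => ?_
    have h1 : (a : ℝ) ≠ 0 := Nat.cast_ne_zero.2 (by have := (mem_Icc.1 ha).1; omega)
    have h2 : (c : ℝ) ≠ 0 := Nat.cast_ne_zero.2 (by have := (mem_Icc.1 hc).1; omega)
    rw [Nat.cast_mul, pw_mul h1 h2]
    ring
  · refine (sum_le_card_nsmul _ _ (Δ ^ 2) fun k _ =>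
      pow_le_pow_left₀ (norm_nonneg _) (h2 k) 2).trans ?_
    have : (1 : ℝ) ≤ (n : ℝ) ^ 2 := one_le_pow₀ (by exact_mod_cast hn)
    rw [Nat.card_Icc, show 2 * n ^ 2 + 1 - n ^ 2 = n ^ 2 + 1 by omega, nsmul_eq_mul]
    push_cast
    nlinarith [sq_nonneg Δ]

theorem big_stmt (hS : SqcStmt) (h2 : B2Stmt) (hB : BlkStmt) : BigStmt := by
  intro ε hε
  obtain ⟨K, hK, h⟩ := h2 (ε / 2) (by positivity)
  refine ⟨5 * K, by positivity, fun n T Δ U b hn hT hT' hD hU hb => ?_⟩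
  obtain ⟨s1, s2, -⟩ := hS n b Δ hn hb hD
  have hΔ := hD.1
  have hΔ0 : 0 < Δ := by linarith
  have hN : 1 ≤ n ^ 2 := Nat.one_le_pow _ _ hn
  have hT0 : (0 : ℝ) < T := by exact_mod_cast hN.trans hT
  have hn0 : (0 : ℝ) < n := by exact_mod_cast hn
  have e : ∀ t : ℝ, ‖DP (n ^ 2) (fun k => sqc n b k / Δ) t‖ = ‖DP n b t‖ ^ 2 / Δ := fun t => by
    rw [← norm_pow, ← s1, DP, DP]
    simp only [div_mul_eq_mul_div]
    rw [← sum_div, norm_div, Complex.norm_real, Real.norm_of_nonneg hΔ0.le]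
  have a1 := hB (n ^ 2) (4 * T) T _ _ hN (hN.trans hT)
    (fun c hc => h (n ^ 2) T hN hT (by rwa [← pow_mul]) c hc (U / Δ) (by positivity))
    (fun k => sqc n b k / Δ * pw (k : ℝ) ((-(2 * T : ℤ) : ℤ) : ℝ)) fun k => by
      rw [norm_mul, norm_pw, mul_one, norm_div, Complex.norm_real, Real.norm_of_nonneg hΔ0.le]
      exact div_le_one_of_le₀ (s2 k) hΔ0.le
  rw [← mass_shift_BTwo] at a1
  have a2 := (Mass_mono _ _ (I := Io (2 * T)) (fun t ht => by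
    rw [mem_Io] at ht
    rw [mem_Icc]
    omega) _).trans a1
  have a3 : ∑ t ∈ (Io (2 * T)).filter (fun t : ℤ => U < ‖DP n b t‖ ^ 2), ‖DP n b t‖ ^ 4 ≤
      Δ ^ 2 * Mass (n ^ 2) (fun k => sqc n b k / Δ) (Io (2 * T)) (U / Δ) := by
    rw [Mass, mul_sum]
    simp only [e]
    refine le_trans (sum_le_sum_of_subset_of_nonneg (monotone_filter_right _ fun t _ ht => ?_)
      fun _ _ _ => by positivity) (le_of_eq (sum_congr rfl fun t _ => by field_simp))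
    exact div_le_div_of_nonneg_right ht.le hΔ0.le
  refine a3.trans ((mul_le_mul_of_nonneg_left a2 (sq_nonneg Δ)).trans ?_)
  have e2 : ((n ^ 2 : ℕ) : ℝ) ^ (ε / 2) = (n : ℝ) ^ ε := by
    rw [Nat.cast_pow, ← Real.rpow_natCast, ← Real.rpow_mul hn0.le]
    congr 1
    push_cast
    ring
  have h6 : Δ ^ 2 ≤ Δ ^ 6 := pow_le_pow_right₀ hΔ (by norm_num)
  rw [e2]
  calc _ = 5 * K * (n : ℝ) ^ ε * (Δ ^ 2 * (n : ℝ) ^ 4 + Δ ^ 6 * (T * (n : ℝ) ^ 8 / U ^ 4)) := by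
        push_cast
        field_simp
        ring
    _ ≤ 5 * K * (n : ℝ) ^ ε * (Δ ^ 6 * (n : ℝ) ^ 4 + Δ ^ 6 * (T * (n : ℝ) ^ 8 / U ^ 4)) := by
        gcongr
    _ = _ := by ring

lemma DP_Sqc {r m : ℕ} (h : 2 * r < m) (c : ℕ → ℂ) (t : ℝ) :
    DP r c t = ∑ a ∈ range m, if r ≤ a ∧ a ≤ 2 * r then c a * pw (a : ℝ) t else 0 := by
  rw [DP, ← sum_filter]
  congr 1
  ext a
  rw [mem_filter, mem_range, mem_Icc]
  omega

theorem cut_stmt : CutStmt := by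
  intro n b hn hb
  obtain ⟨r, hr⟩ : ∃ r, r = 7 * n / 5 + 1 := ⟨_, rfl⟩
  obtain ⟨s, hs⟩ : ∃ s, s = 7 * r / 5 + 1 := ⟨_, rfl⟩
  refine ⟨fun j => if j = 0 then n else if j = 1 then r else s, fun j a =>
    if a ≤ 2 * n ∧ (j = 0 → a < r) ∧ (j = 1 → a < s) then b a else 0, fun j => ⟨?_, ?_,
      fun a => ?_, fun a ha => if_neg ?_⟩, fun T V => ?_⟩
  · dsimp only
    split_ifs <;> omega
  · dsimp only
    split_ifs <;> omega
  · dsimp only
    split_ifs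
    · exact hb a
    · simp
  · dsimp only at ha
    split_ifs at ha <;> omega
  refine le_trans (card_le_card fun t ht => ?_) card_biUnion_le
  obtain ⟨ht, hV⟩ := mem_filter.1 ht
  have e : DP n b t = ∑ j ∈ range 3, DP (if j = 0 then n else if j = 1 then r else s) (fun a =>
      if a ≤ 2 * n ∧ (j = 0 → a < r) ∧ (j = 1 → a < s) then b a else 0) t := by
    rw [sum_congr rfl fun j _ => DP_Sqc (m := 10 * n + 1) (by split_ifs <;> omega) _ _, sum_comm,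
      DP_Sqc (m := 10 * n + 1) (by omega)]
    refine sum_congr rfl fun a _ => ?_
    simp only [sum_range_succ, sum_range_zero, ite_mul, zero_mul, ← ite_and]
    norm_num
    split_ifs <;> first | omega | simp
  obtain ⟨j, hj, h⟩ := exists_le_of_sum_le (s := range 3) (f := fun _ => V / 3) ⟨0, by simp⟩
    (le_trans (le_of_eq (by simp; ring)) (hV.trans ((congrArg norm e).trans_le (norm_sum_le _ _))))
  exact mem_biUnion.2 ⟨j, hj, mem_filter.2 ⟨ht, h⟩⟩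

end Pool.Agent.MP_2a1f0e_nt.SQ
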