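import Pool.Agent.MP_2a1f0e_nt.SQ.Main
import Pool.Agent.MP_2a1f0e_nt.DH.Main
import Pool.Agent.MP_c853c5_nt.Z.YDy

set_option autoImplicit false

open Finset

namespace Pool.Agent.MP_2a1f0e_nt.SQ

theorem dya_half {A : ℝ} (hA : 9 / 4 ≤ A) (h : DH.DyaP (11 / 20) fun σ => A * (1 - σ)) :
    DH.DyaP (1 / 2) fun σ => A * (1 - σ) := by
  intro ε hε
  obtain ⟨K, hK, T₀, h⟩ := h ε hε
  refine ⟨K + 2, by positivity, max T₀ 1, fun T hT σ _ h1 S ρ hS hB hz => ?_⟩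
  have hT1 : (1 : ℝ) ≤ T := by exact_mod_cast le_of_max_le_right hT
  have hp : 0 ≤ (T : ℝ) ^ (A * (1 - σ) + ε) := by positivity
  rcases le_total (11 / 20) σ with h2 | h2
  · exact (h T (le_of_max_le_left hT) σ h2 h1 S ρ hS hB hz).trans (by nlinarith)
  · have h3 : S.card ≤ T + 1 := by
      have := card_le_card hS
      rw [Int.card_Icc] at this
      omega
    have h4 : (S.card : ℝ) ≤ T + 1 := by exact_mod_cast h3
    have h5 : (T : ℝ) ^ (1 : ℝ) ≤ (T : ℝ) ^ (A * (1 - σ) + ε) :=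
      Real.rpow_le_rpow_of_exponent_le hT1 (by nlinarith)
    rw [Real.rpow_one] at h5
    nlinarith

theorem zd9_all : DH.ZdP (1 / 2) fun σ => 9 / 4 * (1 - σ) :=
  DH.mul_stmt _ _ le_rfl (fun σ _ h => by linarith)
    (dya_half le_rfl (Pool.Agent.MP_c853c5_nt.Z.yDy DH.det_all _ le_rfl lvp9_all))

end Pool.Agent.MP_2a1f0e_nt.SQ
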